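import Mathlib
import Pool.Agent.Work.MP_193ce1_co.Main

-- merged part: Pool.Agent.Work.MP_193ce1_co.Q.Base
section
namespace Pool.Agent.Work.MP_193ce1_co.Q

variable {V : Type} {G : SimpleGraph V}

/-- a path from `x` to `y` with `n` vertices, all in `S` -/
def PB (G : SimpleGraph V) (x y : V) (n : ℕ) (S : Set V) : Prop :=
  ∃ l : List V, l.head? = some x ∧ l.getLast? = some y ∧ l.Nodup ∧ l.IsChain G.Adj ∧
    l.length = n ∧ ∀ w ∈ l, w ∈ S

theorem PB.single (x : V) : PB G x x 1 {x} :=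
  ⟨[x], rfl, rfl, by simp, by simp, rfl, by simp⟩

theorem PB.mono {x y : V} {n : ℕ} {S S' : Set V} (h : PB G x y n S) (hs : S ⊆ S') :
    PB G x y n S' := by
  obtain ⟨l, h1, h2, h3, h4, h5, h6⟩ := h
  exact ⟨l, h1, h2, h3, h4, h5, fun w hw => hs (h6 w hw)⟩

theorem PB.cast {x y : V} {n m : ℕ} {S : Set V} (h : PB G x y n S) (e : n = m) :
    PB G x y m S := e ▸ h

theorem PB.join {x y x' y' : V} {n m : ℕ} {S S' : Set V} (h : PB G x y n S)
    (h' : PB G x' y' m S') (ha : G.Adj y x') (hd : ∀ w, w ∈ S → w ∈ S' → False) :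
    PB G x y' (n + m) (S ∪ S') := by
  obtain ⟨l, h1, h2, h3, h4, h5, h6⟩ := h
  obtain ⟨l', g1, g2, g3, g4, g5, g6⟩ := h'
  refine ⟨l ++ l', ?_, ?_, ?_, ?_, ?_, ?_⟩
  · rw [List.head?_append, h1]; rfl
  · rw [List.getLast?_append, g2]; rfl
  · rw [List.nodup_append]
    refine ⟨h3, g3, fun a ha b hb e => hd a (h6 a ha) (g6 a (e ▸ hb))⟩
  · rw [List.isChain_append]
    refine ⟨h4, g4, fun a ha b hb => ?_⟩
    rw [h2] at ha; rw [g1] at hb
    simp only [Option.mem_def, Option.some.injEq] at ha hb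
    rw [← ha, ← hb]; exact ‹G.Adj y x'›
  · simp [h5, g5]
  · intro w hw
    rcases List.mem_append.1 hw with hw | hw
    · exact Or.inl (h6 w hw)
    · exact Or.inr (g6 w hw)

theorem PB.rev {x y : V} {n : ℕ} {S : Set V} (h : PB G x y n S) : PB G y x n S := by
  obtain ⟨l, h1, h2, h3, h4, h5, h6⟩ := h
  refine ⟨l.reverse, by simpa using h2, by simpa using h1, by simpa using h3, ?_, by simpa using h5,
    fun w hw => h6 w (by simpa using hw)⟩
  rw [List.isChain_reverse]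
  exact h4.imp fun a b hab => hab.symm

theorem PB.snoc {x y z : V} {n : ℕ} {S : Set V} (h : PB G x y n S) (ha : G.Adj y z)
    (hz : z ∉ S) : PB G x z (n + 1) (insert z S) :=
  (h.join (PB.single z) ha (fun w h1 h2 => hz (by rw [Set.mem_singleton_iff.1 h2] at h1; exact h1))).mono
    (by rintro w (hw | hw); exacts [Or.inr hw, Or.inl hw])

theorem PB.cons {x y z : V} {n : ℕ} {S : Set V} (h : PB G x y n S) (ha : G.Adj x z)
    (hz : z ∉ S) : PB G z y (n + 1) (insert z S) :=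
  (h.rev.snoc ha hz).rev

/-- `q 0, …, q M` is a path -/
structure Ray (G : SimpleGraph V) (q : ℕ → V) (M : ℕ) : Prop where
  inj : ∀ a ≤ M, ∀ b ≤ M, q a = q b → a = b
  adj : ∀ a < M, G.Adj (q a) (q (a + 1))

/-- the vertices `q a, …, q b` -/
def Seg (q : ℕ → V) (a b : ℕ) : Set V := {w | ∃ i, a ≤ i ∧ i ≤ b ∧ q i = w}

theorem Seg.mono {q : ℕ → V} {a b a' b' : ℕ} (h1 : a' ≤ a) (h2 : b ≤ b') :
    Seg q a b ⊆ Seg q a' b' := by
  rintro w ⟨i, h3, h4, h5⟩
  exact ⟨i, by omega, by omega, h5⟩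

theorem Ray.run {q : ℕ → V} {M : ℕ} (h : Ray G q M) (a n : ℕ) (hn : a + n ≤ M) :
    PB G (q a) (q (a + n)) (n + 1) (Seg q a (a + n)) := by
  induction n with
  | zero => exact (PB.single _).mono (by rintro w rfl; exact ⟨a, le_rfl, le_rfl, rfl⟩)
  | succ k ih =>
    refine ((ih (by omega)).snoc (h.adj (a + k) (by omega)) ?_).mono ?_
    · rintro ⟨i, h1, h2, h3⟩
      have := h.inj i (by omega) (a + k + 1) (by omega) h3
      omega
    · rintro w (rfl | hw)
      · exact ⟨a + k + 1, by omega, by omega, rfl⟩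
      · exact Seg.mono le_rfl (by omega) hw

theorem Ray.run' {q : ℕ → V} {M : ℕ} (h : Ray G q M) {a b : ℕ} (hab : a ≤ b) (hb : b ≤ M) :
    PB G (q a) (q b) (b - a + 1) (Seg q a b) := by
  obtain ⟨n, rfl⟩ := Nat.exists_eq_add_of_le hab
  exact (h.run a n hb).cast (by omega)

theorem Ray.disj {q : ℕ → V} {M : ℕ} (h : Ray G q M) {a b c d : ℕ} (hb : b < c) (hd : d ≤ M) :
    ∀ w, w ∈ Seg q a b → w ∈ Seg q c d → False := by
  rintro w ⟨i, h1, h2, rfl⟩ ⟨k, h3, h4, h5⟩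
  have := h.inj k (by omega) i (by omega) h5
  omega

/-- a run starting at the middle and avoiding a given vertex -/
theorem Ray.escape {q : ℕ → V} {M : ℕ} (h : Ray G q M) {s n : ℕ} (h1 : n ≤ s) (h2 : s + n ≤ M)
    {z : V} (hz : z ≠ q s) :
    ∃ e ≤ M, ∃ S : Set V, S ⊆ Seg q 0 M ∧ z ∉ S ∧ PB G (q s) (q e) (n + 1) S := by
  by_cases hc : z ∈ Seg q s (s + n)
  · refine ⟨s - n, by omega, Seg q (s - n) s, Seg.mono (by omega) (by omega), ?_,
      ((h.run' (a := s - n) (b := s) (by omega) (by omega)).rev).cast (by omega)⟩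
    rintro ⟨i, h3, h4, h5⟩
    obtain ⟨k, h6, h7, h8⟩ := hc
    have := h.inj i (by omega) k (by omega) (h5.trans h8.symm)
    have e : i = s := by omega
    exact hz (by rw [← h5, e])
  · exact ⟨s + n, h2, Seg q s (s + n), Seg.mono (by omega) h2, hc, h.run s n h2⟩

theorem per_mod {κ : Type} {c : ℕ → κ} {M k : ℕ} (hk : 0 < k)
    (hp : ∀ r, r + k ≤ M → c r = c (r + k)) : ∀ r ≤ M, c r = c (r % k) := by
  intro r
  induction r using Nat.strong_induction_on with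
  | _ r ih =>
    intro hr
    rcases Nat.lt_or_ge r k with h | h
    · rw [Nat.mod_eq_of_lt h]
    · obtain ⟨r', rfl⟩ := Nat.exists_eq_add_of_le' h
      rw [← hp r' hr, ih r' (by omega) (by omega), Nat.add_mod_right]

theorem per_const {κ : Type} {c : ℕ → κ} {M k a : ℕ} (hk : 0 < k)
    (hp : ∀ r, r + k ≤ M → c r = c (r + k)) (ha : a + k ≤ M + 1)
    (hc : ∀ e, a ≤ e → e + 1 < a + k → c e = c (e + 1)) : ∀ r ≤ M, c r = c a := by
  have h1 : ∀ i, i < k → c (a + i) = c a := by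
    intro i
    induction i with
    | zero => intro _; rfl
    | succ i ih => intro hi; rw [← ih (by omega)]; exact (hc (a + i) (by omega) (by omega)).symm
  intro r hr
  have h2 : (a + (r + (k - a % k)) % k) % k = r % k := by
    have := Nat.mod_lt a hk
    rw [Nat.add_mod_mod]
    have e : a + (r + (k - a % k)) = r + k * (a / k + 1) := by
      have := Nat.div_add_mod a k
      rw [Nat.mul_add, Nat.mul_one]; omega
    rw [e, Nat.add_mul_mod_self_left]
  have h3 := Nat.mod_lt (r + (k - a % k)) hk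
  rw [per_mod hk hp r hr, ← h2, ← per_mod hk hp _ (by omega), h1 _ h3]

/-- the shift lemma -/
theorem shift {κ : Type} {q : ℕ → V} {M m : ℕ} (h : Ray G q M) (hm : 3 ≤ m) (hM : 5 * m ≤ M)
    (c : ℕ → κ) (Z : V → Prop) (h0 : Z (q 0))
    (h1 : ∀ z, Z z → ∀ r ≤ M, ∀ e ≤ M, PB G (q r) (q e) m (insert z (Seg q 0 M)) → c r = c e)
    (h2 : ∀ s < M, c s ≠ c (s + 1) → ∃ z, Z z ∧ G.Adj (q s) z ∧ G.Adj (q (s + 1)) z) :
    ∀ r ≤ M, c r = c 0 := by
  obtain ⟨k, rfl⟩ : ∃ k, m = k + 1 := ⟨m - 1, by omega⟩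
  have hk : 0 < k := by omega
  have sub : ∀ {z : V} {a b : ℕ}, b ≤ M → Seg q a b ⊆ insert z (Seg q 0 M) :=
    fun hb => (Seg.mono (Nat.zero_le _) hb).trans (Set.subset_insert _ _)
  have hp : ∀ r, r + k ≤ M → c r = c (r + k) := fun r hr =>
    h1 _ h0 r (by omega) _ hr ((h.run r k hr).mono (sub hr))
  have key : ∀ s < M, c s = c (s + 1) := by
    intro s0 hs0
    by_contra hne0
    obtain ⟨s, hs1, hs2, hne⟩ : ∃ s, 2 * k ≤ s ∧ s < 3 * k ∧ c s ≠ c (s + 1) := by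
      have := Nat.mod_lt s0 hk
      refine ⟨s0 % k + k * 2, by omega, by omega, ?_⟩
      rw [per_mod hk hp (s0 % k + k * 2) (by omega), per_mod hk hp (s0 % k + k * 2 + 1) (by omega)]
      rw [per_mod hk hp s0 (by omega), per_mod hk hp (s0 + 1) (by omega)] at hne0
      have e : (s0 % k + k * 2 + 1) % k = (s0 + 1) % k := by
        rw [Nat.add_right_comm, Nat.add_mul_mod_self_left, Nat.mod_add_mod]
      rw [e, Nat.add_mul_mod_self_left, Nat.mod_mod]
      exact hne0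
    have fin : ∀ a, a + k ≤ M + 1 → (∀ e, a ≤ e → e + 1 < a + k → c e = c (e + 1)) → False :=
      fun a ha hc => hne ((per_const hk hp ha hc s (by omega)).trans
        (per_const hk hp ha hc (s + 1) (by omega)).symm)
    obtain ⟨z, hz, a1, a2⟩ := h2 s (by omega) hne
    by_cases hin : z ∈ Seg q (s + 1 - k) (s + k)
    · obtain ⟨p, hp1, hp2, rfl⟩ := hin
      have n1 : p ≠ s := by rintro rfl; exact a1.ne rfl
      have n2 : p ≠ s + 1 := by rintro rfl; exact a2.ne rfl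
      rcases Nat.lt_or_ge s p with hsp | hsp
      · refine fin p (by omega) fun e he1 he2 => ?_
        have p1 := (h.run' (a := s + (e + 1 - p) + 1 - k) (b := s) (by omega) (by omega)).join
          (h.run' (a := p) (b := e + 1) (by omega) (by omega)) a1 (h.disj (by omega) (by omega))
        have p2 := (h.run' (a := s + (e + 1 - p) + 1 - k) (b := s + 1) (by omega) (by omega)).join
          (h.run' (a := p) (b := e) (by omega) (by omega)) a2 (h.disj (by omega) (by omega))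
        have e1 := h1 _ h0 _ (by omega) _ (by omega) ((p1.cast (by omega)).mono
          (Set.union_subset (sub (by omega)) (sub (by omega))))
        have e2 := h1 _ h0 _ (by omega) _ (by omega) ((p2.cast (by omega)).mono
          (Set.union_subset (sub (by omega)) (sub (by omega))))
        exact e2.symm.trans e1
      · refine fin (p + 1 - k) (by omega) fun e he1 he2 => ?_
        have p1 := (h.run' (a := e) (b := p) (by omega) (by omega)).join
          (h.run' (a := s + 1) (b := s + k - (p - e)) (by omega) (by omega)) a2.symm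
          (h.disj (by omega) (by omega))
        have p2 := (h.run' (a := e + 1) (b := p) (by omega) (by omega)).join
          (h.run' (a := s) (b := s + k - (p - e)) (by omega) (by omega)) a1.symm
          (h.disj (by omega) (by omega))
        have e1 := h1 _ h0 _ (by omega) _ (by omega) ((p1.cast (by omega)).mono
          (Set.union_subset (sub (by omega)) (sub (by omega))))
        have e2 := h1 _ h0 _ (by omega) _ (by omega) ((p2.cast (by omega)).mono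
          (Set.union_subset (sub (by omega)) (sub (by omega))))
        exact e1.trans e2.symm
    · refine fin (s + 1) (by omega) fun e he1 he2 => ?_
      have p1 := ((h.run' (a := e + 1 - k) (b := s) (by omega) (by omega)).snoc a1
        (fun hh => hin (Seg.mono (by omega) (by omega) hh))).join
        (h.run' (a := s + 1) (b := e) (by omega) (by omega)) a2.symm (by
          rintro w (rfl | hw) hw'
          · exact hin (Seg.mono (by omega) (by omega) hw')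
          · exact h.disj (by omega) (by omega) w hw hw')
      have e1 := h1 _ hz _ (by omega) _ (by omega) ((p1.cast (by omega)).mono
        (Set.union_subset (Set.insert_subset_insert (Seg.mono (Nat.zero_le _) (by omega)))
          (sub (by omega))))
      have e2 := hp (e + 1 - k) (by omega)
      rw [show e + 1 - k + k = e + 1 by omega] at e2
      exact e1.symm.trans e2
  intro r
  induction r with
  | zero => intro _; rfl
  | succ r ih => intro hr; rw [← key r (by omega), ih (by omega)]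

end Pool.Agent.Work.MP_193ce1_co.Q
end

-- merged part: Pool.Agent.Work.MP_193ce1_co.Q.Cases
section
namespace Pool.Agent.Work.MP_193ce1_co.Q

variable {V : Type} {G : SimpleGraph V}

/-- no path with `t` vertices from a neighbour of `u` to a neighbour of `v` avoiding `u`, `v` -/
def NP (G : SimpleGraph V) (u v : V) (t : ℕ) : Prop :=
  ∀ x y S, PB G x y t S → u ∉ S → v ∉ S → G.Adj u x → G.Adj v y → False

theorem NP.symm {u v : V} {t : ℕ} (h : NP G u v t) : NP G v u t :=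
  fun x y S p h1 h2 h3 h4 => h y x S p.rev h2 h1 h4 h3

theorem Ray.partner {q : ℕ → V} {M m : ℕ} (h : Ray G q M) (hm : 1 ≤ m) (hM : 2 * m ≤ M) {r : ℕ}
    (hr : r ≤ M) (z : V) : ∃ e ≤ M, PB G (q r) (q e) m (insert z (Seg q 0 M)) := by
  have sub : ∀ {a b : ℕ}, b ≤ M → Seg q a b ⊆ insert z (Seg q 0 M) :=
    fun hb => (Seg.mono (Nat.zero_le _) hb).trans (Set.subset_insert _ _)
  rcases Nat.lt_or_ge r m with h1 | h1
  · exact ⟨r + (m - 1), by omega,
      ((h.run r (m - 1) (by omega)).cast (by omega)).mono (sub (by omega))⟩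
  · exact ⟨r - (m - 1), by omega,
      ((h.run' (a := r - (m - 1)) (b := r) (by omega) hr).rev.cast (by omega)).mono (sub hr)⟩

theorem mem_seg {q : ℕ → V} {M i : ℕ} (hi : i ≤ M) : q i ∈ Seg q 0 M := ⟨i, Nat.zero_le _, hi, rfl⟩

theorem case1 (h3 : ∀ x y : V, x ≠ y → ∃ z, G.Adj x z ∧ G.Adj y z) {u v : V} {t : ℕ}
    (np : NP G u v t) (ht : 5 ≤ t) {q : ℕ → V} {M : ℕ} (h : Ray G q M) (hM : 5 * t ≤ M)
    (hu : u ∉ Seg q 0 M) (hv : v ∉ Seg q 0 M)
    (hA : ∀ w ∈ Seg q 0 M, ¬ G.Adj u w) (hD : ∀ w ∈ Seg q 0 M, ¬ G.Adj v w)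
    (hw : ∀ b, G.Adj u b → G.Adj v b → ∃ w, w ≠ u ∧ w ≠ v ∧ w ≠ b ∧ ¬ G.Adj b w) : False := by
  obtain ⟨m, rfl⟩ : ∃ m, t = m + 2 := ⟨t - 2, by omega⟩
  let Z : V → Prop := fun z => z ≠ u ∧ z ≠ v ∧ ¬ G.Adj u z ∧ ¬ G.Adj v z
  have z0 : Z (q 0) := ⟨fun e => hu (e ▸ mem_seg (Nat.zero_le _)),
    fun e => hv (e ▸ mem_seg (Nat.zero_le _)), hA _ (mem_seg (Nat.zero_le _)),
    hD _ (mem_seg (Nat.zero_le _))⟩
  have key : ∀ z, Z z → ∀ r ≤ M, ∀ e ≤ M, PB G (q r) (q e) m (insert z (Seg q 0 M)) →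
      ∀ a d, G.Adj (q r) a → G.Adj u a → G.Adj (q e) d → G.Adj v d → a = d := by
    intro z hz r hr e he p a d a1 a2 d1 d2
    by_contra hne
    refine np a d _ ((p.cons a1 ?_).snoc d1 ?_) ?_ ?_ a2 d2
    · rintro (rfl | hh)
      exacts [hz.2.2.1 a2, hA _ hh a2]
    · rintro (rfl | rfl | hh)
      exacts [hne rfl, hz.2.2.2 d2, hD _ hh d2]
    · rintro (rfl | rfl | rfl | hh)
      exacts [hA _ (mem_seg he) d1.symm, a2.ne rfl, hz.1 rfl, hu hh]
    · rintro (rfl | rfl | rfl | hh)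
      exacts [d2.ne rfl, hD _ (mem_seg hr) a1.symm, hz.2.1 rfl, hv hh]
  have ea : ∀ r, ∃ a, r ≤ M → G.Adj (q r) a ∧ G.Adj u a := fun r => by
    by_cases hr : r ≤ M
    · obtain ⟨a, ha⟩ := h3 (q r) u (fun e => hu (e ▸ mem_seg hr))
      exact ⟨a, fun _ => ha⟩
    · exact ⟨u, fun hh => absurd hh hr⟩
  have ed : ∀ r ≤ M, ∃ d, G.Adj (q r) d ∧ G.Adj v d := fun r hr =>
    h3 (q r) v (fun e => hv (e ▸ mem_seg hr))
  choose c hc using ea
  have col : ∀ z, Z z → ∀ r ≤ M, ∀ e ≤ M, PB G (q r) (q e) m (insert z (Seg q 0 M)) →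
      c r = c e ∧ G.Adj v (c r) := by
    intro z hz r hr e he p
    obtain ⟨d, d1, d2⟩ := ed e he
    have e1 := key z hz r hr e he p _ d (hc r hr).1 (hc r hr).2 d1 d2
    have e2 : G.Adj v (c r) := e1 ▸ d2
    exact ⟨(key z hz e he r hr p.rev _ _ (hc e he).1 (hc e he).2 (hc r hr).1 e2).symm, e2⟩
  have uniq : ∀ r ≤ M, ∀ w, G.Adj (q r) w → (G.Adj u w ∨ G.Adj v w) → w = c r := by
    intro r hr w hw1 hw2
    obtain ⟨e, he, p⟩ := h.partner (m := m) (by omega) (by omega) hr (q 0)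
    rcases hw2 with hw2 | hw2
    · obtain ⟨d, d1, d2⟩ := ed e he
      exact (key _ z0 r hr e he p w d hw1 hw2 d1 d2).trans
        (key _ z0 r hr e he p _ d (hc r hr).1 (hc r hr).2 d1 d2).symm
    · exact (key _ z0 e he r hr p.rev _ w (hc e he).1 (hc e he).2 hw1 hw2).symm.trans
        (col _ z0 r hr e he p).1.symm
  have const := shift (m := m) h (by omega) (by omega) c Z z0
    (fun z hz r hr e he p => (col z hz r hr e he p).1) (by
      intro s hs hne
      obtain ⟨z, z1, z2⟩ := h3 _ _ (h.adj s hs).ne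
      have nz : ¬ (G.Adj u z ∨ G.Adj v z) := fun hh =>
        hne ((uniq s (by omega) z z1 hh).symm.trans (uniq (s + 1) (by omega) z z2 hh))
      refine ⟨z, ⟨?_, ?_, fun hh => nz (Or.inl hh), fun hh => nz (Or.inr hh)⟩, z1, z2⟩
      · rintro rfl; exact hA _ (mem_seg (by omega)) z1.symm
      · rintro rfl; exact hD _ (mem_seg (by omega)) z1.symm)
  have bA : G.Adj u (c 0) := (hc 0 (Nat.zero_le _)).2
  have bD : G.Adj v (c 0) := by
    obtain ⟨e, he, p⟩ := h.partner (m := m) (by omega) (by omega) (Nat.zero_le M) (q 0)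
    exact (col _ z0 0 (Nat.zero_le _) e he p).2
  have bY : ∀ r ≤ M, G.Adj (q r) (c 0) := fun r hr => const r hr ▸ (hc r hr).1
  obtain ⟨w, wu, wv, wb, nw⟩ := hw _ bA bD
  have wY : w ∉ Seg q 0 M := by
    rintro ⟨i, -, hi, rfl⟩; exact nw (bY i hi).symm
  have hs : m + 2 ≤ M := by omega
  obtain ⟨z, z1, z2⟩ := h3 w (q (m + 2)) (fun e => wY (e ▸ mem_seg hs))
  have zb : z ≠ c 0 := by rintro rfl; exact nw z1.symm
  have nz : ¬ (G.Adj u z ∨ G.Adj v z) := fun hh => zb ((uniq _ hs z z2 hh).trans (const _ hs))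
  have zu : z ≠ u := by rintro rfl; exact hA _ (mem_seg hs) z2.symm
  have zv : z ≠ v := by rintro rfl; exact hD _ (mem_seg hs) z2.symm
  have core : ∀ n ≤ m, ∃ S : Set V, PB G w (c 0) (n + 4) S ∧ u ∉ S ∧ v ∉ S ∧
      ∀ a, G.Adj u a → G.Adj w a → a ∉ S := by
    intro n hn
    obtain ⟨e, he, S, hS, hzS, p⟩ := h.escape (s := m + 2) (n := n) (by omega) (by omega) z2.ne.symm
    refine ⟨_, ((p.cons z2 hzS).cons z1.symm ?_).snoc (bY e he) ?_, ?_, ?_, ?_⟩
    · rintro (rfl | hh)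
      exacts [z1.ne rfl, wY (hS hh)]
    · rintro (hh | hh | hh)
      exacts [wb hh.symm, zb hh.symm, hA _ (hS hh) bA]
    · rintro (hh | hh | hh | hh)
      exacts [bA.ne hh, wu hh.symm, zu hh.symm, hu (hS hh)]
    · rintro (hh | hh | hh | hh)
      exacts [bD.ne hh, wv hh.symm, zv hh.symm, hv (hS hh)]
    · rintro a a1 a2 (rfl | rfl | rfl | hh)
      exacts [nw a2.symm, a2.ne rfl, nz (Or.inl a1), hA _ (hS hh) a1]
  by_cases wA : G.Adj u w
  · obtain ⟨S, p, h1, h2, -⟩ := core (m - 2) (by omega)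
    exact np _ _ S (p.cast (by omega)) h1 h2 wA bD
  by_cases wD : G.Adj v w
  · obtain ⟨S, p, h1, h2, -⟩ := core (m - 2) (by omega)
    exact np _ _ S (p.rev.cast (by omega)) h1 h2 bA wD
  obtain ⟨S, p, h1, h2, h4⟩ := core (m - 3) (by omega)
  obtain ⟨a, a1, a2⟩ := h3 w u wu
  refine np _ _ _ ((p.cons a1 (h4 a a2 a1)).cast (by omega)) ?_ ?_ a2 bD
  · rintro (hh | hh)
    exacts [a2.ne hh, h1 hh]
  · rintro (rfl | hh)
    exacts [wD a1.symm, h2 hh]

theorem case2 (h3 : ∀ x y : V, x ≠ y → ∃ z, G.Adj x z ∧ G.Adj y z) {u v : V} {t : ℕ}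
    (np : NP G u v t) (ht : 5 ≤ t) {q : ℕ → V} {M : ℕ} (h : Ray G q M) (hM : 5 * t ≤ M)
    (hu : u ∉ Seg q 0 M) (hv : v ∉ Seg q 0 M) (hD : ∀ w ∈ Seg q 0 M, ¬ G.Adj v w)
    {r0 : ℕ} (hr0 : r0 ≤ M) (hA : G.Adj u (q r0))
    {w : V} (wu : w ≠ u) (wv : w ≠ v) (wA : ¬ G.Adj u w) : False := by
  obtain ⟨m, rfl⟩ : ∃ m, t = m + 1 := ⟨t - 1, by omega⟩
  let Z : V → Prop := fun z => z ≠ u ∧ z ≠ v ∧ ¬ G.Adj v z
  have z0 : Z (q 0) := ⟨fun e => hu (e ▸ mem_seg (Nat.zero_le _)),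
    fun e => hv (e ▸ mem_seg (Nat.zero_le _)), hD _ (mem_seg (Nat.zero_le _))⟩
  have key : ∀ z, Z z → ∀ r ≤ M, ∀ e ≤ M, PB G (q r) (q e) m (insert z (Seg q 0 M)) →
      G.Adj u (q r) → ∀ d, G.Adj (q e) d → G.Adj v d → d = u := by
    intro z hz r hr e he p a d d1 d2
    by_contra hne
    refine np _ d _ (p.snoc d1 ?_) ?_ ?_ a d2
    · rintro (rfl | hh)
      exacts [hz.2.2 d2, hD _ hh d2]
    · rintro (rfl | rfl | hh)
      exacts [hne rfl, hz.1 rfl, hu hh]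
    · rintro (rfl | rfl | hh)
      exacts [d2.ne rfl, hz.2.1 rfl, hv hh]
  have col : ∀ z, Z z → ∀ r ≤ M, ∀ e ≤ M, PB G (q r) (q e) m (insert z (Seg q 0 M)) →
      G.Adj u (q r) → G.Adj u (q e) := by
    intro z hz r hr e he p a
    obtain ⟨d, d1, d2⟩ := h3 (q e) v (fun e' => hv (e' ▸ mem_seg he))
    have := key z hz r hr e he p a d d1 d2
    subst this
    exact d1.symm
  have only : ∀ r ≤ M, G.Adj u (q r) → ∀ d, G.Adj (q r) d → G.Adj v d → d = u := by
    intro r hr a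
    obtain ⟨e, he, p⟩ := h.partner (m := m) (by omega) (by omega) hr (q 0)
    exact key _ z0 e he r hr p.rev (col _ z0 r hr e he p a)
  have const := shift (m := m) h (by omega) (by omega) (fun r => G.Adj u (q r)) Z z0
    (fun z hz r hr e he p => propext ⟨col z hz r hr e he p, col z hz e he r hr p.rev⟩) (by
      intro s hs hne
      obtain ⟨z, z1, z2⟩ := h3 _ _ (h.adj s hs).ne
      have zu : z ≠ u := by
        rintro rfl; exact hne (propext ⟨fun _ => z2.symm, fun _ => z1.symm⟩)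
      refine ⟨z, ⟨zu, ?_, fun hh => ?_⟩, z1, z2⟩
      · rintro rfl; exact hD _ (mem_seg (by omega)) z1.symm
      · by_cases a : G.Adj u (q s)
        · exact zu (only s (by omega) a z z1 hh)
        · by_cases a' : G.Adj u (q (s + 1))
          · exact zu (only (s + 1) (by omega) a' z z2 hh)
          · exact hne (propext ⟨fun x => absurd x a, fun x => absurd x a'⟩))
  have all : ∀ r ≤ M, G.Adj u (q r) := fun r hr => by
    have e1 : G.Adj u (q r) = G.Adj u (q r0) := (const r hr).trans (const r0 hr0).symm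
    rw [e1]; exact hA
  have wY : w ∉ Seg q 0 M := by
    rintro ⟨i, -, hi, rfl⟩; exact wA (all i hi)
  have hs : m ≤ M := by omega
  obtain ⟨z, z1, z2⟩ := h3 w (q m) (fun e => wY (e ▸ mem_seg hs))
  have zu : z ≠ u := by rintro rfl; exact wA z1.symm
  have zv : z ≠ v := by rintro rfl; exact hD _ (mem_seg hs) z2.symm
  have zD : ¬ G.Adj v z := fun hh => zu (only m hs (all m hs) z z2 hh)
  obtain ⟨d, d1, d2⟩ := h3 w v wv
  obtain ⟨e, he, S, hS, hzS, p⟩ := h.escape (s := m) (n := m - 3) (by omega) (by omega) z2.ne.symm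
  refine np _ d _ ((((p.rev.snoc z2 hzS).snoc z1.symm ?_).snoc d1 ?_).cast (by omega)) ?_ ?_
    (all e he) d2
  · rintro (rfl | hh)
    exacts [z1.ne rfl, wY (hS hh)]
  · rintro (rfl | rfl | hh)
    exacts [d1.ne rfl, zD d2, hD _ (hS hh) d2]
  · rintro (rfl | hh | hh | hh)
    exacts [wA d1.symm, wu hh.symm, zu hh.symm, hu (hS hh)]
  · rintro (hh | hh | hh | hh)
    exacts [d2.ne hh, wv hh.symm, zv hh.symm, hv (hS hh)]

theorem case3 (h3 : ∀ x y : V, x ≠ y → ∃ z, G.Adj x z ∧ G.Adj y z) {u v : V} {t : ℕ}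
    (np : NP G u v t) (ht : 5 ≤ t) {q : ℕ → V} {M : ℕ} (h : Ray G q M) (hM : 5 * t ≤ M)
    (hu : u ∉ Seg q 0 M) (hv : v ∉ Seg q 0 M)
    (hAD : ∀ r ≤ M, G.Adj u (q r) ∨ G.Adj v (q r))
    {r0 : ℕ} (hr0 : r0 ≤ M) (hA : G.Adj u (q r0)) {r1 : ℕ} (hr1 : r1 ≤ M) (hD : G.Adj v (q r1)) :
    False := by
  let Z : V → Prop := fun z => z ≠ u ∧ z ≠ v
  have z0 : Z (q 0) := ⟨fun e => hu (e ▸ mem_seg (Nat.zero_le _)),
    fun e => hv (e ▸ mem_seg (Nat.zero_le _))⟩
  have key : ∀ z, Z z → ∀ r e, PB G (q r) (q e) t (insert z (Seg q 0 M)) →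
      G.Adj u (q r) → ¬ G.Adj v (q e) := by
    intro z hz r e p a d
    refine np _ _ _ p ?_ ?_ a d
    · rintro (rfl | hh)
      exacts [hz.1 rfl, hu hh]
    · rintro (rfl | hh)
      exacts [hz.2 rfl, hv hh]
  have col : ∀ z, Z z → ∀ r, ∀ e ≤ M, PB G (q r) (q e) t (insert z (Seg q 0 M)) →
      G.Adj u (q r) → G.Adj u (q e) := fun z hz r e he p a =>
    (hAD e he).resolve_right (key z hz r e p a)
  have nb : ∀ r ≤ M, G.Adj u (q r) → ¬ G.Adj v (q r) := by
    intro r hr a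
    obtain ⟨e, he, p⟩ := h.partner (m := t) (by omega) (by omega) hr (q 0)
    exact key _ z0 e r p.rev (col _ z0 r e he p a)
  have const := shift (m := t) h (by omega) (by omega) (fun r => G.Adj u (q r)) Z z0
    (fun z hz r hr e he p => propext ⟨col z hz r e he p, col z hz e r hr p.rev⟩) (by
      intro s hs hne
      obtain ⟨z, z1, z2⟩ := h3 _ _ (h.adj s hs).ne
      refine ⟨z, ⟨?_, ?_⟩, z1, z2⟩
      · rintro rfl; exact hne (propext ⟨fun _ => z2.symm, fun _ => z1.symm⟩)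
      · rintro rfl
        exact hne (propext ⟨fun x => absurd z1.symm (nb s (by omega) x),
          fun x => absurd z2.symm (nb (s + 1) (by omega) x)⟩))
  have e1 : G.Adj u (q r1) = G.Adj u (q r0) := (const r1 hr1).trans (const r0 hr0).symm
  exact nb r1 hr1 (by rw [e1]; exact hA) hD

end Pool.Agent.Work.MP_193ce1_co.Q
end

-- merged part: Pool.Agent.Work.MP_193ce1_co.Q.Chain
section
namespace Pool.Agent.Work.MP_193ce1_co.Q

variable {V : Type} {G : SimpleGraph V}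

/-- the union of the blocks with index in `S` or `K` -/
def U (B : ℕ → Set V) (S K : Finset ℕ) : Set V := {w | ∃ i, (i ∈ S ∨ i ∈ K) ∧ w ∈ B i}

theorem hop2 {a x x' y : V} {n : ℕ} {R C C' : Set V} (p : PB G a x n R) (hy : y ∈ C) (hx : x' ∈ C')
    (h1 : ∀ w, w ∈ R → w ∈ C → False) (h2 : ∀ w, w ∈ R → w ∈ C' → False)
    (a1 : G.Adj x y) (a2 : G.Adj x' y) : PB G a x' (n + 2) (insert x' (R ∪ C)) := by
  refine ((p.snoc a1 (fun hh => h1 _ hh hy)).snoc a2.symm ?_).mono ?_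
  · rintro (rfl | hh)
    exacts [a2.ne rfl, h2 _ hh hx]
  · rintro w (rfl | rfl | hh)
    exacts [Or.inl rfl, Or.inr (Or.inr hy), Or.inr (Or.inl hh)]

theorem hop4 {a x x' y T y' : V} {n : ℕ} {R C C' : Set V} (p : PB G a x n R) (hy : y ∈ C)
    (hT : T ∈ C) (hy' : y' ∈ C) (hx : x' ∈ C') (hne : y ≠ y')
    (h1 : ∀ w, w ∈ R → w ∈ C → False) (h2 : ∀ w, w ∈ R → w ∈ C' → False)
    (h3 : ∀ w, w ∈ C → w ∈ C' → False)
    (a1 : G.Adj x y) (a2 : G.Adj T y) (a3 : G.Adj T y') (a4 : G.Adj x' y') :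
    PB G a x' (n + 4) (insert x' (R ∪ C)) := by
  refine ((((p.snoc a1 (fun hh => h1 _ hh hy)).snoc a2.symm ?_).snoc a3 ?_).snoc a4.symm ?_).mono ?_
  · rintro (rfl | hh)
    exacts [a2.ne rfl, h1 _ hh hT]
  · rintro (rfl | rfl | hh)
    exacts [a3.ne rfl, hne rfl, h1 _ hh hy']
  · rintro (rfl | rfl | rfl | hh)
    exacts [a4.ne rfl, h3 _ hT hx, h3 _ hy hx, h2 _ hh hx]
  · rintro w (rfl | rfl | rfl | rfl | hh)
    exacts [Or.inl rfl, Or.inr (Or.inr hy'), Or.inr (Or.inr hT), Or.inr (Or.inr hy),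
      Or.inr (Or.inl hh)]

theorem chain {u : V} {m : ℕ} {B : ℕ → Set V}
    (hB : ∀ i k, i ≠ k → ∀ w, w ∈ B i → w ∈ B k → False) {S2 K1 : Finset ℕ}
    (hSK : ∀ i, i ∈ S2 → i ∈ K1 → False) {a x T : ℕ → V} {Y : ℕ → ℕ → V} {y : ℕ → ℕ → ℕ}
    (st : ∀ l ∈ S2, a l ∈ B l ∧ x l ∈ B l ∧ G.Adj (a l) (x l) ∧ G.Adj u (a l))
    (hT : ∀ k ∈ K1, T k ∈ B k)
    (hy : ∀ l ∈ S2, ∀ k ∈ K1, y l k < m ∧ Y k (y l k) ∈ B k ∧ G.Adj (x l) (Y k (y l k)) ∧
      G.Adj (T k) (Y k (y l k))) :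
    ∀ e, 1 ≤ e → ∀ c ∈ S2, ∀ S ⊆ S2, ∀ K ⊆ K1, c ∉ S → m + e ≤ S.card → e ≤ K.card →
      (e = 1 → ∃ l ∈ S, ∃ k ∈ K, y l k = y c k) →
      ∃ a', G.Adj u a' ∧ PB G a' (x c) (2 * e + 2) (insert (x c) (U B S K)) := by
  intro e
  induction e using Nat.strong_induction_on with
  | _ e ih =>
    intro he c hc S hS K hK hcS hSc hKc hp
    have weak : ∀ e' < e, ∀ l ∈ S, ∀ k ∈ K,
        (e' = 1 → ∃ l' ∈ S.erase l, ∃ k' ∈ K.erase k, y l' k' = y l k') →
        ∃ a', G.Adj u a' ∧ PB G a' (x l) (2 * e' + 2) (B l ∪ U B (S.erase l) (K.erase k)) := by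
      intro e' he' l hl k hk hp'
      obtain ⟨s1, s2, s3, s4⟩ := st l (hS hl)
      rcases Nat.eq_zero_or_pos e' with rfl | h0
      · refine ⟨a l, s4, ((PB.single (a l)).snoc s3 (fun hh => s3.ne hh.symm)).mono ?_⟩
        rintro w (rfl | rfl)
        exacts [Or.inl s2, Or.inl s1]
      · obtain ⟨a', h1, h2⟩ := ih e' he' h0 l (hS hl) (S.erase l)
          ((Finset.erase_subset _ _).trans hS) (K.erase k) ((Finset.erase_subset _ _).trans hK)
          (Finset.notMem_erase _ _) (by rw [Finset.card_erase_of_mem hl]; omega)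
          (by rw [Finset.card_erase_of_mem hk]; omega) hp'
        refine ⟨a', h1, h2.mono ?_⟩
        rintro w (rfl | hh)
        exacts [Or.inl s2, Or.inr hh]
    have d1 : ∀ l ∈ S, ∀ k ∈ K, ∀ w, w ∈ B l ∪ U B (S.erase l) (K.erase k) → w ∈ B k → False := by
      rintro l hl k hk w (hw | ⟨i, hi | hi, hw⟩) hw'
      · exact hB l k (fun e => hSK l (hS hl) (e ▸ hK hk)) w hw hw'
      · exact hB i k (fun e => hSK i (hS (Finset.mem_of_mem_erase hi)) (e ▸ hK hk)) w hw hw'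
      · exact hB i k (Finset.ne_of_mem_erase hi) w hw hw'
    have d2 : ∀ l ∈ S, ∀ k ∈ K, ∀ w, w ∈ B l ∪ U B (S.erase l) (K.erase k) → w ∈ B c → False := by
      rintro l hl k hk w (hw | ⟨i, hi | hi, hw⟩) hw'
      · exact hB l c (fun e => hcS (e ▸ hl)) w hw hw'
      · exact hB i c (fun e => hcS (e ▸ Finset.mem_of_mem_erase hi)) w hw hw'
      · exact hB i c (fun e => hSK c hc (e ▸ hK (Finset.mem_of_mem_erase hi))) w hw hw'
    have sub : ∀ l ∈ S, ∀ k ∈ K, insert (x c) ((B l ∪ U B (S.erase l) (K.erase k)) ∪ B k) ⊆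
        insert (x c) (U B S K) := by
      intro l hl k hk
      refine Set.insert_subset_insert ?_
      rintro w ((hw | ⟨i, hi | hi, hw⟩) | hw)
      exacts [⟨l, Or.inl hl, hw⟩, ⟨i, Or.inl (Finset.mem_of_mem_erase hi), hw⟩,
        ⟨i, Or.inr (Finset.mem_of_mem_erase hi), hw⟩, ⟨k, Or.inr hk, hw⟩]
    have two : ∀ l ∈ S, ∀ k ∈ K, Y k (y l k) = Y k (y c k) →
        (e - 1 = 1 → ∃ l' ∈ S.erase l, ∃ k' ∈ K.erase k, y l' k' = y l k') →
        ∃ a', G.Adj u a' ∧ PB G a' (x c) (2 * e + 2) (insert (x c) (U B S K)) := by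
      intro l hl k hk hE hp'
      obtain ⟨a', h1, h2⟩ := weak (e - 1) (by omega) l hl k hk hp'
      obtain ⟨-, y2, y3, -⟩ := hy l (hS hl) k (hK hk)
      obtain ⟨-, -, y3', -⟩ := hy c hc k (hK hk)
      exact ⟨a', h1, ((hop2 h2 y2 (st c hc).2.1 (d1 l hl k hk) (d2 l hl k hk) y3
        (hE ▸ y3')).cast (by omega)).mono (sub l hl k hk)⟩
    rcases Nat.lt_or_ge e 2 with h2 | h2
    · obtain ⟨l, hl, k, hk, hE⟩ := hp (by omega)
      exact two l hl k hk (by rw [hE]) (by omega)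
    · obtain ⟨k1, hk1, k2, hk2, hne⟩ := Finset.one_lt_card.1 (show 1 < K.card by omega)
      obtain ⟨l, hl, l', hl', hll, hE⟩ := Finset.exists_ne_map_eq_of_card_lt_of_maps_to
        (s := S) (t := Finset.range m) (f := fun l => y l k2) (by rw [Finset.card_range]; omega)
        (fun l hl => Finset.mem_coe.2 (Finset.mem_range.2 (hy l (hS hl) k2 (hK hk2)).1))
      have par : ∃ l'' ∈ S.erase l, ∃ k' ∈ K.erase k1, y l'' k' = y l k' :=
        ⟨l', Finset.mem_erase.2 ⟨hll.symm, hl'⟩, k2, Finset.mem_erase.2 ⟨hne.symm, hk2⟩, hE.symm⟩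
      by_cases hE' : Y k1 (y l k1) = Y k1 (y c k1)
      · exact two l hl k1 hk1 hE' (fun _ => par)
      · obtain ⟨a', h1, h3⟩ := weak (e - 2) (by omega) l hl k1 hk1 (fun _ => par)
        obtain ⟨-, y2, y3, y4⟩ := hy l (hS hl) k1 (hK hk1)
        obtain ⟨-, y2', y3', y4'⟩ := hy c hc k1 (hK hk1)
        exact ⟨a', h1, ((hop4 h3 y2 (hT k1 (hK hk1)) y2' (st c hc).2.1 hE' (d1 l hl k1 hk1)
          (d2 l hl k1 hk1) (hB k1 c (fun e => hSK c hc (e ▸ hK hk1))) y3 y4 y4' y3').cast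
          (by omega)).mono (sub l hl k1 hk1)⟩

open Classical in
theorem card_avoid {B : ℕ → Set V} (hB : ∀ i k, i ≠ k → ∀ w, w ∈ B i → w ∈ B k → False)
    (S : Finset ℕ) (w : V) : ∃ S' ⊆ S, S.card ≤ S'.card + 1 ∧ ∀ i ∈ S', w ∉ B i := by
  refine ⟨S.filter (fun i => ¬ w ∈ B i), Finset.filter_subset _ _, ?_,
    fun i hi => (Finset.mem_filter.1 hi).2⟩
  have h1 := Finset.card_filter_add_card_filter_not (s := S) (fun i => w ∈ B i)
  have h2 : (S.filter (fun i => w ∈ B i)).card ≤ 1 := by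
    refine Finset.card_le_one.2 fun i hi k hk => ?_
    by_contra hne
    exact hB i k hne w (Finset.mem_filter.1 hi).2 (Finset.mem_filter.1 hk).2
  omega

open Classical in
theorem case4 (h3 : ∀ x y : V, x ≠ y → ∃ z, G.Adj x z ∧ G.Adj y z) {u v : V} {t : ℕ}
    (np : NP G u v t) (ht : 8 ≤ t) {B : ℕ → Set V}
    (hB : ∀ i k, i ≠ k → ∀ w, w ∈ B i → w ∈ B k → False) (hu : ∀ i, u ∉ B i) (hv : ∀ i, v ∉ B i)
    {S0 K0 : Finset ℕ} (hSK : ∀ i, i ∈ S0 → i ∈ K0 → False) (hS : 5 * t ≤ S0.card)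
    (hK : K0.card = 3 * t)
    (st : ∀ l ∈ S0, ∃ a x, a ∈ B l ∧ x ∈ B l ∧ G.Adj a x ∧ G.Adj u a ∧ ¬ G.Adj u x ∧ ¬ G.Adj v x)
    (ry : ∀ k ∈ K0, ∃ Y, Ray G Y (t - 4) ∧ Seg Y 0 (t - 4) ⊆ B k ∧ G.Adj v (Y 0)) : False := by
  obtain ⟨m, rfl⟩ : ∃ m, t = m + 4 := ⟨t - 4, by omega⟩
  rw [Nat.add_sub_cancel] at ry
  have : Nonempty V := ⟨u⟩
  choose! a x sa sx sax sua sux svx using st
  choose! Y yr ys yv using ry
  have down : ∀ k ∈ K0, PB G (Y k m) (Y k 0) (m + 1) (Seg (Y k) 0 m) := fun k hk =>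
    ((yr k hk).run' (Nat.zero_le m) le_rfl).rev
  have hT : ∀ k ∈ K0, Y k m ∈ B k := fun k hk => ys k hk (mem_seg le_rfl)
  have nlk : ∀ l ∈ S0, ∀ k ∈ K0, l ≠ k := fun l hl k hk e => hSK l hl (e ▸ hk)
  have con : ∀ l ∈ S0, ∀ k ∈ K0, ¬ G.Adj (a l) (Y k m) →
      ∃ n, n < m ∧ Y k n ∈ B k ∧ G.Adj (x l) (Y k n) ∧ G.Adj (Y k m) (Y k n) := by
    intro l hl k hk hn
    obtain ⟨z, z1, z2⟩ := h3 (x l) (Y k m)
      (fun e => hB l k (nlk l hl k hk) _ (sx l hl) (e ▸ hT k hk))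
    by_cases hz : z ∈ Seg (Y k) 0 m
    · obtain ⟨n, -, h1, rfl⟩ := hz
      refine ⟨n, lt_of_le_of_ne h1 ?_, ys k hk (mem_seg h1), z1, z2⟩
      rintro rfl; exact z2.ne rfl
    · exfalso
      refine np _ _ _ ((((down k hk).cons z2 hz).cons z1.symm ?_).cons (sax l hl).symm ?_) ?_ ?_
        (sua l hl) (yv k hk)
      · rintro (hh | hh)
        exacts [z1.ne hh, hB l k (nlk l hl k hk) _ (sx l hl) (ys k hk hh)]
      · rintro (hh | hh | hh)
        exacts [(sax l hl).ne hh, hn (hh ▸ z2.symm),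
          hB l k (nlk l hl k hk) _ (sa l hl) (ys k hk hh)]
      · rintro (hh | hh | hh | hh)
        exacts [hu l (hh ▸ sa l hl), hu l (hh ▸ sx l hl), sux l hl (hh ▸ z1.symm),
          hu k (ys k hk hh)]
      · rintro (hh | hh | hh | hh)
        exacts [hv l (hh ▸ sa l hl), hv l (hh ▸ sx l hl), svx l hl (hh ▸ z1.symm),
          hv k (ys k hk hh)]
  have star : ∀ l ∈ S0, ∀ l' ∈ S0, ∀ k ∈ K0, ∀ k' ∈ K0, k ≠ k' → G.Adj (a l) (Y k m) →
      G.Adj (a l') (Y k m) → G.Adj (a l') (Y k' m) → l = l' := by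
    intro l hl l' hl' k hk k' hk' hkk e1 e2 e3
    by_contra hll
    refine np _ _ _ ((((down k' hk').cons e3.symm ?_).cons e2 ?_).cons e1.symm ?_) ?_ ?_
      (sua l hl) (yv k' hk')
    · exact fun hh => hB l' k' (nlk l' hl' k' hk') _ (sa l' hl') (ys k' hk' hh)
    · rintro (hh | hh)
      exacts [e2.ne hh.symm, hB k k' hkk _ (hT k hk) (ys k' hk' hh)]
    · rintro (hh | hh | hh)
      exacts [e1.ne hh, hB l l' hll _ (sa l hl) (hh ▸ sa l' hl'),
        hB l k' (nlk l hl k' hk') _ (sa l hl) (ys k' hk' hh)]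
    · rintro (hh | hh | hh | hh)
      exacts [hu l (hh ▸ sa l hl), hu k (hh ▸ hT k hk), hu l' (hh ▸ sa l' hl'),
        hu k' (ys k' hk' hh)]
    · rintro (hh | hh | hh | hh)
      exacts [hv l (hh ▸ sa l hl), hv k (hh ▸ hT k hk), hv l' (hh ▸ sa l' hl'),
        hv k' (ys k' hk' hh)]
  have ef : ∀ l, ∃ f, (∃ k ∈ K0, G.Adj (a l) (Y k m)) → f ∈ K0 ∧ G.Adj (a l) (Y f m) := by
    intro l
    by_cases h : ∃ k ∈ K0, G.Adj (a l) (Y k m)
    · obtain ⟨k, hk⟩ := h
      exact ⟨k, fun _ => hk⟩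
    · exact ⟨0, fun hh => absurd hh h⟩
  choose f hf using ef
  let multi : ℕ → Prop := fun l => ∃ k ∈ K0, G.Adj (a l) (Y k m) ∧ k ≠ f l
  have c1 : (S0.filter multi).card ≤ K0.card := by
    refine Finset.card_le_card_of_injOn f ?_ ?_
    · intro l hl
      obtain ⟨-, k, hk, h1, -⟩ := Finset.mem_filter.1 (Finset.mem_coe.1 hl)
      exact Finset.mem_coe.2 (hf l ⟨k, hk, h1⟩).1
    · intro l hl l' hl' e
      obtain ⟨h0, k, hk, h1, -⟩ := Finset.mem_filter.1 (Finset.mem_coe.1 hl)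
      obtain ⟨h0', k', hk', h1', h2'⟩ := Finset.mem_filter.1 (Finset.mem_coe.1 hl')
      have g := hf l ⟨k, hk, h1⟩
      have g' := hf l' ⟨k', hk', h1'⟩
      exact star l h0 l' h0' (f l') g'.1 k' hk' h2'.symm (e ▸ g.2) g'.2 h1'
  have c2 := Finset.card_filter_add_card_filter_not (s := S0) multi
  obtain ⟨S2, hS2, cS2⟩ := Finset.exists_subset_card_eq
    (s := S0.filter (fun l => ¬ multi l)) (n := 2 * (m + 4)) (by omega)
  have hS20 : ∀ l ∈ S2, l ∈ S0 := fun l hl => (Finset.mem_filter.1 (hS2 hl)).1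
  have c3 : m + 4 ≤ (K0 \ S2.image f).card := by
    have h1 := Finset.le_card_sdiff (S2.image f) K0
    have h2 := Finset.card_image_le (s := S2) (f := f)
    omega
  have hK10 : ∀ k ∈ K0 \ S2.image f, k ∈ K0 := fun k hk => (Finset.mem_sdiff.1 hk).1
  have con' : ∀ l ∈ S2, ∀ k ∈ K0 \ S2.image f,
      ∃ n, n < m ∧ Y k n ∈ B k ∧ G.Adj (x l) (Y k n) ∧ G.Adj (Y k m) (Y k n) := by
    intro l hl k hk
    refine con l (hS20 l hl) k (hK10 k hk) fun hh => ?_
    refine (Finset.mem_filter.1 (hS2 hl)).2 ⟨k, hK10 k hk, hh, ?_⟩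
    rintro rfl
    exact (Finset.mem_sdiff.1 hk).2 (Finset.mem_image_of_mem f hl)
  choose! y hy using con'
  have ch := chain (G := G) (u := u) (m := m) hB (S2 := S2) (K1 := K0 \ S2.image f)
    (fun i h1 h2 => hSK i (hS20 i h1) (hK10 i h2)) (a := a) (x := x) (T := fun k => Y k m) (Y := Y)
    (y := y) (fun l hl => ⟨sa l (hS20 l hl), sx l (hS20 l hl), sax l (hS20 l hl), sua l (hS20 l hl)⟩)
    (fun k hk => hT k (hK10 k hk)) hy
  obtain ⟨c, hc⟩ := Finset.card_pos.1 (show 0 < S2.card by omega)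
  have hc0 := hS20 c hc
  obtain ⟨d, d1, d2⟩ := h3 (x c) v (fun e => hv c (e ▸ sx c hc0))
  obtain ⟨z, z1, z2⟩ := h3 (x c) d d1.ne
  obtain ⟨S3, s31, s32, s33⟩ := card_avoid hB (S2.erase c) d
  obtain ⟨S4, s41, s42, s43⟩ := card_avoid hB S3 z
  obtain ⟨K3, k31, k32, k33⟩ := card_avoid hB (K0 \ S2.image f) d
  obtain ⟨K4, k41, k42, k43⟩ := card_avoid hB K3 z
  rw [Finset.card_erase_of_mem hc] at s32
  obtain ⟨a', h1, p⟩ := ch ((m + 1) / 2) (by omega) c hc S4
    (s41.trans (s31.trans (Finset.erase_subset _ _))) K4 (k41.trans k31)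
    (fun hh => Finset.notMem_erase c S2 (s31 (s41 hh))) (by omega) (by omega) (by omega)
  have nd : d ∉ insert (x c) (U B S4 K4) := by
    rintro (hh | ⟨i, hi | hi, hh⟩)
    exacts [d1.ne hh.symm, s33 i (s41 hi) hh, k33 i (k41 hi) hh]
  have nz : z ∉ insert (x c) (U B S4 K4) := by
    rintro (hh | ⟨i, hi | hi, hh⟩)
    exacts [z1.ne hh.symm, s43 i hi hh, k43 i hi hh]
  have nu : u ∉ insert (x c) (U B S4 K4) := by
    rintro (hh | ⟨i, -, hh⟩)
    exacts [hu c (hh ▸ sx c hc0), hu i hh]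
  have nv : v ∉ insert (x c) (U B S4 K4) := by
    rintro (hh | ⟨i, -, hh⟩)
    exacts [hv c (hh ▸ sx c hc0), hv i hh]
  have du : u ≠ d := fun e => sux c hc0 (e ▸ d1.symm)
  rcases Nat.mod_two_eq_zero_or_one m with h2 | h2
  · refine np _ _ _ (((p.snoc z1 nz).snoc z2.symm ?_).cast (by omega)) ?_ ?_ h1 d2
    · rintro (hh | hh)
      exacts [z2.ne hh, nd hh]
    · rintro (hh | hh | hh)
      exacts [du hh, sux c hc0 (hh ▸ z1.symm), nu hh]
    · rintro (hh | hh | hh)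
      exacts [d2.ne hh, svx c hc0 (hh ▸ z1.symm), nv hh]
  · refine np _ _ _ ((p.snoc d1 nd).cast (by omega)) ?_ ?_ h1 d2
    · rintro (hh | hh)
      exacts [du hh, nu hh]
    · rintro (hh | hh)
      exacts [d2.ne hh, nv hh]

end Pool.Agent.Work.MP_193ce1_co.Q
end

-- merged part: Pool.Agent.Work.MP_193ce1_co.Q.Main
section
namespace Pool.Agent.Work.MP_193ce1_co.Q

variable {V : Type} {G : SimpleGraph V}

theorem ivt {c : ℕ → Prop} {M : ℕ} (h : ∀ i < M, (c i ↔ c (i + 1))) : ∀ r ≤ M, (c r ↔ c 0) := by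
  intro r
  induction r with
  | zero => intro _; rfl
  | succ r ih => intro hr; rw [← h r (by omega), ih (by omega)]

theorem Ray.sub {q : ℕ → V} {M m r : ℕ} (h : Ray G q M) (hM : 2 * m ≤ M) (hr : r ≤ M) :
    ∃ Y, Ray G Y m ∧ Seg Y 0 m ⊆ Seg q 0 M ∧ Y 0 = q r := by
  rcases Nat.lt_or_ge r m with h1 | h1
  · refine ⟨fun n => q (r + n), ⟨fun a ha b hb e => ?_, fun a ha => h.adj (r + a) (by omega)⟩, ?_, rfl⟩
    · have := h.inj _ (by omega) _ (by omega) e
      omega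
    · rintro w ⟨i, -, hi, rfl⟩
      exact mem_seg (by omega)
  · refine ⟨fun n => q (r - n), ⟨fun a ha b hb e => ?_, fun a ha => ?_⟩, ?_, rfl⟩
    · have := h.inj _ (by omega) _ (by omega) e
      omega
    · have := (h.adj (r - (a + 1)) (by omega)).symm
      rwa [show r - (a + 1) + 1 = r - a by omega] at this
    · rintro w ⟨i, -, hi, rfl⟩
      exact mem_seg (by omega)

theorem case4' (h3 : ∀ x y : V, x ≠ y → ∃ z, G.Adj x z ∧ G.Adj y z) {u v : V} {t : ℕ}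
    (np : NP G u v t) (ht : 8 ≤ t) {B : ℕ → Set V}
    (hB : ∀ i k, i ≠ k → ∀ w, w ∈ B i → w ∈ B k → False) (hu : ∀ i, u ∉ B i) (hv : ∀ i, v ∉ B i)
    {S1 : Finset ℕ} (hS : 5 * t ≤ S1.card)
    (st : ∀ l ∈ S1, ∃ a x, a ∈ B l ∧ x ∈ B l ∧ G.Adj a x ∧ G.Adj u a ∧ ¬ G.Adj u x ∧ ¬ G.Adj v x)
    (ry : ∀ k < 10 * t, ∃ Y, Ray G Y (t - 4) ∧ Seg Y 0 (t - 4) ⊆ B k ∧ G.Adj v (Y 0)) : False := by
  obtain ⟨S0, h1, h2⟩ := Finset.exists_subset_card_eq hS
  have h4 := Finset.le_card_sdiff S0 (Finset.range (10 * t))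
  rw [Finset.card_range] at h4
  obtain ⟨K0, h5, h6⟩ := Finset.exists_subset_card_eq
    (s := Finset.range (10 * t) \ S0) (n := 3 * t) (by omega)
  exact case4 h3 np ht hB hu hv (S0 := S0) (K0 := K0)
    (fun i hi hk => (Finset.mem_sdiff.1 (h5 hk)).2 hi) (by omega) h6 (fun l hl => st l (h1 hl))
    (fun k hk => ry k (Finset.mem_range.1 (Finset.mem_sdiff.1 (h5 hk)).1))

open Classical in
theorem core (h3 : ∀ x y : V, x ≠ y → ∃ z, G.Adj x z ∧ G.Adj y z) {P : ℕ → V} {L t : ℕ}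
    (hP : Ray G P (L + 1)) (ht : 8 ≤ t) (hL : 10 * t * (5 * t + 1) ≤ L)
    (np : NP G (P 0) (P (L + 1)) t) : False := by
  obtain ⟨N, hN⟩ : ∃ N, N = 5 * t + 1 := ⟨_, rfl⟩
  rw [← hN] at hL
  have bd : ∀ b < 10 * t, b * N + N ≤ L := fun b hb => by
    have := Nat.mul_le_mul_right N (show b + 1 ≤ 10 * t by omega)
    rw [Nat.add_mul, Nat.one_mul] at this
    omega
  have hL2 : 5 * t + 1 ≤ L := by have := bd 0 (by omega); omega
  have nu : ∀ {a b : ℕ}, 1 ≤ a → b ≤ L → P 0 ∉ Seg P a b := by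
    rintro a b ha hb ⟨i, h1, h2, h4⟩
    have := hP.inj _ (by omega) _ (by omega) h4
    omega
  have nv : ∀ {a b : ℕ}, b ≤ L → P (L + 1) ∉ Seg P a b := by
    rintro a b hb ⟨i, h1, h2, h4⟩
    have := hP.inj _ (by omega) _ (by omega) h4
    omega
  have ne : ∀ a ≤ L + 1, ∀ b ≤ L + 1, a ≠ b → P a ≠ P b := fun a ha b hb h e =>
    h (hP.inj a ha b hb e)
  have aA : G.Adj (P 0) (P 1) := hP.adj 0 (by omega)
  have aD : G.Adj (P (L + 1)) (P L) := (hP.adj L (by omega)).symm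
  have hw : ∀ b, G.Adj (P 0) b → G.Adj (P (L + 1)) b →
      ∃ w, w ≠ P 0 ∧ w ≠ P (L + 1) ∧ w ≠ b ∧ ¬ G.Adj b w := by
    intro b b1 b2
    by_cases hb : b ∈ Seg P 1 (t - 1)
    · have hb' : b ∉ Seg P (L + 2 - t) L := fun hh => hP.disj (by omega) (by omega) b hb hh
      refine ⟨P (L + 2 - t), ne _ (by omega) _ (by omega) (by omega),
        ne _ (by omega) _ (by omega) (by omega),
        fun e => hb' ⟨_, le_rfl, by omega, e⟩, fun hh => ?_⟩
      refine np _ _ _ (((hP.run' (a := L + 2 - t) (b := L) (by omega) (by omega)).cons hh.symm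
        hb').cast (by omega)) ?_ ?_ b1 aD
      · rintro (h | h)
        exacts [b1.ne h, nu (by omega) le_rfl h]
      · rintro (h | h)
        exacts [b2.ne h, nv le_rfl h]
    · refine ⟨P (t - 1), ne _ (by omega) _ (by omega) (by omega),
        ne _ (by omega) _ (by omega) (by omega),
        fun e => hb ⟨_, by omega, le_rfl, e⟩, fun hh => ?_⟩
      refine np _ _ _ (((hP.run' (a := 1) (b := t - 1) (by omega) (by omega)).snoc hh.symm
        hb).cast (by omega)) ?_ ?_ aA b2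
      · rintro (h | h)
        exacts [b1.ne h, nu le_rfl (by omega) h]
      · rintro (h | h)
        exacts [b2.ne h, nv (by omega) h]
  have wA : ¬ G.Adj (P 0) (P (L + 1 - t)) := fun hh =>
    np _ _ _ ((hP.run' (a := L + 1 - t) (b := L) (by omega) (by omega)).cast (by omega))
      (nu (by omega) le_rfl) (nv le_rfl) hh aD
  have wD : ¬ G.Adj (P (L + 1)) (P t) := fun hh =>
    np _ _ _ ((hP.run' (a := 1) (b := t) (by omega) (by omega)).cast (by omega))
      (nu le_rfl (by omega)) (nv (by omega)) aA hh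
  let q : ℕ → ℕ → V := fun b i => P (b * N + 1 + i)
  have rq : ∀ b < 10 * t, Ray G (q b) (5 * t) := fun b hb => by
    have := bd b hb
    refine ⟨fun a ha c hc e => ?_, fun a ha => hP.adj (b * N + 1 + a) (by omega)⟩
    have := hP.inj _ (by omega) _ (by omega) e
    omega
  have sq : ∀ b < 10 * t, Seg (q b) 0 (5 * t) ⊆ Seg P 1 L := by
    rintro b hb w ⟨i, -, hi, rfl⟩
    have := bd b hb
    exact ⟨b * N + 1 + i, by omega, by omega, rfl⟩
  have qu : ∀ b < 10 * t, P 0 ∉ Seg (q b) 0 (5 * t) := fun b hb hh => nu le_rfl le_rfl (sq b hb hh)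
  have qv : ∀ b < 10 * t, P (L + 1) ∉ Seg (q b) 0 (5 * t) := fun b hb hh => nv le_rfl (sq b hb hh)
  have no : ∀ {z : V} {b : ℕ}, (¬ ∃ r ≤ 5 * t, G.Adj z (q b r)) →
      ∀ w ∈ Seg (q b) 0 (5 * t), ¬ G.Adj z w := by
    rintro z b h w ⟨i, -, hi, rfl⟩ hh
    exact h ⟨i, hi, hh⟩
  have hAD : ∀ b < 10 * t, (∃ r ≤ 5 * t, G.Adj (P 0) (q b r)) ∧
      (∃ r ≤ 5 * t, G.Adj (P (L + 1)) (q b r)) := by
    intro b hb
    by_cases hA : ∃ r ≤ 5 * t, G.Adj (P 0) (q b r) <;>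
      by_cases hD : ∃ r ≤ 5 * t, G.Adj (P (L + 1)) (q b r)
    · exact ⟨hA, hD⟩
    · obtain ⟨r, hr, hA⟩ := hA
      exact (case2 h3 np (by omega) (rq b hb) le_rfl (qu b hb) (qv b hb) (no hD) hr hA
        (ne _ (by omega) _ (by omega) (by omega)) (ne _ (by omega) _ (by omega) (by omega)) wA).elim
    · obtain ⟨r, hr, hD⟩ := hD
      exact (case2 h3 np.symm (by omega) (rq b hb) le_rfl (qv b hb) (qu b hb) (no hA) hr hD
        (ne _ (by omega) _ (by omega) (by omega)) (ne _ (by omega) _ (by omega) (by omega)) wD).elim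
    · exact (case1 h3 np (by omega) (rq b hb) le_rfl (qu b hb) (qv b hb) (no hA) (no hD) hw).elim
  have hO : ∀ b < 10 * t, ∃ r ≤ 5 * t, ¬ G.Adj (P 0) (q b r) ∧ ¬ G.Adj (P (L + 1)) (q b r) := by
    intro b hb
    by_contra hh
    obtain ⟨⟨r0, hr0, hA⟩, r1, hr1, hD⟩ := hAD b hb
    refine case3 h3 np (by omega) (rq b hb) le_rfl (qu b hb) (qv b hb) (fun r hr => ?_) hr0 hA hr1 hD
    by_contra h
    exact hh ⟨r, hr, not_or.1 h⟩
  let B : ℕ → Set V := fun b => {w | b < 10 * t ∧ w ∈ Seg (q b) 0 (5 * t)}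
  have hB : ∀ i k, i ≠ k → ∀ w, w ∈ B i → w ∈ B k → False := by
    rintro i k hik w ⟨hi, a, -, ha, rfl⟩ ⟨hk, c, -, hc, e⟩
    have h1 := bd i hi
    have h2 := bd k hk
    have h4 := hP.inj _ (by omega) _ (by omega) e
    rcases Nat.lt_or_gt_of_ne hik with h | h
    · have := Nat.mul_le_mul_right N (show i + 1 ≤ k by omega)
      rw [Nat.add_mul, Nat.one_mul] at this
      omega
    · have := Nat.mul_le_mul_right N (show k + 1 ≤ i by omega)
      rw [Nat.add_mul, Nat.one_mul] at this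
      omega
  have Bu : ∀ i, P 0 ∉ B i := fun i h => qu i h.1 h.2
  have Bv : ∀ i, P (L + 1) ∉ B i := fun i h => qv i h.1 h.2
  have ry : ∀ z : V, ∀ k < 10 * t, (∃ r ≤ 5 * t, G.Adj z (q k r)) →
      ∃ Y, Ray G Y (t - 4) ∧ Seg Y 0 (t - 4) ⊆ B k ∧ G.Adj z (Y 0) := by
    rintro z k hk ⟨r, hr, h⟩
    obtain ⟨Y, h1, h2, h4⟩ := (rq k hk).sub (m := t - 4) (by omega) hr
    exact ⟨Y, h1, fun w hw => ⟨hk, h2 hw⟩, h4 ▸ h⟩
  have st : ∀ b < 10 * t, ∃ a x, a ∈ B b ∧ x ∈ B b ∧ G.Adj a x ∧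
      (G.Adj (P 0) a ∨ G.Adj (P (L + 1)) a) ∧ ¬ G.Adj (P 0) x ∧ ¬ G.Adj (P (L + 1)) x := by
    intro b hb
    by_contra hh
    have key := ivt (c := fun r => G.Adj (P 0) (q b r) ∨ G.Adj (P (L + 1)) (q b r)) (M := 5 * t)
      (fun i hi => by
        have e := (rq b hb).adj i hi
        have m1 : q b i ∈ B b := ⟨hb, mem_seg (by omega)⟩
        have m2 : q b (i + 1) ∈ B b := ⟨hb, mem_seg (by omega)⟩
        constructor
        · intro h1
          by_contra h2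
          exact hh ⟨_, _, m1, m2, e, h1, not_or.1 h2⟩
        · intro h1
          by_contra h2
          exact hh ⟨_, _, m2, m1, e.symm, h1, not_or.1 h2⟩)
    obtain ⟨⟨r0, hr0, hA⟩, -⟩ := hAD b hb
    obtain ⟨r1, hr1, h1⟩ := hO b hb
    exact not_or.2 h1 ((key r1 hr1).2 ((key r0 hr0).1 (Or.inl hA)))
  let α : ℕ → Prop := fun l => ∃ a x, a ∈ B l ∧ x ∈ B l ∧ G.Adj a x ∧ G.Adj (P 0) a ∧
    ¬ G.Adj (P 0) x ∧ ¬ G.Adj (P (L + 1)) x
  have c2 := Finset.card_filter_add_card_filter_not (s := Finset.range (10 * t)) α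
  rw [Finset.card_range] at c2
  rcases Nat.lt_or_ge ((Finset.range (10 * t)).filter α).card (5 * t) with h | h
  · refine case4' h3 np.symm ht hB Bv Bu (S1 := (Finset.range (10 * t)).filter (fun l => ¬ α l))
      (by omega) (fun l hl => ?_) (fun k hk => ry _ k hk (hAD k hk).1)
    obtain ⟨h1, h2⟩ := Finset.mem_filter.1 hl
    obtain ⟨a, x, s1, s2, s3, s4 | s4, s5, s6⟩ := st l (Finset.mem_range.1 h1)
    · exact absurd ⟨a, x, s1, s2, s3, s4, s5, s6⟩ h2
    · exact ⟨a, x, s1, s2, s3, s4, s6, s5⟩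
  · exact case4' h3 np ht hB Bu Bv h
      (fun l hl => (Finset.mem_filter.1 hl).2) (fun k hk => ry _ k hk (hAD k hk).2)

theorem quad (h3 : ∀ x y : V, x ≠ y → ∃ z, G.Adj x z ∧ G.Adj y z) {u v : V} (huv : u ≠ v)
    {j : ℕ} (hj : 10 ≤ j) (p : G.Walk u v) (hp : p.IsPath) (hl : 50 * j ^ 2 ≤ p.support.length) :
    ∃ p' : G.Walk u v, p'.IsPath ∧ p'.support.length = j := by
  obtain ⟨t, rfl⟩ : ∃ t, j = t + 2 := ⟨j - 2, by omega⟩
  by_contra hn
  rw [SimpleGraph.Walk.length_support] at hl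
  have h1 : 10 * t * (5 * t + 1) + 2 ≤ p.length + 1 := le_trans (by nlinarith) hl
  obtain ⟨L, hL⟩ : ∃ L, p.length = L + 1 := ⟨p.length - 1, by omega⟩
  have hP : Ray G p.getVert (L + 1) :=
    ⟨fun a ha b hb e => hp.getVert_injOn (by simpa [hL] using ha) (by simpa [hL] using hb) e,
      fun a ha => p.adj_getVert_succ (by omega)⟩
  refine core h3 hP (t := t) (by omega) (by omega) ?_
  rw [← hL, SimpleGraph.Walk.getVert_zero, SimpleGraph.Walk.getVert_length]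
  intro x y S q hu hv a1 a2
  obtain ⟨l, l1, l2, l3, l4, l5, -⟩ := (q.cons a1.symm hu).snoc a2.symm (by
    rintro (h | h)
    exacts [huv h.symm, hv h])
  obtain ⟨w, w1, w2⟩ := walk_of_lp (G := G) (u := u) (v := v) (l := l) ⟨l1, l2, l3, l4⟩
  exact hn ⟨w, w1, by rw [w2, l5]⟩

theorem main' {i j : ℕ}
    (h3 : ∀ u v : V, u ≠ v → ∃ p : G.Walk u v, p.IsPath ∧ p.support.length = 3)
    (hi : ∀ u v : V, u ≠ v → ∃ p : G.Walk u v, p.IsPath ∧ p.support.length = i)
    (h6 : 6 ≤ j) (hji : j ≤ i) (h : j ≤ 12 ∨ 50 * j ^ 2 ≤ i) :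
    ∀ u v : V, u ≠ v → ∃ p : G.Walk u v, p.IsPath ∧ p.support.length = j := by
  by_cases h12 : j ≤ 12
  · exact main h3 hi h6 hji h12
  · intro u v huv
    obtain ⟨p, hp, hl⟩ := hi u v huv
    exact quad (common_of_three h3) huv (by omega) p hp (by rw [hl]; exact h.resolve_left h12)

end Pool.Agent.Work.MP_193ce1_co.Q
end

-- merged part: Pool.Agent.Work.MP_193ce1_co.Lin.Cnt
section
namespace Pool.Agent.Work.MP_193ce1_co.Lin

open Finset

open Classical in
/-- indicator of a proposition -/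
noncomputable def ind (p : Prop) : ℕ := if p then 1 else 0

theorem ind_pos {p : Prop} (h : p) : ind p = 1 := if_pos h

theorem ind_neg {p : Prop} (h : ¬ p) : ind p = 0 := if_neg h

theorem ind_cases (p : Prop) : (p ∧ ind p = 1) ∨ (¬ p ∧ ind p = 0) := by
  by_cases h : p
  exacts [Or.inl ⟨h, ind_pos h⟩, Or.inr ⟨h, ind_neg h⟩]

theorem ind_le (p : Prop) : ind p ≤ 1 := by
  rcases ind_cases p with h | h <;> omega

/-- number of `i < n` with `p i` -/
noncomputable def cnt (p : ℕ → Prop) (n : ℕ) : ℕ := ∑ i ∈ range n, ind (p i)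

theorem cnt_card (p : ℕ → Prop) [DecidablePred p] (n : ℕ) :
    cnt p n = ((range n).filter p).card := by
  rw [Finset.card_filter]
  exact Finset.sum_congr rfl fun i _ => by unfold ind; congr

theorem cnt_mono {p q : ℕ → Prop} {n : ℕ} (h : ∀ i < n, p i → q i) : cnt p n ≤ cnt q n := by
  refine Finset.sum_le_sum fun i hi => ?_
  rcases ind_cases (p i) with h1 | h1
  · rw [h1.2, ind_pos (h i (mem_range.1 hi) h1.1)]
  · omega

theorem cnt_or (p q : ℕ → Prop) (n : ℕ) : cnt (fun i => p i ∨ q i) n ≤ cnt p n + cnt q n := by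
  unfold cnt
  rw [← Finset.sum_add_distrib]
  refine Finset.sum_le_sum fun i _ => ?_
  rcases ind_cases (p i ∨ q i) with ⟨h | h, h1⟩ | h1
  · rw [h1, ind_pos h]; omega
  · rw [h1, ind_pos h]; omega
  · rw [h1.2]; omega

theorem cnt_add (p : ℕ → Prop) (a b : ℕ) :
    cnt p (a + b) = cnt p a + cnt (fun i => p (a + i)) b := Finset.sum_range_add _ _ _

theorem cnt_succ (p : ℕ → Prop) (a : ℕ) : cnt p (a + 1) = cnt p a + ind (p a) :=
  Finset.sum_range_succ _ _

theorem cnt_le (p : ℕ → Prop) (n : ℕ) : cnt p n ≤ n := by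
  induction n with
  | zero => exact le_rfl
  | succ k ih => rw [cnt_succ]; have := ind_le (p k); omega

theorem cnt_all {p : ℕ → Prop} {n : ℕ} (h : ∀ i < n, p i) : cnt p n = n := by
  induction n with
  | zero => rfl
  | succ k ih => rw [cnt_succ, ih (fun i hi => h i (by omega)), ind_pos (h k (by omega))]

theorem cnt_none {p : ℕ → Prop} {n : ℕ} (h : ∀ i < n, ¬ p i) : cnt p n = 0 :=
  Finset.sum_eq_zero fun i hi => ind_neg (h i (mem_range.1 hi))

theorem cnt_not (p : ℕ → Prop) (n : ℕ) : cnt p n + cnt (fun i => ¬ p i) n = n := by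
  induction n with
  | zero => rfl
  | succ k ih =>
    rw [cnt_succ, cnt_succ]
    rcases ind_cases (p k) with h | h
    · rw [h.2, ind_neg (not_not.2 h.1)]; omega
    · rw [h.2, ind_pos h.1]; omega

theorem cnt_le_of_le (p : ℕ → Prop) {a b : ℕ} (h : a ≤ b) : cnt p a ≤ cnt p b := by
  obtain ⟨c, rfl⟩ := Nat.exists_eq_add_of_le h
  rw [cnt_add]; omega

theorem cnt_refl (p : ℕ → Prop) {c n : ℕ} (h : n ≤ c + 1) :
    cnt (fun i => p (c - i)) n = cnt (fun i => p (c + 1 - n + i)) n := by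
  unfold cnt
  rw [← Finset.sum_range_reflect (fun i => ind (p (c + 1 - n + i))) n]
  refine Finset.sum_congr rfl fun i hi => ?_
  have := mem_range.1 hi
  rw [show c + 1 - n + (n - 1 - i) = c - i by omega]

theorem cnt_per {p : ℕ → Prop} {m : ℕ} (h : ∀ r, p (r + m) ↔ p r) (c : ℕ) :
    cnt (fun i => p (c + i)) m = cnt p m := by
  induction c with
  | zero => simp
  | succ c ih =>
    have h1 := cnt_add (fun i => p (c + i)) 1 m
    have h2 := cnt_succ (fun i => p (c + i)) m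
    have h3 : cnt (fun i => p (c + i)) 1 = ind (p c) := by simp [cnt]
    have h4 : ind (p (c + m)) = ind (p c) := by rw [propext (h c)]
    have h5 : cnt (fun i => p (c + (1 + i))) m = cnt (fun i => p (c + 1 + i)) m := by
      simp only [Nat.add_assoc]
    rw [Nat.add_comm 1 m] at h1
    omega

theorem cnt_ex (p : ℕ → ℕ → Prop) (J n : ℕ) :
    cnt (fun i => ∃ k < J, p k i) n ≤ ∑ k ∈ range J, cnt (p k) n := by
  induction J with
  | zero => rw [cnt_none (by simp)]; exact Nat.zero_le _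
  | succ J ih =>
    rw [Finset.sum_range_succ]
    refine le_trans (cnt_mono (q := fun i => (∃ k < J, p k i) ∨ p J i) ?_)
      ((cnt_or _ _ _).trans (by omega))
    rintro i - ⟨k, hk, h⟩
    rcases Nat.lt_or_ge k J with h1 | h1
    · exact Or.inl ⟨k, h1, h⟩
    · exact Or.inr ((show k = J by omega) ▸ h)

theorem cnt_mul (p : ℕ → Prop) (J l : ℕ) :
    cnt p (J * l) = ∑ k ∈ range J, cnt (fun i => p (k * l + i)) l := by
  induction J with
  | zero => simp [cnt]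
  | succ J ih => rw [Finset.sum_range_succ, ← ih, Nat.succ_mul, cnt_add]

theorem ex_not {p : ℕ → Prop} {n : ℕ} (h : cnt p n < n) : ∃ i < n, ¬ p i := by
  by_contra hh
  push Not at hh
  rw [cnt_all hh] at h
  omega

theorem cnt_list (ps : List (ℕ → Prop)) {m b : ℕ} (h : ∀ p ∈ ps, cnt p m ≤ b) :
    cnt (fun i => ∃ p ∈ ps, p i) m ≤ ps.length * b := by
  induction ps with
  | nil => rw [cnt_none (by simp)]; exact Nat.zero_le _
  | cons a l ih =>
    have h1 := ih (fun p hp => h p (List.mem_cons_of_mem _ hp))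
    have h2 := h a List.mem_cons_self
    rw [List.length_cons, Nat.succ_mul]
    refine le_trans (cnt_mono (q := fun i => (∃ p ∈ l, p i) ∨ a i) ?_)
      ((cnt_or _ _ _).trans (by omega))
    rintro i - ⟨p, hp, hi⟩
    rcases List.mem_cons.1 hp with rfl | hp
    exacts [Or.inr hi, Or.inl ⟨p, hp, hi⟩]

theorem pick (ps : List (ℕ → Prop)) {m b : ℕ} (h : ∀ p ∈ ps, cnt p m ≤ b)
    (hm : ps.length * b + 8 < m) : ∃ d, 4 ≤ d ∧ d + 4 < m ∧ ∀ p ∈ ps, ¬ p d := by
  have h1 := cnt_list ps h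
  have h2 := cnt_add (fun i => ∃ p ∈ ps, p i) 4 (m - 8)
  have h3 := cnt_le_of_le (fun i => ∃ p ∈ ps, p i) (show 4 + (m - 8) ≤ m by omega)
  obtain ⟨i, hi, hn⟩ := ex_not (p := fun i => ∃ p ∈ ps, p (4 + i)) (n := m - 8) (by omega)
  exact ⟨4 + i, by omega, by omega, fun p hp hh => hn ⟨p, hp, hh⟩⟩

theorem slot {p : ℕ → Prop} {J l b : ℕ} (hJ : 0 < J) (h : cnt p (J * l) ≤ J * b) :
    ∃ k < J, cnt (fun i => p (k * l + i)) l ≤ b := by
  rw [cnt_mul] at h
  obtain ⟨k, hk, h1⟩ := Finset.exists_le_of_sum_le (s := range J)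
    (f := fun k => cnt (fun i => p (k * l + i)) l) (g := fun _ => b)
    (nonempty_range_iff.2 (by omega)) (by simpa using h)
  exact ⟨k, mem_range.1 hk, h1⟩

theorem pair {H : ℕ → ℕ → ℕ} {I I' : Finset ℕ} {n s b : ℕ} (hI : I.card = n) (hI' : I'.card = n)
    (hn : 0 < n) (h1 : ∀ i ∈ I, ∑ k ∈ I', H i k ≤ s) (h2 : ∀ k ∈ I', ∑ i ∈ I, H k i ≤ s)
    (hb : 2 * s ≤ n * b) : ∃ i ∈ I, ∃ k ∈ I', H i k ≤ b ∧ H k i ≤ b := by
  have e1 : ∑ i ∈ I, ∑ k ∈ I', H i k ≤ n * s := by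
    rw [← hI]; exact Finset.sum_le_card_nsmul _ _ _ h1
  have e2 : ∑ i ∈ I, ∑ k ∈ I', H k i ≤ n * s := by
    rw [Finset.sum_comm, ← hI']; exact Finset.sum_le_card_nsmul _ _ _ h2
  obtain ⟨x, hx, h⟩ := Finset.exists_le_of_sum_le (s := I ×ˢ I')
    (f := fun x => H x.1 x.2 + H x.2 x.1) (g := fun _ => b)
    (Finset.card_pos.1 (by rw [Finset.card_product, hI, hI']; positivity)) (by
      rw [Finset.sum_add_distrib, Finset.sum_product, Finset.sum_product, Finset.sum_const,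
        Finset.card_product, hI, hI', smul_eq_mul]
      have := Nat.mul_le_mul_left n hb
      nlinarith)
  obtain ⟨h3, h4⟩ := Finset.mem_product.1 hx
  exact ⟨x.1, h3, x.2, h4, by omega, by omega⟩

open Classical in
/-- few positions can be asymmetric centres of approximate reflection -/
theorem energy {a b : ℕ → ℕ} {Z : Finset ℕ} {c m E : ℕ} (hc : m ≤ c)
    (hZ : ∀ x ∈ Z, c ≤ x ∧ x < c + m) (hne : ∀ x ∈ Z, b x ≠ a x)
    (hE : ∀ x ∈ Z, cnt (fun d => b (x + d) ≠ a (x - d)) m ≤ E) : Z.card ^ 2 ≤ 6 * E * m := by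
  let R : ℕ → ℕ → Prop := fun x d => b (x + d) ≠ a (x - d)
  have cardR : ∀ x ∈ Z, ∀ {κ : Type} (F : Finset κ) (g : κ → ℕ), (∀ i ∈ F, g i < m ∧ R x (g i)) →
      Set.InjOn g F → F.card ≤ E := by
    intro x hx κ F g h1 h2
    refine le_trans ?_ (hE x hx)
    rw [cnt_card]
    exact Finset.card_le_card_of_injOn g
      (fun i hi => mem_coe.2 (mem_filter.2 ⟨mem_range.2 (h1 i hi).1, (h1 i hi).2⟩)) h2
  have zm : Z.card ≤ m := by
    have := Finset.card_le_card (s := Z) (t := Ico c (c + m)) (fun x hx => mem_Ico.2 (hZ x hx))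
    simpa using this
  let A := (Z ×ˢ Z).filter (fun x => x.1 ≤ x.2)
  have a1 : Z.card ^ 2 ≤ 2 * A.card := by
    have h1 := Finset.card_filter_add_card_filter_not (s := Z ×ˢ Z) (fun x => x.1 ≤ x.2)
    have h2 : ((Z ×ˢ Z).filter (fun x => ¬ x.1 ≤ x.2)).card ≤ A.card := by
      refine Finset.card_le_card_of_injOn Prod.swap (fun x hx => ?_) Prod.swap_injective.injOn
      obtain ⟨h3, h4⟩ := mem_filter.1 (mem_coe.1 hx)
      obtain ⟨h5, h6⟩ := mem_product.1 h3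
      exact mem_coe.2 (mem_filter.2 ⟨mem_product.2 ⟨h6, h5⟩, by simp only [Prod.fst_swap, Prod.snd_swap]; omega⟩)
    rw [Finset.card_product] at h1
    change A.card + _ = _ at h1
    nlinarith
  have mA : ∀ x ∈ A, x.1 ∈ Z ∧ x.2 ∈ Z ∧ x.1 ≤ x.2 := fun x hx =>
    ⟨(mem_product.1 (mem_filter.1 hx).1).1, (mem_product.1 (mem_filter.1 hx).1).2,
      (mem_filter.1 hx).2⟩
  have a2 : (A.filter (fun x => R x.1 (x.2 - x.1))).card ≤ E * Z.card := by
    refine Finset.card_le_mul_card_image_of_maps_to (f := Prod.fst) (t := Z)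
      (fun x hx => (mA x (mem_filter.1 hx).1).1) E fun p hp => ?_
    refine cardR p hp _ (fun x => x.2 - x.1) (fun x hx => ?_) fun x hx y hy e => ?_
    · obtain ⟨h1, h2⟩ := mem_filter.1 hx
      obtain ⟨h3, h4⟩ := mem_filter.1 h1
      obtain ⟨h5, h6, h7⟩ := mA x h3
      have := hZ _ h5
      have := hZ _ h6
      exact ⟨by omega, h2 ▸ h4⟩
    · obtain ⟨h1, h2⟩ := mem_filter.1 (mem_coe.1 hx)
      obtain ⟨h1', h2'⟩ := mem_filter.1 (mem_coe.1 hy)
      have h3 := (mA x (mem_filter.1 h1).1).2.2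
      have h4 := (mA y (mem_filter.1 h1').1).2.2
      simp only at e
      exact Prod.ext (by omega) (by omega)
  have a3 : (A.filter (fun x => ¬ R x.1 (x.2 - x.1))).card ≤ m * (2 * E) := by
    by_contra hh
    obtain ⟨d, -, hd⟩ := Finset.exists_lt_card_fiber_of_mul_lt_card_of_maps_to
      (s := A.filter (fun x => ¬ R x.1 (x.2 - x.1))) (t := range m) (f := fun x => x.2 - x.1)
      (n := 2 * E) (fun x hx => by
        obtain ⟨h5, h6, h7⟩ := mA x (mem_filter.1 hx).1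
        have := hZ _ h5
        have := hZ _ h6
        exact mem_range.2 (by omega)) (by rw [card_range]; omega)
    set F := (A.filter (fun x => ¬ R x.1 (x.2 - x.1))).filter (fun x => x.2 - x.1 = d) with hF
    have mF : ∀ x ∈ F, x.1 ∈ Z ∧ x.2 ∈ Z ∧ x.2 = x.1 + d ∧ ¬ R x.1 d := by
      intro x hx
      obtain ⟨h1, h2⟩ := mem_filter.1 hx
      obtain ⟨h3, h4⟩ := mem_filter.1 h1
      obtain ⟨h5, h6, h7⟩ := mA x h3
      exact ⟨h5, h6, by omega, h2 ▸ h4⟩
    obtain ⟨y, hy, hmax⟩ := Finset.exists_max_image F Prod.fst (Finset.card_pos.1 (by omega))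
    obtain ⟨y1, y2, y3, -⟩ := mF y hy
    have b1 : (F.filter (fun x => R y.2 (y.2 - x.2))).card ≤ E := by
      refine cardR _ y2 _ (fun x => y.2 - x.2) (fun x hx => ?_) fun x hx x' hx' e => ?_
      · obtain ⟨h1, h2⟩ := mem_filter.1 hx
        have := hZ _ (mF x h1).2.1
        have := hZ _ y2
        exact ⟨by omega, h2⟩
      · have h1 := (mem_filter.1 (mem_coe.1 hx)).1
        have h2 := (mem_filter.1 (mem_coe.1 hx')).1
        have := hmax x h1
        have := hmax x' h2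
        have := (mF x h1).2.2.1
        have := (mF x' h2).2.2.1
        simp only at e
        exact Prod.ext (by omega) (by omega)
    have b2 : (F.filter (fun x => R y.1 (y.2 - x.1))).card ≤ E := by
      refine cardR _ y1 _ (fun x => y.2 - x.1) (fun x hx => ?_) fun x hx x' hx' e => ?_
      · obtain ⟨h1, h2⟩ := mem_filter.1 hx
        have := hZ _ (mF x h1).1
        have := hZ _ y2
        exact ⟨by omega, h2⟩
      · have h1 := (mem_filter.1 (mem_coe.1 hx)).1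
        have h2 := (mem_filter.1 (mem_coe.1 hx')).1
        have := hmax x h1
        have := hmax x' h2
        have := (mF x h1).2.2.1
        have := (mF x' h2).2.2.1
        simp only at e
        exact Prod.ext (by omega) (by omega)
    have b3 : F ⊆ F.filter (fun x => R y.2 (y.2 - x.2)) ∪ F.filter (fun x => R y.1 (y.2 - x.1)) := by
      intro x hx
      by_contra hn
      rw [mem_union, not_or] at hn
      have n1 : ¬ R y.2 (y.2 - x.2) := fun h => hn.1 (mem_filter.2 ⟨hx, h⟩)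
      have n2 : ¬ R y.1 (y.2 - x.1) := fun h => hn.2 (mem_filter.2 ⟨hx, h⟩)
      obtain ⟨x1, x2, x3, n3⟩ := mF x hx
      have := hmax x hx
      have := hZ _ x1
      have := hZ _ y2
      simp only [R, ne_eq, not_not] at n1 n2 n3
      rw [show y.2 - (y.2 - x.2) = x.2 by omega] at n1
      rw [show y.1 + (y.2 - x.1) = y.2 + (y.2 - x.2) by omega,
        show y.1 - (y.2 - x.1) = x.1 - d by omega] at n2
      rw [← x3] at n3
      exact hne _ x2 (n3.trans (n2.symm.trans n1))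
    have := (Finset.card_le_card b3).trans (Finset.card_union_le _ _)
    omega
  have a4 := Finset.card_filter_add_card_filter_not (s := A) (fun x => R x.1 (x.2 - x.1))
  have a5 := Nat.mul_le_mul_left E zm
  nlinarith

end Pool.Agent.Work.MP_193ce1_co.Lin
end

-- merged part: Pool.Agent.Work.MP_193ce1_co.Lin.Port
section
namespace Pool.Agent.Work.MP_193ce1_co.Lin

open Pool.Agent.Work.MP_193ce1_co.Q Finset

variable {V : Type} {G : SimpleGraph V} {q : ℕ → V} {M m r : ℕ} {u v : V}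

/-- adjacent to neither end -/
def Oth (G : SimpleGraph V) (u v w : V) : Prop := ¬ G.Adj u w ∧ ¬ G.Adj v w

theorem Oth.symm {w : V} (h : Oth G u v w) : Oth G v u w := ⟨h.2, h.1⟩

theorem oth_comm {w : V} : Oth G u v w ↔ Oth G v u w := ⟨Oth.symm, Oth.symm⟩

/-- a zone: a path avoiding both ends -/
structure Zn (G : SimpleGraph V) (u v : V) (q : ℕ → V) (M : ℕ) : Prop where
  ray : Ray G q M
  nu : u ∉ Seg q 0 M
  nv : v ∉ Seg q 0 M

theorem Zn.symm (h : Zn G u v q M) : Zn G v u q M := ⟨h.ray, h.nv, h.nu⟩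

theorem Zn.nu' (h : Zn G u v q M) {a b : ℕ} (hb : b ≤ M) : u ∉ Seg q a b :=
  fun hh => h.nu (Seg.mono (Nat.zero_le _) hb hh)

theorem Zn.nv' (h : Zn G u v q M) {a b : ℕ} (hb : b ≤ M) : v ∉ Seg q a b :=
  fun hh => h.nv (Seg.mono (Nat.zero_le _) hb hh)

theorem Zn.neu (h : Zn G u v q M) {a : ℕ} (ha : a ≤ M) : q a ≠ u :=
  fun e => h.nu (e ▸ mem_seg ha)

theorem Zn.nev (h : Zn G u v q M) {a : ℕ} (ha : a ≤ M) : q a ≠ v :=
  fun e => h.nv (e ▸ mem_seg ha)

theorem not_seg (h : Ray G q M) {i a b : ℕ} (hi : i ≤ M) (hb : b ≤ M) (hh : i < a ∨ b < i) :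
    q i ∉ Seg q a b := by
  rintro ⟨k, h1, h2, h3⟩
  have := h.inj k (by omega) i hi h3
  omega

/-- a common neighbour with `u` outside the zone -/
def Far (G : SimpleGraph V) (q : ℕ → V) (M : ℕ) (u v : V) (r : ℕ) : Prop :=
  ∃ w, w ∉ Seg q 0 M ∧ w ≠ v ∧ G.Adj (q r) w ∧ G.Adj u w

/-- a common neighbour with `u` to the left -/
def Lf (G : SimpleGraph V) (q : ℕ → V) (u : V) (r : ℕ) : Prop :=
  ∃ i, i < r ∧ G.Adj (q r) (q i) ∧ G.Adj u (q i)

/-- a common neighbour with `u` to the right -/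
def Rt (G : SimpleGraph V) (q : ℕ → V) (M : ℕ) (u : V) (r : ℕ) : Prop :=
  ∃ i, r < i ∧ i ≤ M ∧ G.Adj (q r) (q i) ∧ G.Adj u (q i)

open Classical in
/-- left value -/
noncomputable def lv (G : SimpleGraph V) (q : ℕ → V) (M : ℕ) (u v : V) (r : ℕ) : ℕ :=
  if Lf G q u r then 2 else ind (Far G q M u v r)

open Classical in
/-- right value -/
noncomputable def rv (G : SimpleGraph V) (q : ℕ → V) (M : ℕ) (u v : V) (r : ℕ) : ℕ :=
  if Rt G q M u r then 2 else ind (Far G q M u v r)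

theorem lv_cases (G : SimpleGraph V) (q : ℕ → V) (M : ℕ) (u v : V) (r : ℕ) :
    (Lf G q u r ∧ lv G q M u v r = 2) ∨ (¬ Lf G q u r ∧ Far G q M u v r ∧ lv G q M u v r = 1) ∨
      (¬ Lf G q u r ∧ ¬ Far G q M u v r ∧ lv G q M u v r = 0) := by
  unfold lv
  by_cases h : Lf G q u r
  · exact Or.inl ⟨h, if_pos h⟩
  · rw [if_neg h]
    rcases ind_cases (Far G q M u v r) with h1 | h1
    exacts [Or.inr (Or.inl ⟨h, h1⟩), Or.inr (Or.inr ⟨h, h1⟩)]

theorem rv_cases (G : SimpleGraph V) (q : ℕ → V) (M : ℕ) (u v : V) (r : ℕ) :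
    (Rt G q M u r ∧ rv G q M u v r = 2) ∨
      (¬ Rt G q M u r ∧ Far G q M u v r ∧ rv G q M u v r = 1) ∨
      (¬ Rt G q M u r ∧ ¬ Far G q M u v r ∧ rv G q M u v r = 0) := by
  unfold rv
  by_cases h : Rt G q M u r
  · exact Or.inl ⟨h, if_pos h⟩
  · rw [if_neg h]
    rcases ind_cases (Far G q M u v r) with h1 | h1
    exacts [Or.inr (Or.inl ⟨h, h1⟩), Or.inr (Or.inr ⟨h, h1⟩)]

theorem lv_le : lv G q M u v r ≤ 2 := by rcases lv_cases G q M u v r with h | h | h <;> omega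

theorem rv_le : rv G q M u v r ≤ 2 := by rcases rv_cases G q M u v r with h | h | h <;> omega

theorem lv_two (h : Lf G q u r) : lv G q M u v r = 2 := by
  rcases lv_cases G q M u v r with h1 | h1 | h1
  exacts [h1.2, absurd h h1.1, absurd h h1.1]

theorem rv_two (h : Rt G q M u r) : rv G q M u v r = 2 := by
  rcases rv_cases G q M u v r with h1 | h1 | h1
  exacts [h1.2, absurd h h1.1, absurd h h1.1]

theorem far_pos (h : Far G q M u v r) : 1 ≤ lv G q M u v r ∧ 1 ≤ rv G q M u v r := by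
  constructor
  · rcases lv_cases G q M u v r with h1 | h1 | h1
    exacts [by omega, by omega, absurd h h1.2.1]
  · rcases rv_cases G q M u v r with h1 | h1 | h1
    exacts [by omega, by omega, absurd h h1.2.1]

theorem far_of_lv (h : lv G q M u v r = 1) : Far G q M u v r := by
  rcases lv_cases G q M u v r with h1 | h1 | h1
  exacts [by omega, h1.2.1, by omega]

theorem far_of_rv (h : rv G q M u v r = 1) : Far G q M u v r := by
  rcases rv_cases G q M u v r with h1 | h1 | h1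
  exacts [by omega, h1.2.1, by omega]

theorem port_cases {w : V} (h1 : w ≠ v) (h2 : G.Adj (q r) w) (h3 : G.Adj u w) :
    (w ∈ Seg q 0 M ∧ (lv G q M u v r = 2 ∨ rv G q M u v r = 2)) ∨
      (w ∉ Seg q 0 M ∧ Far G q M u v r) := by
  by_cases hw : w ∈ Seg q 0 M
  · refine Or.inl ⟨hw, ?_⟩
    obtain ⟨i, -, hi, rfl⟩ := hw
    rcases lt_trichotomy i r with h | rfl | h
    exacts [Or.inl (lv_two ⟨i, h, h2, h3⟩), absurd rfl h2.ne, Or.inr (rv_two ⟨i, h, hi, h2, h3⟩)]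
  · exact Or.inr ⟨hw, w, hw, h1, h2, h3⟩

theorem port2 {w : V} (h1 : w ≠ v) (h2 : G.Adj (q r) w) (h3 : G.Adj u w) :
    2 ≤ lv G q M u v r + rv G q M u v r := by
  rcases port_cases (M := M) h1 h2 h3 with ⟨-, h | h⟩ | ⟨-, h⟩
  · omega
  · omega
  · have := far_pos h; omega

theorem key (np : NP G u v (m + 3)) (hz : Zn G u v q M) (hr : r + m ≤ M) {a d : V}
    (a0 : a ∉ Seg q r (r + m)) (a1 : a ≠ v) (a2 : G.Adj (q r) a) (a3 : G.Adj u a)
    (d0 : d ∉ Seg q r (r + m)) (d1 : d ≠ u) (d2 : G.Adj (q (r + m)) d) (d3 : G.Adj v d) :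
    a = d := by
  by_contra hne
  refine np a d _ (((hz.ray.run r m hr).cons a2 a0).snoc d2 ?_) ?_ ?_ a3 d3
  · rintro (h | h)
    exacts [hne h.symm, d0 h]
  · rintro (h | h | h)
    exacts [d1 h.symm, a3.ne h, hz.nu' hr h]
  · rintro (h | h | h)
    exacts [d3.ne h, a1 h.symm, hz.nv' hr h]

theorem link (np : NP G u v (m + 3)) (hz : Zn G u v q M) (hr : r + m ≤ M) :
    lv G q M u v r + rv G q M v u (r + m) ≤ 2 := by
  have sub : Seg q r (r + m) ⊆ Seg q 0 M := Seg.mono (Nat.zero_le _) hr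
  rcases lv_cases G q M u v r with ⟨⟨i, i1, i2, i3⟩, h1⟩ | ⟨-, ⟨a, a0, a1, a2, a3⟩, h1⟩ | h1
  · rcases rv_cases G q M v u (r + m) with ⟨⟨k, k1, k0, k2, k3⟩, h2⟩ | ⟨-, ⟨d, d0, d1, d2, d3⟩, h2⟩ | h2
    · have := hz.ray.inj _ (by omega) _ k0 (key np hz hr (not_seg hz.ray (by omega) hr (by omega))
        (hz.nev (by omega)) i2 i3 (not_seg hz.ray k0 hr (by omega)) (hz.neu k0) k2 k3)
      omega
    · exact absurd (key np hz hr (not_seg hz.ray (by omega) hr (by omega))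
        (hz.nev (by omega)) i2 i3 (fun h => d0 (sub h)) d1 d2 d3 ▸ mem_seg (by omega)) d0
    · omega
  · rcases rv_cases G q M v u (r + m) with ⟨⟨k, k1, k0, k2, k3⟩, h2⟩ | h2 | h2
    · exact absurd ((key np hz hr (fun h => a0 (sub h)) a1 a2 a3
        (not_seg hz.ray k0 hr (by omega)) (hz.neu k0) k2 k3).symm ▸ mem_seg k0) a0
    · omega
    · omega
  · have := rv_le (G := G) (q := q) (M := M) (u := v) (v := u) (r := r + m)
    omega

theorem four (h3 : ∀ x y : V, x ≠ y → ∃ z, G.Adj x z ∧ G.Adj y z) (hz : Zn G u v q M)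
    (h1 : 1 ≤ r) (h2 : r < M) (o1 : Oth G u v (q (r - 1)) → Oth G u v (q r))
    (o2 : Oth G u v (q (r + 1)) → Oth G u v (q r)) :
    2 ≤ lv G q M u v r + rv G q M u v r ∨ (lv G q M v u r = 2 ∧ rv G q M v u r = 2) := by
  by_contra hh
  rw [not_or] at hh
  have no : ∀ w, G.Adj (q r) w → G.Adj u w → w = v := fun w a b => by
    by_contra hne
    exact hh.1 (port2 hne a b)
  obtain ⟨z, z1, z2⟩ := h3 (q r) u (hz.neu h2.le)
  have e := no z z1 z2
  subst e
  have e1 : G.Adj (q r) (q (r - 1)) := by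
    have := (hz.ray.adj (r - 1) (by omega)).symm
    rwa [show r - 1 + 1 = r by omega] at this
  have e2 := hz.ray.adj r h2
  refine hh.2 ⟨lv_two ⟨r - 1, by omega, e1, ?_⟩, rv_two ⟨r + 1, by omega, h2, e2, ?_⟩⟩
  · by_contra hn
    exact (o1 ⟨fun h => hz.nev (by omega) (no _ e1 h), hn⟩).2 z1.symm
  · by_contra hn
    exact (o2 ⟨fun h => hz.nev h2 (no _ e2 h), hn⟩).2 z1.symm

/-- a position without defect -/
structure Clean (G : SimpleGraph V) (q : ℕ → V) (M m : ℕ) (u v : V) (r : ℕ) : Prop where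
  pos : 1 ≤ r
  le : r + m ≤ M
  o1 : Oth G u v (q (r - 1)) ↔ Oth G u v (q r)
  o2 : Oth G u v (q (r + 1)) ↔ Oth G u v (q r)
  tot : lv G q M u v r + rv G q M u v r + lv G q M v u r + rv G q M v u r = 4
  s1 : lv G q M u v r + rv G q M v u (r + m) = 2
  s2 : lv G q M v u r + rv G q M u v (r + m) = 2

theorem Clean.symm (h : Clean G q M m u v r) : Clean G q M m v u r :=
  ⟨h.pos, h.le, oth_comm.trans (h.o1.trans oth_comm), oth_comm.trans (h.o2.trans oth_comm),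
    by have := h.tot; omega, h.s2, h.s1⟩

/-- a station: a vertex adjacent to neither end with a path neighbour adjacent to `z` -/
def Sta (G : SimpleGraph V) (q : ℕ → V) (u v z : V) (r : ℕ) : Prop :=
  Oth G u v (q (r + 1)) ∧ (G.Adj z (q r) ∨ G.Adj z (q (r + 2)))

theorem defects (h3 : ∀ x y : V, x ≠ y → ∃ z, G.Adj x z ∧ G.Adj y z) (np : NP G u v (m + 3))
    (hz : Zn G u v q M) {n s : ℕ} (hm : 3 ≤ m) (hn : n + m ≤ M)
    (h1 : cnt (Sta G q u v u) (M - 1) ≤ s) (h2 : cnt (Sta G q u v v) (M - 1) ≤ s) :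
    cnt (fun r => ¬ Clean G q M m u v r) n ≤ 4 * m + 30 * s + 10 := by
  let S : ℕ → Prop := fun r => Sta G q u v u r ∨ Sta G q u v v r
  have hS : cnt S (M - 1) ≤ 2 * s := (cnt_or _ _ _).trans (by omega)
  let nr : ℕ → Prop := fun r => ¬ (2 ≤ r ∧ ¬ S (r - 2) ∧ ¬ S (r - 1) ∧ ¬ S r)
  have c1 : cnt nr n ≤ 6 * s + 2 := by
    have a1 := cnt_le_of_le nr (show n ≤ 2 + n by omega)
    have a2 := cnt_add nr 2 n
    have a3 := cnt_le nr 2
    have a4 : cnt (fun i => nr (2 + i)) n ≤ cnt (fun i => (S i ∨ S (1 + i)) ∨ S (2 + i)) n := by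
      refine cnt_mono fun i _ h => ?_
      by_contra hh
      simp only [not_or] at hh
      refine h ⟨by omega, ?_, ?_, hh.2⟩
      · rw [show 2 + i - 2 = i by omega]; exact hh.1.1
      · rw [show 2 + i - 1 = 1 + i by omega]; exact hh.1.2
    have a5 := cnt_or (fun i => S i ∨ S (1 + i)) (fun i => S (2 + i)) n
    have a6 := cnt_or S (fun i => S (1 + i)) n
    have a7 := cnt_add S 1 n
    have a8 := cnt_add S 2 n
    have a9 := cnt_le_of_le S (show 1 + n ≤ M - 1 by omega)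
    have a10 := cnt_le_of_le S (show 2 + n ≤ M - 1 by omega)
    have a11 := cnt_le_of_le S (show n ≤ M - 1 by omega)
    omega
  have pt : ∀ r ∈ range n, ind (¬ Clean G q M m u v r) + (rv G q M v u (r + m) + rv G q M u v (r + m))
      ≤ (rv G q M v u r + rv G q M u v r) + 5 * ind (nr r) := by
    intro r hr
    have hr' := mem_range.1 hr
    have l1 := link np hz (show r + m ≤ M by omega)
    have l2 := link np.symm hz.symm (show r + m ≤ M by omega)
    rcases ind_cases (nr r) with h | h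
    · have := ind_le (¬ Clean G q M m u v r)
      omega
    obtain ⟨n1, n2, n3, n4⟩ := not_not.1 h.1
    obtain ⟨k, rfl⟩ : ∃ k, r = k + 2 := ⟨r - 2, by omega⟩
    simp only [S, Sta, not_or, not_and, Nat.add_sub_cancel, show k + 2 - 1 = k + 1 by omega] at n2 n3 n4
    have o1 : Oth G u v (q (k + 2 - 1)) ↔ Oth G u v (q (k + 2)) :=
      ⟨fun hh => ⟨(n2.1 hh).2, (n2.2 hh).2⟩, fun hh => ⟨(n3.1 hh).1, (n3.2 hh).1⟩⟩
    have o2 : Oth G u v (q (k + 2 + 1)) ↔ Oth G u v (q (k + 2)) :=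
      ⟨fun hh => ⟨(n4.1 hh).1, (n4.2 hh).1⟩, fun hh => ⟨(n3.1 hh).2, (n3.2 hh).2⟩⟩
    have t1 := four h3 hz (r := k + 2) (by omega) (by omega) o1.1 o2.1
    have t2 := four h3 hz.symm (r := k + 2) (by omega) (by omega) (fun hh => (o1.1 hh.symm).symm)
      (fun hh => (o2.1 hh.symm).symm)
    rcases ind_cases (¬ Clean G q M m u v (k + 2)) with g | g
    · by_contra hh
      exact g.1 ⟨by omega, by omega, o1, o2, by omega, by omega, by omega⟩
    · omega
  have sm := Finset.sum_le_sum pt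
  let f : ℕ → ℕ := fun r => rv G q M v u r + rv G q M u v r
  have e1 := Finset.sum_range_add f n m
  have e2 := Finset.sum_range_add f m n
  have e3 : ∑ i ∈ range m, f i ≤ 4 * m := by
    have := Finset.sum_le_card_nsmul (range m) f 4 (fun i _ => by
      have := rv_le (G := G) (q := q) (M := M) (u := v) (v := u) (r := i)
      have := rv_le (G := G) (q := q) (M := M) (u := u) (v := v) (r := i)
      simp only [f]; omega)
    rw [card_range, smul_eq_mul, Nat.mul_comm] at this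
    exact this
  rw [Finset.sum_add_distrib, Finset.sum_add_distrib (g := fun r => 5 * ind (nr r)),
    ← Finset.mul_sum] at sm
  have e4 : ∑ i ∈ range n, f (m + i) = ∑ i ∈ range n, f (i + m) := by simp only [Nat.add_comm]
  rw [Nat.add_comm m n] at e2
  change cnt (fun r => ¬ Clean G q M m u v r) n + ∑ i ∈ range n, f (i + m) ≤
    ∑ i ∈ range n, f i + 5 * cnt nr n at sm
  omega

/-- asymmetric state -/
def K1 (G : SimpleGraph V) (q : ℕ → V) (M : ℕ) (u v : V) (r : ℕ) : Prop :=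
  rv G q M u v r ≠ lv G q M u v r ∧ rv G q M v u r ≠ lv G q M v u r

theorem K1.symm (h : K1 G q M u v r) : K1 G q M v u r := ⟨h.2, h.1⟩

/-- hub state -/
def Gam (G : SimpleGraph V) (q : ℕ → V) (M : ℕ) (u v : V) (r : ℕ) (h : V) : Prop :=
  h ∉ Seg q 0 M ∧ G.Adj (q r) h ∧ G.Adj u h ∧ G.Adj v h ∧
    ∀ w, G.Adj (q r) w → w ≠ u → w ≠ v → (G.Adj u w ∨ G.Adj v w) → w = h

theorem one_all (np : NP G u v (m + 3)) (hz : Zn G u v q M) (h : Clean G q M m u v r)
    (h1 : lv G q M u v r = 1) : 1 ≤ lv G q M v u r ∧ 1 ≤ rv G q M v u r := by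
  have sub : Seg q r (r + m) ⊆ Seg q 0 M := Seg.mono (Nat.zero_le _) h.le
  obtain ⟨a, a0, a1, a2, a3⟩ := far_of_lv h1
  obtain ⟨d, d0, d1, d2, d3⟩ := far_of_rv (show rv G q M v u (r + m) = 1 by have := h.s1; omega)
  have e := key np hz h.le (fun h => a0 (sub h)) a1 a2 a3 (fun h => d0 (sub h)) d1 d2 d3
  subst e
  exact far_pos ⟨a, a0, d1, a2, d3⟩

theorem states (np : NP G u v (m + 3)) (hz : Zn G u v q M) (h : Clean G q M m u v r)
    (hk : ¬ K1 G q M u v r) : lv G q M u v r = rv G q M u v r ∧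
      lv G q M v u r = rv G q M v u r ∧ rv G q M u v r + rv G q M v u r = 2 := by
  have a1 := one_all np hz h
  have a2 := one_all np.symm hz.symm h.symm
  have a3 : lv G q M u v r = 1 → 1 ≤ rv G q M u v r := fun e => (far_pos (far_of_lv e)).2
  have a4 : rv G q M u v r = 1 → 1 ≤ lv G q M u v r := fun e => (far_pos (far_of_rv e)).1
  have a5 : lv G q M v u r = 1 → 1 ≤ rv G q M v u r := fun e => (far_pos (far_of_lv e)).2
  have a6 : rv G q M v u r = 1 → 1 ≤ lv G q M v u r := fun e => (far_pos (far_of_rv e)).1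
  have b1 := lv_le (G := G) (q := q) (M := M) (u := u) (v := v) (r := r)
  have b2 := rv_le (G := G) (q := q) (M := M) (u := u) (v := v) (r := r)
  have b3 := lv_le (G := G) (q := q) (M := M) (u := v) (v := u) (r := r)
  have b4 := rv_le (G := G) (q := q) (M := M) (u := v) (v := u) (r := r)
  have := h.tot
  simp only [K1, not_and_or, ne_eq, not_not] at hk
  omega

theorem k1_zero (h : Clean G q M m u v r) (hk : K1 G q M u v r) :
    lv G q M u v r = 0 ∨ rv G q M u v r = 0 := by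
  have a3 : lv G q M u v r = 1 → 1 ≤ rv G q M u v r := fun e => (far_pos (far_of_lv e)).2
  have a4 : rv G q M u v r = 1 → 1 ≤ lv G q M u v r := fun e => (far_pos (far_of_rv e)).1
  have a5 : lv G q M v u r = 1 → 1 ≤ rv G q M v u r := fun e => (far_pos (far_of_lv e)).2
  have a6 : rv G q M v u r = 1 → 1 ≤ lv G q M v u r := fun e => (far_pos (far_of_rv e)).1
  have b1 := lv_le (G := G) (q := q) (M := M) (u := u) (v := v) (r := r)
  have b2 := rv_le (G := G) (q := q) (M := M) (u := u) (v := v) (r := r)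
  have b3 := lv_le (G := G) (q := q) (M := M) (u := v) (v := u) (r := r)
  have b4 := rv_le (G := G) (q := q) (M := M) (u := v) (v := u) (r := r)
  have := h.tot
  have := hk.1
  have := hk.2
  omega

theorem k1_local (h : Clean G q M m u v r) (hk : K1 G q M u v r) {w : V} (h1 : w ≠ v)
    (h2 : G.Adj (q r) w) (h3 : G.Adj u w) : w ∈ Seg q 0 M := by
  rcases port_cases (M := M) h1 h2 h3 with ⟨g, -⟩ | ⟨-, g⟩
  · exact g
  · have := far_pos g
    have := k1_zero h hk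
    omega

theorem no_port (h1 : lv G q M v u r = 0) (h2 : rv G q M v u r = 0) {w : V}
    (a : G.Adj (q r) w) (b : G.Adj v w) : w = u := by
  by_contra hne
  have := port2 (M := M) hne a b
  omega

theorem in_u (h3 : ∀ x y : V, x ≠ y → ∃ z, G.Adj x z ∧ G.Adj y z) (hz : Zn G u v q M)
    (hr : r ≤ M) (h1 : lv G q M v u r = 0) (h2 : rv G q M v u r = 0) : G.Adj u (q r) := by
  obtain ⟨z, z1, z2⟩ := h3 (q r) v (hz.nev hr)
  exact (no_port h1 h2 z1 z2 ▸ z1).symm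

theorem gam_of (np : NP G u v (m + 3)) (hz : Zn G u v q M) (h : Clean G q M m u v r)
    (h1 : lv G q M u v r = 1) (h2 : rv G q M u v r = 1) (h3 : lv G q M v u r = 1)
    (h4 : rv G q M v u r = 1) : ∃ b, Gam G q M u v r b ∧ G.Adj (q (r + m)) b := by
  have sub : Seg q r (r + m) ⊆ Seg q 0 M := Seg.mono (Nat.zero_le _) h.le
  obtain ⟨d, d0, d1, d2, d3⟩ := far_of_rv (show rv G q M v u (r + m) = 1 by have := h.s1; omega)
  obtain ⟨a, a0, a1, a2, a3⟩ := far_of_rv (show rv G q M u v (r + m) = 1 by have := h.s2; omega)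
  have pu : ∀ w, G.Adj (q r) w → w ≠ v → G.Adj u w → w = d := by
    intro w w1 w2 w3
    rcases port_cases (M := M) w2 w1 w3 with ⟨-, g⟩ | ⟨g, -⟩
    · omega
    · exact key np hz h.le (fun h => g (sub h)) w2 w1 w3 (fun h => d0 (sub h)) d1 d2 d3
  have pv : ∀ w, G.Adj (q r) w → w ≠ u → G.Adj v w → w = a := by
    intro w w1 w2 w3
    rcases port_cases (M := M) w2 w1 w3 with ⟨-, g⟩ | ⟨g, -⟩
    · omega
    · exact key np.symm hz.symm h.le (fun h => g (sub h)) w2 w1 w3 (fun h => a0 (sub h)) a1 a2 a3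
  obtain ⟨b, -, b1, b2, b3⟩ := far_of_lv h1
  have e := pu b b2 b1 b3
  subst e
  have e' := pv b b2 d1 d3
  subst e'
  refine ⟨b, ⟨d0, b2, b3, d3, fun w w1 w2 w3 w4 => ?_⟩, d2⟩
  rcases w4 with w4 | w4
  exacts [pu w w1 w3 w4, pv w w1 w2 w4]

end Pool.Agent.Work.MP_193ce1_co.Lin
end

-- merged part: Pool.Agent.Work.MP_193ce1_co.Lin.Centre
section
namespace Pool.Agent.Work.MP_193ce1_co.Lin

open Pool.Agent.Work.MP_193ce1_co.Q Finset

variable {V : Type} {G : SimpleGraph V} {q q' : ℕ → V} {M m r w w' β : ℕ} {u v : V}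
  {Z : Set V} {bad bad' : ℕ → Prop}

theorem armR (h : Ray G q M) {c d : ℕ} (hc : c + d ≤ M) {a : V} (ha : G.Adj (q (c + d)) a)
    (hn : a ∉ Seg q c (c + d)) : PB G a (q c) (d + 2) (insert a (Seg q (c - d) (c + d))) :=
  ((h.run c d hc).snoc ha hn).rev.mono (Set.insert_subset_insert (Seg.mono (by omega) le_rfl))

theorem armL (h : Ray G q M) {c d : ℕ} (hd : d ≤ c) (hc : c ≤ M) {a : V}
    (ha : G.Adj (q (c - d)) a) (hn : a ∉ Seg q (c - d) c) :
    PB G a (q c) (d + 2) (insert a (Seg q (c - d) (c + d))) :=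
  (((h.run' (a := c - d) (b := c) (by omega) hc).cons ha hn).cast (by omega)).mono
    (Set.insert_subset_insert (Seg.mono le_rfl (by omega)))

theorem glue {t n n' : ℕ} (np : NP G u v t) {a x d x' : V} {S S' : Set V} (p : PB G a x n S)
    (p' : PB G d x' n' S') (ha : G.Adj u a) (hd : G.Adj v d)
    (dj : ∀ y, y ∈ S → y ∈ S' → False) (u1 : u ∉ S) (v1 : v ∉ S) (u2 : u ∉ S') (v2 : v ∉ S')
    (lk : (n + n' = t ∧ G.Adj x x') ∨ (n + n' + 1 = t ∧ ∃ z, z ≠ u ∧ z ≠ v ∧ z ∉ S ∧ z ∉ S' ∧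
      G.Adj x z ∧ G.Adj x' z)) : False := by
  rcases lk with ⟨e, h⟩ | ⟨e, z, z1, z2, z3, z4, z5, z6⟩
  · refine np _ _ _ ((p.join p'.rev h dj).cast e) ?_ ?_ ha hd
    · rintro (h | h)
      exacts [u1 h, u2 h]
    · rintro (h | h)
      exacts [v1 h, v2 h]
  · refine np _ _ _ (((p.snoc z5 z3).join p'.rev z6.symm ?_).cast (by omega)) ?_ ?_ ha hd
    · rintro y (rfl | h) h'
      exacts [z4 h', dj y h h']
    · rintro ((h | h) | h)
      exacts [z1 h.symm, u1 h, u2 h]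
    · rintro ((h | h) | h)
      exacts [z2 h.symm, v1 h, v2 h]

/-- a window of twenty periods with few bad residues -/
structure Win (G : SimpleGraph V) (u v : V) (q : ℕ → V) (M m w β : ℕ) (Z : Set V)
    (bad : ℕ → Prop) : Prop where
  zn : Zn G u v q M
  le : w + 21 * m ≤ M
  per : ∀ r, bad (r + m) ↔ bad r
  sp : cnt bad m ≤ β
  cl : ∀ r, w ≤ r → r < w + 20 * m → ¬ bad r → Clean G q M m u v r
  hu : ∀ r, w ≤ r → r < w + 20 * m → ¬ bad r → Far G q M u v r →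
    ∃ a, a ∉ Seg q 0 M ∧ a ∉ Z ∧ a ≠ v ∧ G.Adj (q r) a ∧ G.Adj u a
  hv : ∀ r, w ≤ r → r < w + 20 * m → ¬ bad r → Far G q M v u r →
    ∃ a, a ∉ Seg q 0 M ∧ a ∉ Z ∧ a ≠ u ∧ G.Adj (q r) a ∧ G.Adj v a
  dj : ∀ x, x ∈ Seg q 0 M → x ∈ Z → False

theorem Win.symm (h : Win G u v q M m w β Z bad) : Win G v u q M m w β Z bad :=
  ⟨h.zn.symm, h.le, h.per, h.sp, fun r a b c => (h.cl r a b c).symm, h.hv, h.hu, h.dj⟩

theorem sp_add (per : ∀ r, bad (r + m) ↔ bad r) (sp : cnt bad m ≤ β) (c : ℕ) :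
    cnt (fun i => bad (c + i)) m ≤ β := by rw [cnt_per per]; exact sp

theorem sp_sub (per : ∀ r, bad (r + m) ↔ bad r) (sp : cnt bad m ≤ β) {c : ℕ} (hc : m ≤ c + 1) :
    cnt (fun i => bad (c - i)) m ≤ β := by rw [cnt_refl bad hc]; exact sp_add per sp _

/-- the better of the two options at distance `d` from `c` -/
noncomputable def oo (G : SimpleGraph V) (q : ℕ → V) (M : ℕ) (u v : V) (c d : ℕ) : ℕ :=
  max (rv G q M u v (c + d)) (lv G q M u v (c - d))

theorem oo_le {c d : ℕ} : oo G q M u v c d ≤ 2 := max_le rv_le lv_le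

theorem opt (h : Win G u v q M m w β Z bad) {c d : ℕ} (h1 : w + m ≤ c) (h2 : c < w + 19 * m)
    (hd : d ≤ m) (b1 : ¬ bad (c + d)) (b2 : ¬ bad (c - d)) (ho : 1 ≤ oo G q M u v c d) :
    ∃ a, G.Adj u a ∧ a ≠ v ∧ a ∉ Z ∧ (oo G q M u v c d = 2 → a ∈ Seg q 0 M) ∧
      PB G a (q c) (d + 2) (insert a (Seg q (c - d) (c + d))) := by
  have hl := h.le
  have hr := h.zn.ray
  by_cases r1 : Rt G q M u (c + d)
  · obtain ⟨i, i1, i2, i3, i4⟩ := r1
    exact ⟨q i, i4, h.zn.nev i2, h.dj _ (mem_seg i2), fun _ => mem_seg i2,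
      armR hr (by omega) i3 (not_seg hr i2 (by omega) (by omega))⟩
  by_cases r2 : Lf G q u (c - d)
  · obtain ⟨i, i1, i3, i4⟩ := r2
    have i2 : i ≤ M := by omega
    exact ⟨q i, i4, h.zn.nev i2, h.dj _ (mem_seg i2), fun _ => mem_seg i2,
      armL hr (by omega) (by omega) i3 (not_seg hr i2 (by omega) (by omega))⟩
  unfold oo at ho ⊢
  rcases rv_cases G q M u v (c + d) with g | g | g
  · exact absurd g.1 r1
  · obtain ⟨a, a0, a1, a2, a3, a4⟩ := h.hu _ (by omega) (by omega) b1 g.2.1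
    refine ⟨a, a4, a2, a1, fun e => ?_,
      armR hr (by omega) a3 (fun hh => a0 (Seg.mono (Nat.zero_le _) (by omega) hh))⟩
    rcases lv_cases G q M u v (c - d) with g' | g' | g'
    exacts [absurd g'.1 r2, by omega, by omega]
  · rcases lv_cases G q M u v (c - d) with g' | g' | g'
    · exact absurd g'.1 r2
    · obtain ⟨a, a0, a1, a2, a3, a4⟩ := h.hu _ (by omega) (by omega) b2 g'.2.1
      exact ⟨a, a4, a2, a1, fun e => by omega,
        armL hr (by omega) (by omega) a3 (fun hh => a0 (Seg.mono (Nat.zero_le _) (by omega) hh))⟩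
    · omega

/-- two centres joined by an edge or by a free common neighbour -/
def Lk (G : SimpleGraph V) (u v : V) (q q' : ℕ → V) (m c c' s : ℕ) : Prop :=
  (s + 1 = m ∧ G.Adj (q c) (q' c')) ∨ (s + 2 = m ∧ ∃ z, Oth G u v z ∧ z ≠ u ∧ z ≠ v ∧
    G.Adj (q c) z ∧ G.Adj (q' c') z ∧ z ∉ Seg q (c - m) (c + m) ∧ z ∉ Seg q' (c' - m) (c' + m))

theorem Lk.symm {c c' s : ℕ} (h : Lk G u v q q' m c c' s) : Lk G v u q q' m c c' s := by
  rcases h with h | ⟨e, z, z1, z2, z3, z4⟩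
  exacts [Or.inl h, Or.inr ⟨e, z, z1.symm, z3, z2, z4⟩]

theorem cross_pt (np : NP G u v (m + 3)) (h : Win G u v q M m w β (Seg q' 0 M) bad)
    (h' : Win G u v q' M m w' β (Seg q 0 M) bad') {c c' s d : ℕ} (h1 : w + m ≤ c)
    (h2 : c < w + 19 * m) (h1' : w' + m ≤ c') (h2' : c' < w' + 19 * m)
    (lk : Lk G u v q q' m c c' s) (hd : d ≤ s) (b1 : ¬ bad (c + d)) (b2 : ¬ bad (c - d))
    (b3 : ¬ bad' (c' + (s - d))) (b4 : ¬ bad' (c' - (s - d))) :
    oo G q M u v c d + oo G q' M v u c' (s - d) ≤ 2 := by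
  by_contra hh
  have hs : s < m := by rcases lk with e | e <;> omega
  have hl := h.le
  have hl' := h'.le
  have o1 := oo_le (G := G) (q := q) (M := M) (u := u) (v := v) (c := c) (d := d)
  have o2 := oo_le (G := G) (q := q') (M := M) (u := v) (v := u) (c := c') (d := s - d)
  obtain ⟨a, a1, a2, a3, a4, p⟩ := opt h h1 h2 (by omega) b1 b2 (by omega)
  obtain ⟨b, e1, e2, e3, e4, p'⟩ := opt h'.symm h1' h2' (d := s - d) (by omega) b3 b4 (by omega)
  have s1 : Seg q (c - d) (c + d) ⊆ Seg q 0 M := Seg.mono (Nat.zero_le _) (by omega)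
  have s2 : Seg q' (c' - (s - d)) (c' + (s - d)) ⊆ Seg q' 0 M := Seg.mono (Nat.zero_le _) (by omega)
  refine glue np p p' a1 e1 ?_ ?_ ?_ ?_ ?_ ?_
  · rintro y (rfl | g) (g' | g')
    · subst g'
      rcases Nat.lt_or_ge (oo G q M u v c d) 2 with k | k
      exacts [a3 (e4 (by omega)), e3 (a4 (by omega))]
    · exact a3 (s2 g')
    · exact e3 (g' ▸ s1 g)
    · exact h.dj y (s1 g) (s2 g')
  · rintro (g | g)
    exacts [a1.ne g, h.zn.nu (s1 g)]
  · rintro (g | g)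
    exacts [a2 g.symm, h.zn.nv (s1 g)]
  · rintro (g | g)
    exacts [e2 g.symm, h'.zn.nu (s2 g)]
  · rintro (g | g)
    exacts [e1.ne g, h'.zn.nv (s2 g)]
  · rcases lk with ⟨e, g⟩ | ⟨e, z, z1, z2, z3, z4, z5, z6, z7⟩
    · exact Or.inl ⟨by omega, g⟩
    · refine Or.inr ⟨by omega, z, z2, z3, ?_, ?_, z4, z5⟩
      · rintro (g | g)
        exacts [z1.1 (g ▸ a1), z6 (Seg.mono (by omega) (by omega) g)]
      · rintro (g | g)
        exacts [z1.2 (g ▸ e1), z7 (Seg.mono (by omega) (by omega) g)]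

theorem cross_sum (np : NP G u v (m + 3)) (h : Win G u v q M m w β (Seg q' 0 M) bad)
    (h' : Win G u v q' M m w' β (Seg q 0 M) bad') {c c' s : ℕ} (h1 : w + m ≤ c)
    (h2 : c < w + 19 * m) (h1' : w' + m ≤ c') (h2' : c' < w' + 19 * m)
    (lk : Lk G u v q q' m c c' s) :
    ∑ d ∈ range (m + 1), oo G q M u v c d + ∑ d ∈ range (m + 1), oo G q' M v u c' d ≤
      2 * m + 8 * β + 8 := by
  have hs : s < m ∧ m ≤ s + 2 := by rcases lk with e | e <;> omega
  let f : ℕ → ℕ := fun d => oo G q' M v u c' d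
  let g : ℕ → ℕ := fun d => ind (bad' (c' + d)) + ind (bad' (c' - d))
  have pt : ∀ d ∈ range (s + 1), oo G q M u v c d + f (s + 1 - 1 - d) ≤
      2 + 2 * ((ind (bad (c + d)) + ind (bad (c - d))) + g (s + 1 - 1 - d)) := by
    intro d hd
    have hd' := mem_range.1 hd
    have o1 := oo_le (G := G) (q := q) (M := M) (u := u) (v := v) (c := c) (d := d)
    have o2 := oo_le (G := G) (q := q') (M := M) (u := v) (v := u) (c := c') (d := s - d)
    have := cross_pt np h h' h1 h2 h1' h2' lk (d := d) (by omega)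
    simp only [f, g, Nat.add_sub_cancel]
    rcases ind_cases (bad (c + d)) with k1 | k1
    · omega
    rcases ind_cases (bad (c - d)) with k2 | k2
    · omega
    rcases ind_cases (bad' (c' + (s - d))) with k3 | k3
    · omega
    rcases ind_cases (bad' (c' - (s - d))) with k4 | k4
    · omega
    have := this k1.1 k2.1 k3.1 k4.1
    omega
  have sm := Finset.sum_le_sum pt
  rw [sum_add_distrib, sum_add_distrib, ← mul_sum, sum_add_distrib, sum_add_distrib,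
    sum_range_reflect f, sum_range_reflect g, sum_const, card_range, smul_eq_mul] at sm
  simp only [g] at sm
  rw [sum_add_distrib] at sm
  have c1 := (cnt_le_of_le _ (show s + 1 ≤ m by omega)).trans (sp_add h.per h.sp c)
  have c2 := (cnt_le_of_le _ (show s + 1 ≤ m by omega)).trans
    (sp_sub h.per h.sp (show m ≤ c + 1 by omega))
  have c3 := (cnt_le_of_le _ (show s + 1 ≤ m by omega)).trans (sp_add h'.per h'.sp c')
  have c4 := (cnt_le_of_le _ (show s + 1 ≤ m by omega)).trans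
    (sp_sub h'.per h'.sp (show m ≤ c' + 1 by omega))
  simp only [cnt] at c1 c2 c3 c4
  have ext : ∀ F : ℕ → ℕ, (∀ d, F d ≤ 2) →
      ∑ d ∈ range (m + 1), F d ≤ ∑ d ∈ range (s + 1), F d + 4 := by
    intro F hF
    have := hF (s + 1)
    have := hF (s + 2)
    rcases (show m = s + 1 ∨ m = s + 2 by omega) with rfl | rfl
    · rw [sum_range_succ F (s + 1)]; omega
    · rw [sum_range_succ F (s + 2), sum_range_succ F (s + 1)]; omega
  have e1 := ext (fun d => oo G q M u v c d) (fun d => oo_le)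
  have e2 := ext f (fun d => oo_le)
  simp only [f] at e2 sm
  omega

/-- failures of the reflection about `c` -/
noncomputable def err (G : SimpleGraph V) (q : ℕ → V) (M m : ℕ) (u v : V) (c : ℕ) : ℕ :=
  cnt (fun d => rv G q M u v (c + d) ≠ lv G q M u v (c - d)) m

theorem own_sum (h : Win G u v q M m w β Z bad) {c : ℕ} (h1 : w + m ≤ c) (h2 : c < w + 19 * m) :
    2 * m + err G q M m u v c ≤
      ∑ d ∈ range (m + 1), oo G q M u v c d + ∑ d ∈ range (m + 1), oo G q M v u c d + 6 * β := by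
  let f : ℕ → ℕ := fun d => oo G q M v u c (d + 1)
  have pt : ∀ d ∈ range m, 2 + ind (rv G q M u v (c + d) ≠ lv G q M u v (c - d)) ≤
      oo G q M u v c d + f (m - 1 - d) + 3 * (ind (bad (c + d)) + ind (bad (c - d))) := by
    intro d hd
    have hd' := mem_range.1 hd
    have := ind_le (rv G q M u v (c + d) ≠ lv G q M u v (c - d))
    rcases ind_cases (bad (c + d)) with k1 | k1
    · omega
    rcases ind_cases (bad (c - d)) with k2 | k2
    · omega
    have e1 := (h.cl (c - d) (by omega) (by omega) k2.1).s1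
    have e2 := (h.cl (c - (m - d)) (by omega) (by omega) (fun hh => k1.1 (by
      rw [show c + d = c - (m - d) + m by omega]; exact (h.per _).2 hh))).s2
    rw [show c - d + m = c + (m - d) by omega] at e1
    rw [show c - (m - d) + m = c + d by omega] at e2
    simp only [f, oo, show m - 1 - d + 1 = m - d by omega]
    rcases ind_cases (rv G q M u v (c + d) ≠ lv G q M u v (c - d)) with k | k
    · have := k.1; omega
    · omega
  have sm := Finset.sum_le_sum pt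
  rw [sum_add_distrib, sum_add_distrib, sum_add_distrib, ← mul_sum, sum_add_distrib,
    sum_range_reflect f, sum_const, card_range, smul_eq_mul] at sm
  have c1 := sp_add h.per h.sp c
  have c2 := sp_sub h.per h.sp (show m ≤ c + 1 by omega)
  simp only [cnt] at c1 c2
  simp only [err, cnt]
  rw [sum_range_succ (fun d => oo G q M u v c d), sum_range_succ' (fun d => oo G q M v u c d)]
  simp only [f] at sm
  omega

theorem centre (np : NP G u v (m + 3)) (h : Win G u v q M m w β (Seg q' 0 M) bad)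
    (h' : Win G u v q' M m w' β (Seg q 0 M) bad') {c c' s : ℕ} (h1 : w + m ≤ c)
    (h2 : c < w + 19 * m) (h1' : w' + m ≤ c') (h2' : c' < w' + 19 * m)
    (lk : Lk G u v q q' m c c' s) :
    err G q M m u v c + err G q' M m u v c' ≤ 28 * β + 16 := by
  have a1 := cross_sum np h h' h1 h2 h1' h2' lk
  have a2 := cross_sum np.symm h.symm h'.symm h1 h2 h1' h2' lk.symm
  have a3 := own_sum h h1 h2
  have a4 := own_sum h' h1' h2'
  omega

theorem nc_pair (h3 : ∀ x y : V, x ≠ y → ∃ z, G.Adj x z ∧ G.Adj y z) (np : NP G u v (m + 3))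
    (hm : 2 ≤ m) (h : Win G u v q M m w β (Seg q' 0 M) bad)
    (h' : Win G u v q' M m w' β (Seg q 0 M) bad') {x y : ℕ} (h1 : w + 2 * m ≤ x)
    (h2 : x < w + 18 * m) (h1' : w' + 2 * m ≤ y) (h2' : y < w' + 18 * m) (bx : ¬ bad x)
    (hy : ¬ bad' y) (kx : K1 G q M u v x) (ky : K1 G q' M u v y)
    (ex : 28 * β + 16 < err G q M m u v x) (ey : 28 * β + 16 < err G q' M m u v y) :
    (G.Adj u (q x) ∧ G.Adj u (q' y)) ∨ (G.Adj v (q x) ∧ G.Adj v (q' y)) := by
  have hl := h.le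
  have hl' := h'.le
  have cx := h.cl x (by omega) (by omega) bx
  have cy := h'.cl y (by omega) (by omega) hy
  obtain ⟨z, z1, z2⟩ := h3 (q x) (q' y)
    (fun e => h.dj _ (mem_seg (show x ≤ M by omega)) (e ▸ mem_seg (show y ≤ M by omega)))
  by_cases zu : z = u
  · exact Or.inl ⟨(zu ▸ z1).symm, (zu ▸ z2).symm⟩
  by_cases zv : z = v
  · exact Or.inr ⟨(zv ▸ z1).symm, (zv ▸ z2).symm⟩
  exfalso
  have zo : Oth G u v z :=
    ⟨fun a => h.dj z (k1_local cx kx zv z1 a) (k1_local cy ky zv z2 a),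
      fun a => h.dj z (k1_local cx.symm kx.symm zu z1 a) (k1_local cy.symm ky.symm zu z2 a)⟩
  by_cases s1 : z ∈ Seg q (x - m) (x + m)
  · obtain ⟨i, i1, i2, rfl⟩ := s1
    have := centre np h h' (c := i) (c' := y) (s := m - 1) (by omega) (by omega) (by omega)
      (by omega) (Or.inl ⟨by omega, z2.symm⟩)
    omega
  by_cases s2 : z ∈ Seg q' (y - m) (y + m)
  · obtain ⟨i, i1, i2, rfl⟩ := s2
    have := centre np h h' (c := x) (c' := i) (s := m - 1) (by omega) (by omega) (by omega)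
      (by omega) (Or.inl ⟨by omega, z1⟩)
    omega
  have := centre np h h' (c := x) (c' := y) (s := m - 2) (by omega) (by omega) (by omega)
    (by omega) (Or.inr ⟨by omega, z, zo, zu, zv, z1, z2, s1, s2⟩)
  omega

end Pool.Agent.Work.MP_193ce1_co.Lin
end

-- merged part: Pool.Agent.Work.MP_193ce1_co.Lin.Hub
section
namespace Pool.Agent.Work.MP_193ce1_co.Lin

open Pool.Agent.Work.MP_193ce1_co.Q Finset

variable {V : Type} {G : SimpleGraph V} {q : ℕ → V} {M m β : ℕ} {u v : V} {bad : ℕ → Prop}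

theorem escape2 (h : Ray G q M) {s n : ℕ} (h1 : n ≤ s) (h2 : s + n ≤ M) {z : V} (hz : z ≠ q s) :
    ∃ e, (e = s + n ∨ e = s - n) ∧ ∃ S : Set V, S ⊆ Seg q (s - n) (s + n) ∧ z ∉ S ∧
      PB G (q e) (q s) (n + 1) S := by
  by_cases hc : z ∈ Seg q s (s + n)
  · refine ⟨s - n, Or.inr rfl, Seg q (s - n) s, Seg.mono le_rfl (by omega), ?_,
      (h.run' (a := s - n) (b := s) (by omega) (by omega)).cast (by omega)⟩
    rintro ⟨i, h3, h4, h5⟩
    obtain ⟨k, h6, h7, h8⟩ := hc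
    have := h.inj i (by omega) k (by omega) (h5.trans h8.symm)
    have e : i = s := by omega
    exact hz (by rw [← h5, e])
  · exact ⟨s + n, Or.inl rfl, Seg q s (s + n), Seg.mono (by omega) le_rfl, hc, (h.run s n h2).rev⟩

theorem two_tr (h : Ray G q M) {x : ℕ} (hm : 1 ≤ m) (hx : x + 4 * m ≤ M) (d : V) :
    ∃ x', (x' = x ∨ x' = x + 3 * m) ∧ d ∉ Seg q (x' - m) (x' + m) := by
  by_cases hd : d ∈ Seg q (x - m) (x + m)
  · exact ⟨_, Or.inr rfl, fun hh => h.disj (by omega) (by omega) d hd hh⟩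
  · exact ⟨_, Or.inl rfl, hd⟩

theorem diamond (h3 : ∀ x y : V, x ≠ y → ∃ z, G.Adj x z ∧ G.Adj y z) (np : NP G u v (m + 3))
    (hz : Zn G u v q M) (hm : 1 ≤ m) {x : ℕ} (hx : m ≤ x) (hx' : x + 4 * m ≤ M)
    (hA : ∀ x', x' = x ∨ x' = x + 3 * m → (∀ a, G.Adj (q x') a → G.Adj v a → a = u) ∧
      G.Adj u (q (x' + (m - 1))) ∧ G.Adj u (q (x' - (m - 1))))
    {y : V} (y0 : y ∉ Seg q 0 M) (yu : y ≠ u) (yv : y ≠ v) (yo : Oth G u v y) : False := by
  obtain ⟨d, d1, d2⟩ := h3 y v yv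
  obtain ⟨x', e', d0⟩ := two_tr hz.ray hm hx' d
  obtain ⟨a1, a2, a3⟩ := hA x' e'
  obtain ⟨z, z1, z2⟩ := h3 (q x') y (fun e => y0 (e ▸ mem_seg (by omega)))
  have du : d ≠ u := by rintro rfl; exact yo.1 d1.symm
  obtain ⟨e, he, S, s1, s2, p⟩ := escape2 hz.ray (s := x') (n := m - 1) (by omega) (by omega)
    z1.ne.symm
  have s3 : S ⊆ Seg q 0 M := s1.trans (Seg.mono (Nat.zero_le _) (by omega))
  refine np _ d _ ((((p.snoc z1 s2).snoc z2.symm ?_).snoc d1 ?_).cast (by omega)) ?_ ?_ ?_ d2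
  · rintro (h | h)
    exacts [z2.ne h, y0 (s3 h)]
  · rintro (h | h | h)
    exacts [d1.ne h.symm, du (a1 d (h ▸ z1) d2), d0 (Seg.mono (by omega) (by omega) (s1 h))]
  · rintro (h | h | h | h)
    exacts [du h.symm, yu h.symm, yo.1 (h ▸ z2.symm), hz.nu (s3 h)]
  · rintro (h | h | h | h)
    exacts [d2.ne h, yv h.symm, yo.2 (h ▸ z2.symm), hz.nv (s3 h)]
  · rcases he with rfl | rfl
    exacts [a2, a3]

theorem per_k {κ : Type} {f : ℕ → κ} (h : ∀ r, f (r + m) = f r) (k i : ℕ) : f (i + k * m) = f i := by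
  induction k with
  | zero => simp
  | succ k ih => rw [Nat.succ_mul, ← Nat.add_assoc, h, ih]

theorem run3 (h3 : ∀ x y : V, x ≠ y → ∃ z, G.Adj x z ∧ G.Adj y z) (np : NP G u v (m + 3))
    (hz : Zn G u v q M) (hm : 5 ≤ m) (hM : 12 * m ≤ M) {φ : ℕ → V}
    (pb : ∀ r, bad (r + m) ↔ bad r) (pφ : ∀ r, φ (r + m) = φ r)
    (hg : ∀ r ≤ 12 * m, ¬ bad r → Gam G q M u v r (φ r))
    (hw : ∀ b, G.Adj u b → G.Adj v b → ∃ w, w ∉ Seg q 0 M ∧ w ≠ u ∧ w ≠ v ∧ w ≠ b ∧ ¬ G.Adj b w)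
    (r : ℕ) (b0 : ¬ bad r) (b2 : ¬ bad (r + 2)) (b4 : ¬ bad (r + 4)) (e2 : φ r = φ (r + 2))
    (e4 : φ (r + 2) = φ (r + 4)) : False := by
  have pb' : ∀ r, bad (r + m) = bad r := fun r => propext (pb r)
  obtain ⟨ρ, hρ, k, rfl⟩ : ∃ ρ < m, ∃ k, r = ρ + k * m :=
    ⟨r % m, Nat.mod_lt _ (by omega), r / m, by rw [Nat.mul_comm]; exact (Nat.mod_add_div r m).symm⟩
  rw [Nat.add_right_comm] at b2 b4 e2
  rw [Nat.add_right_comm, Nat.add_right_comm _ _ 4] at e4
  rw [per_k pb'] at b0 b2 b4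
  rw [per_k pφ, per_k pφ] at e2 e4
  have g : ∀ i j k, j = i + k * m → j ≤ 12 * m → ¬ bad i → Gam G q M u v j (φ i) := by
    rintro i j k rfl hj hb
    rw [← per_k pφ k i]
    exact hg _ hj (by rwa [per_k pb'])
  obtain ⟨h0, -, hu, hv, -⟩ := hg ρ (by omega) b0
  obtain ⟨w, w0, wu, wv, wh, nw⟩ := hw _ hu hv
  by_cases wo : Oth G u v w
  · obtain ⟨d, d1, d2⟩ := h3 w v wv
    obtain ⟨x, e', d0⟩ := two_tr hz.ray (m := m) (x := ρ + 2 + m) (by omega) (by omega) d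
    have g1 : Gam G q M u v x (φ (ρ + 2)) := by
      rcases e' with rfl | rfl
      exacts [g _ _ 1 (by omega) (by omega) b2, g _ _ 4 (by omega) (by omega) b2]
    have g2 : Gam G q M u v (x + (m - 2)) (φ ρ) := by
      rcases e' with rfl | rfl
      exacts [g _ _ 2 (by omega) (by omega) b0, g _ _ 5 (by omega) (by omega) b0]
    have g3 : Gam G q M u v (x - (m - 2)) (φ (ρ + 4)) := by
      rcases e' with rfl | rfl
      exacts [g _ _ 0 (by omega) (by omega) b4, g _ _ 3 (by omega) (by omega) b4]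
    rw [← e4, ← e2] at g3
    rw [← e2] at g1
    obtain ⟨z, z1, z2⟩ := h3 (q x) w (fun e => w0 (e ▸ mem_seg (by omega)))
    have du : d ≠ u := by rintro rfl; exact wo.1 d1.symm
    have dh : d ≠ φ ρ := by rintro rfl; exact nw d1.symm
    obtain ⟨e, he, S, s1, s2, p⟩ := escape2 hz.ray (s := x) (n := m - 2) (by omega) (by omega)
      z1.ne.symm
    have s3 : S ⊆ Seg q 0 M := s1.trans (Seg.mono (Nat.zero_le _) (by omega))
    have ae : G.Adj (q e) (φ ρ) := by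
      rcases he with rfl | rfl
      exacts [g2.2.1, g3.2.1]
    refine np _ d _ (((((p.cons ae (fun h => h0 (s3 h))).snoc z1 ?_).snoc z2.symm ?_).snoc d1
      ?_).cast (by omega)) ?_ ?_ hu d2
    · rintro (h | h)
      exacts [nw (h ▸ z2.symm), s2 h]
    · rintro (h | h | h)
      exacts [z2.ne h, wh h, w0 (s3 h)]
    · rintro (h | h | h | h)
      exacts [d1.ne h.symm, dh (g1.2.2.2.2 d (h ▸ z1) du d2.ne.symm (Or.inr d2)), dh h,
        d0 (Seg.mono (by omega) (by omega) (s1 h))]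
    · rintro (h | h | h | h | h)
      exacts [du h.symm, wu h.symm, wo.1 (h ▸ z2.symm), hu.ne h, hz.nu (s3 h)]
    · rintro (h | h | h | h | h)
      exacts [d2.ne h, wv h.symm, wo.2 (h ▸ z2.symm), hv.ne h, hz.nv (s3 h)]
  · have g1 := g _ (ρ + m) 1 (by omega) (by omega) b0
    have g2 := g _ (ρ + m + 1 + (m - 1)) 2 (by omega) (by omega) b0
    have g3 := g _ (ρ + m + 1 - (m - 1)) 0 (by omega) (by omega) b2
    rw [← e2] at g3
    have hy : ρ + m + 1 ≤ M := by omega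
    have yo : ¬ (G.Adj u (q (ρ + m + 1)) ∨ G.Adj v (q (ρ + m + 1))) := fun h =>
      h0 (g1.2.2.2.2 _ (hz.ray.adj _ hy) (hz.neu hy) (hz.nev hy) h ▸ mem_seg hy)
    obtain ⟨z, z1, z2⟩ := h3 (q (ρ + m + 1)) w (fun e => w0 (e ▸ mem_seg hy))
    obtain ⟨e, he, S, s1, s2, p⟩ := escape2 hz.ray (s := ρ + m + 1) (n := m - 1) (by omega)
      (by omega) z1.ne.symm
    have s3 : S ⊆ Seg q 0 M := s1.trans (Seg.mono (Nat.zero_le _) (by omega))
    have ae : G.Adj (q e) (φ ρ) := by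
      rcases he with rfl | rfl
      exacts [g2.2.1, g3.2.1]
    have p' := (((p.cons ae (fun h => h0 (s3 h))).snoc z1 (by
      rintro (h | h)
      exacts [nw (h ▸ z2.symm), s2 h])).snoc z2.symm (by
      rintro (h | h | h)
      exacts [z2.ne h, wh h, w0 (s3 h)])).cast (m := m + 3) (by omega)
    have nu : u ∉ insert w (insert z (insert (φ ρ) S)) := by
      rintro (h | h | h | h)
      exacts [wu h.symm, yo (Or.inl (h ▸ z1.symm)), hu.ne h, hz.nu (s3 h)]
    have nv : v ∉ insert w (insert z (insert (φ ρ) S)) := by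
      rintro (h | h | h | h)
      exacts [wv h.symm, yo (Or.inr (h ▸ z1.symm)), hv.ne h, hz.nv (s3 h)]
    by_cases wA : G.Adj u w
    · exact np _ _ _ p'.rev nu nv wA hv
    · exact np _ _ _ p' nu nv hu (by by_contra wD; exact wo ⟨wA, wD⟩)

theorem dense (h3 : ∀ x y : V, x ≠ y → ∃ z, G.Adj x z ∧ G.Adj y z) (np : NP G u v (m + 3))
    (hz : Zn G u v q M) (hM : 12 * m ≤ M) {φ : ℕ → V}
    (pb : ∀ r, bad (r + m) ↔ bad r) (sp : cnt bad m ≤ β) (hβ : 9 * β + 8 < m)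
    (pφ : ∀ r, φ (r + m) = φ r)
    (hg : ∀ r ≤ 12 * m, ¬ bad r → Gam G q M u v r (φ r) ∧ Oth G u v (q r))
    (hw : ∀ b, G.Adj u b → G.Adj v b → ∃ w, w ∉ Seg q 0 M ∧ w ≠ u ∧ w ≠ v ∧ w ≠ b ∧ ¬ G.Adj b w) :
    False := by
  have r3 := run3 h3 np hz (by omega) hM pb pφ (fun r a b => (hg r a b).1) hw
  have sa := sp_add pb sp
  have sb := fun c => sp_sub (c := c) pb sp
  have arm : ∀ c d e, d ≤ c → c + d ≤ 12 * m → (e = c + d ∨ e = c - d) → ¬ bad e →
      PB G (φ e) (q c) (d + 2) (insert (φ e) (Seg q (c - d) (c + d))) := by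
    rintro c d e h1 h2 (rfl | rfl) hb
    · obtain ⟨g0, g1, -⟩ := (hg _ h2 hb).1
      exact armR hz.ray (by omega) g1 (fun h => g0 (Seg.mono (Nat.zero_le _) (by omega) h))
    · obtain ⟨g0, g1, -⟩ := (hg _ (by omega) hb).1
      exact armL hz.ray h1 (by omega) g1 (fun h => g0 (Seg.mono (Nat.zero_le _) (by omega) h))
  have heq : ∀ a b d d' e e', m ≤ a → a + 2 * m < b → b + m ≤ 12 * m → (e = a + d ∨ e = a - d) →
      (e' = b + d' ∨ e' = b - d') → ¬ bad e → ¬ bad e' → Lk G u v q q m a b (d + d') →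
      φ e = φ e' := by
    intro a b d d' e e' h1 h2 h4 he he' b1 b2 lk
    have hs : d + d' < m := by rcases lk with k | k <;> omega
    obtain ⟨g0, -, g2, g3, -⟩ := (hg e (by omega) b1).1
    obtain ⟨g0', -, g2', g3', -⟩ := (hg e' (by omega) b2).1
    have s1 : Seg q (a - d) (a + d) ⊆ Seg q 0 M := Seg.mono (Nat.zero_le _) (by omega)
    have s2 : Seg q (b - d') (b + d') ⊆ Seg q 0 M := Seg.mono (Nat.zero_le _) (by omega)
    by_contra hne
    refine glue np (arm a d e (by omega) (by omega) he b1) (arm b d' e' (by omega) (by omega) he' b2)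
      g2 g3' ?_ ?_ ?_ ?_ ?_ ?_
    · rintro y (rfl | g) (g' | g')
      exacts [hne g', g0 (s2 g'), g0' (g' ▸ s1 g), hz.ray.disj (by omega) (by omega) y g g']
    · rintro (g | g)
      exacts [g2.ne g, hz.nu (s1 g)]
    · rintro (g | g)
      exacts [g3.ne g, hz.nv (s1 g)]
    · rintro (g | g)
      exacts [g2'.ne g, hz.nu (s2 g)]
    · rintro (g | g)
      exacts [g3'.ne g, hz.nv (s2 g)]
    · rcases lk with ⟨k, g⟩ | ⟨k, z, z1, z2, z3, z4, z5, z6, z7⟩
      · exact Or.inl ⟨by omega, g⟩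
      · refine Or.inr ⟨by omega, z, z2, z3, ?_, ?_, z4, z5⟩
        · rintro (g | g)
          exacts [z1.1 (g ▸ g2), z6 (Seg.mono (by omega) (by omega) g)]
        · rintro (g | g)
          exacts [z1.1 (g ▸ g2'), z7 (Seg.mono (by omega) (by omega) g)]
  have crossE : ∀ a b, m ≤ a → a + 2 * m < b → b + m ≤ 12 * m → ¬ G.Adj (q a) (q b) := by
    intro a b h1 h2 h4 hab
    have step : ∀ d, 1 ≤ d → d < m → ¬ bad (a + d) → ¬ bad (b + 1 + d) → ¬ bad (b - 1 + d) →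
        φ (b - 1 + d) = φ (b + 1 + d) := by
      intro d d1 d2 b1 b2 b3
      have k1 : b + 1 + d = b - (m - 1 - d) + m := by omega
      have k2 : a + d = a - (m - d) + m := by omega
      have e1 := heq a b d (m - 1 - d) _ _ h1 h2 h4 (Or.inl rfl) (Or.inr rfl) b1
        (fun h => b2 (by rw [k1]; exact (pb _).2 h)) (Or.inl ⟨by omega, hab⟩)
      have e2 := heq a b (m - d) (d - 1) _ (b - 1 + d) h1 h2 h4 (Or.inr rfl) (Or.inl (by omega))
        (fun h => b1 (by rw [k2]; exact (pb _).2 h)) b3 (Or.inl ⟨by omega, hab⟩)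
      rw [k1, pφ, ← e1, k2, pφ, e2]
    obtain ⟨d, d1, d2, hd⟩ := pick [fun i => bad (a + i), fun i => bad (b + 1 + i),
      fun i => bad (b - 1 + i), fun i => bad (a + 2 + i), fun i => bad (b + 3 + i)] (m := m) (b := β)
      (by simp only [List.forall_mem_cons]; exact ⟨sa _, sa _, sa _, sa _, sa _, by simp⟩)
      (by simp only [List.length_cons, List.length_nil]; omega)
    simp only [List.forall_mem_cons] at hd
    obtain ⟨n1, n2, n3, n4, n5, -⟩ := hd
    have k1 : b - 1 + d + 2 = b + 1 + d := by omega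
    have k2 : b - 1 + d + 4 = b + 3 + d := by omega
    have e1 := step d (by omega) (by omega) n1 n2 n3
    have e2 := step (d + 2) (by omega) (by omega) (by rwa [show a + (d + 2) = a + 2 + d by omega])
      (by rwa [show b + 1 + (d + 2) = b + 3 + d by omega])
      (by rwa [show b - 1 + (d + 2) = b + 1 + d by omega])
    rw [show b + 1 + (d + 2) = b + 3 + d by omega, show b - 1 + (d + 2) = b + 1 + d by omega] at e2
    exact r3 (b - 1 + d) n3 (k1 ▸ n2) (k2 ▸ n5) (k1 ▸ e1) (by rw [k1, k2]; exact e2)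
  have sym : ∀ x, 2 * m ≤ x → x ≤ 3 * m → ¬ bad x → ∃ y, 7 * m ≤ y ∧ ∀ d, d + 2 ≤ m →
      ¬ bad (x + d) → ¬ bad (x - d) → ¬ bad (y + (m - 2 - d)) → φ (x + d) = φ (x - d) := by
    intro x x1 x2 bx
    obtain ⟨y, y1, y2, hy, ne⟩ : ∃ y, 7 * m ≤ y ∧ y ≤ 8 * m ∧ ¬ bad y ∧ φ y ≠ φ x := by
      by_contra hh
      push Not at hh
      obtain ⟨d, d1, d2, hd⟩ := pick [fun i => bad (7 * m + i), fun i => bad (7 * m + 2 + i),
        fun i => bad (7 * m + 4 + i)] (m := m) (b := β)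
        (by simp only [List.forall_mem_cons]; exact ⟨sa _, sa _, sa _, by simp⟩)
        (by simp only [List.length_cons, List.length_nil]; omega)
      simp only [List.forall_mem_cons] at hd
      obtain ⟨n1, n2, n3, -⟩ := hd
      rw [Nat.add_right_comm] at n2 n3
      have e1 := hh _ (by omega) (by omega) n1
      have e2 := hh _ (by omega) (by omega) n2
      have e3 := hh _ (by omega) (by omega) n3
      exact r3 _ n1 n2 n3 (e1.trans e2.symm) (e2.trans e3.symm)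
    obtain ⟨gx, ox⟩ := hg x (by omega) bx
    obtain ⟨gy, -⟩ := hg y (by omega) hy
    obtain ⟨z, z1, z2⟩ := h3 (q x) (q y)
      (fun e => by have := hz.ray.inj _ (by omega) _ (by omega) e; omega)
    have zu : z ≠ u := by rintro rfl; exact ox.1 z1.symm
    have zv : z ≠ v := by rintro rfl; exact ox.2 z1.symm
    have zo : ¬ (G.Adj u z ∨ G.Adj v z) := fun h =>
      ne ((gy.2.2.2.2 z z2 zu zv h).symm.trans (gx.2.2.2.2 z z1 zu zv h))
    have s1 : z ∉ Seg q (x - m) (x + m) := by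
      rintro ⟨i, i1, i2, rfl⟩
      exact crossE i y (by omega) (by omega) (by omega) z2.symm
    have s2 : z ∉ Seg q (y - m) (y + m) := by
      rintro ⟨i, i1, i2, rfl⟩
      exact crossE x i (by omega) (by omega) (by omega) z1
    refine ⟨y, y1, fun d hd b1 b2 b3 => ?_⟩
    have lk : Lk G u v q q m x y (d + (m - 2 - d)) :=
      Or.inr ⟨by omega, z, not_or.1 zo, zu, zv, z1, z2, s1, s2⟩
    exact (heq x y d _ _ _ (by omega) (by omega) (by omega) (Or.inl rfl) (Or.inl rfl) b1 b3 lk).trans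
      (heq x y d _ _ _ (by omega) (by omega) (by omega) (Or.inr rfl) (Or.inl rfl) b2 b3 lk).symm
  obtain ⟨c, c1, c2, hc⟩ := pick [fun i => bad (2 * m + i), fun i => bad (2 * m + 1 + i)]
    (m := m) (b := β) (by simp only [List.forall_mem_cons]; exact ⟨sa _, sa _, by simp⟩)
    (by simp only [List.length_cons, List.length_nil]; omega)
  simp only [List.forall_mem_cons] at hc
  obtain ⟨x, hx⟩ : ∃ x, x = 2 * m + c := ⟨_, rfl⟩
  obtain ⟨y, y1, hy⟩ := sym x (by omega) (by omega) (hx ▸ hc.1)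
  obtain ⟨y', y1', hy'⟩ := sym (x + 1) (by omega) (by omega)
    (by rw [show x + 1 = 2 * m + 1 + c by omega]; exact hc.2.1)
  obtain ⟨d, d1, d2, hd⟩ := pick [fun i => bad (x + i), fun i => bad (x + 2 + i),
    fun i => bad (x - i), fun i => bad (x + 2 - i), fun i => bad (x - 2 - i),
    fun i => bad (y + m - 2 - i), fun i => bad (y + m - 4 - i), fun i => bad (y' + m - 1 - i),
    fun i => bad (y' + m - 3 - i)] (m := m) (b := β)
    (by
      simp only [List.forall_mem_cons]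
      exact ⟨sa _, sa _, sb _ (by omega), sb _ (by omega), sb _ (by omega), sb _ (by omega),
        sb _ (by omega), sb _ (by omega), sb _ (by omega), by simp⟩)
    (by simp only [List.length_cons, List.length_nil]; omega)
  simp only [List.forall_mem_cons] at hd
  obtain ⟨n1, n2, n3, n4, n5, n6, n7, n8, n9, -⟩ := hd
  have cv : ∀ {a b : ℕ}, ¬ bad a → a = b → ¬ bad b := fun h e => e ▸ h
  have e1 := hy d (by omega) n1 n3 (cv n6 (by omega))
  have e2 := hy (d + 2) (by omega) (cv n2 (by omega)) (cv n5 (by omega)) (cv n7 (by omega))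
  have e3 := hy' (d - 1) (by omega) (cv n1 (by omega)) (cv n4 (by omega)) (cv n8 (by omega))
  have e4 := hy' (d + 1) (by omega) (cv n2 (by omega)) (cv n3 (by omega)) (cv n9 (by omega))
  rw [show x + 1 + (d - 1) = x + d by omega, show x + 1 - (d - 1) = x - (d + 2) + 4 by omega] at e3
  rw [show x + 1 + (d + 1) = x + (d + 2) by omega,
    show x + 1 - (d + 1) = x - (d + 2) + 2 by omega] at e4
  rw [show x - d = x - (d + 2) + 2 by omega] at e1
  exact r3 (x - (d + 2)) (cv n5 (by omega)) (cv n3 (by omega)) (cv n4 (by omega))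
    (e2.symm.trans e4) (e1.symm.trans e3)

end Pool.Agent.Work.MP_193ce1_co.Lin
end

-- merged part: Pool.Agent.Work.MP_193ce1_co.Lin.Core
section
namespace Pool.Agent.Work.MP_193ce1_co.Lin

open Pool.Agent.Work.MP_193ce1_co.Q Finset

variable {V : Type} {G : SimpleGraph V} {q : ℕ → V} {M m w o β : ℕ} {u v : V} {Z : Set V}
  {bad : ℕ → Prop}

open Classical in
theorem resid (p : ℕ → Prop) (w n m : ℕ) :
    ∃ b : ℕ → Prop, (∀ r, b (r + m) ↔ b r) ∧ cnt b m ≤ cnt (fun i => p (w + i)) n ∧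
      ∀ r, w ≤ r → r < w + n → p r → b r := by
  refine ⟨fun r => ∃ i < n, p (w + i) ∧ (w + i) % m = r % m, fun r => by simp, ?_,
    fun r h1 h2 h => ⟨r - w, by omega, by rw [Nat.add_sub_cancel' h1]; exact ⟨h, rfl⟩⟩⟩
  rw [cnt_card, cnt_card]
  refine Finset.card_le_card_of_surjOn (fun i => (w + i) % m) fun r hr => ?_
  obtain ⟨h1, i, h2, h3, h4⟩ := mem_filter.1 (mem_coe.1 hr)
  exact ⟨i, mem_coe.2 (mem_filter.2 ⟨mem_range.2 h2, h3⟩),
    h4.trans (Nat.mod_eq_of_lt (mem_range.1 h1))⟩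

theorem nb (h3 : ∀ x y : V, x ≠ y → ∃ z, G.Adj x z ∧ G.Adj y z) (np : NP G u v (m + 3))
    (h : Win G u v q M m w β Z bad) {x : ℕ} (h1 : w + 1 ≤ x) (h2 : x + 1 < w + 20 * m)
    (bx : ¬ bad x) (kx : K1 G q M u v x) (ax : G.Adj u (q x)) :
    ∃ x', (x' = x + 1 ∨ x' = x - 1) ∧ ¬ G.Adj u (q x') ∧ (¬ bad x' → K1 G q M u v x') := by
  have hl := h.le
  have e1 : G.Adj (q x) (q (x - 1)) := by
    have := (h.zn.ray.adj (x - 1) (by omega)).symm
    rwa [show x - 1 + 1 = x by omega] at this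
  have e2 := h.zn.ray.adj x (by omega)
  rcases k1_zero (h.cl x (by omega) (by omega) bx) kx with k | k
  · have na : ¬ G.Adj u (q (x - 1)) := fun a => by
      have := lv_two (M := M) (v := v) ⟨x - 1, by omega, e1, a⟩
      omega
    refine ⟨x - 1, Or.inr rfl, na, fun b => ?_⟩
    by_contra hk
    have s := states np h.zn (h.cl _ (by omega) (by omega) b) hk
    have := rv_two (v := v) ⟨x, show x - 1 < x by omega, show x ≤ M by omega, e1.symm, ax⟩
    exact na (in_u h3 h.zn (by omega) (by omega) (by omega))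
  · have na : ¬ G.Adj u (q (x + 1)) := fun a => by
      have := rv_two (v := v) ⟨x + 1, by omega, show x + 1 ≤ M by omega, e2, a⟩
      omega
    refine ⟨x + 1, Or.inl rfl, na, fun b => ?_⟩
    by_contra hk
    have s := states np h.zn (h.cl _ (by omega) (by omega) b) hk
    have := lv_two (M := M) (v := v) ⟨x, show x < x + 1 by omega, e2.symm, ax⟩
    exact na (in_u h3 h.zn (by omega) (by omega) (by omega))

theorem k1_sparse (h3 : ∀ x y : V, x ≠ y → ∃ z, G.Adj x z ∧ G.Adj y z) (np : NP G u v (m + 3))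
    (h : Win G u v q M m w β Z bad) (hm : 1 ≤ m) (er : ℕ → Prop) {z0 : ℕ}
    (hz : ∀ c, w + 2 * m ≤ c → c + m ≤ w + 18 * m →
      cnt (fun i => ¬ bad (c + i) ∧ K1 G q M u v (c + i) ∧ er (c + i)) m ≤ z0)
    (nc : ∀ x, w + 2 * m ≤ x → x < w + 18 * m → ¬ bad x → K1 G q M u v x → ¬ er x →
      G.Adj u (q x)) (c : ℕ) (h1 : w + 3 * m ≤ c) (h2 : c + m ≤ w + 17 * m) :
    cnt (fun i => ¬ bad (c + i) ∧ K1 G q M u v (c + i)) m ≤ 3 * z0 + 2 * β := by
  let Zp : ℕ → Prop := fun x => ¬ bad x ∧ K1 G q M u v x ∧ er x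
  have a0 : cnt (fun i => ¬ bad (c + i) ∧ K1 G q M u v (c + i)) m ≤
      cnt (fun i => Zp (c + i) ∨ ((bad (c + 1 + i) ∨ Zp (c + 1 + i)) ∨
        (bad (c - 1 + i) ∨ Zp (c - 1 + i)))) m := by
    refine cnt_mono fun i hi ⟨b, k⟩ => ?_
    by_cases e : er (c + i)
    · exact Or.inl ⟨b, k, e⟩
    obtain ⟨x', e', n1, n2⟩ := nb h3 np h (x := c + i) (by omega) (by omega) b k
      (nc _ (by omega) (by omega) b k e)
    have : bad x' ∨ Zp x' := by
      by_cases b' : bad x'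
      · exact Or.inl b'
      · refine Or.inr ⟨b', n2 b', ?_⟩
        by_contra e''
        exact n1 (nc _ (by omega) (by omega) b' (n2 b') e'')
    rcases e' with rfl | rfl
    · exact Or.inr (Or.inl (by rwa [Nat.add_right_comm c 1 i]))
    · exact Or.inr (Or.inr (by rwa [show c - 1 + i = c + i - 1 by omega]))
  have a1 := cnt_or (fun i => Zp (c + i)) (fun i => (bad (c + 1 + i) ∨ Zp (c + 1 + i)) ∨
    (bad (c - 1 + i) ∨ Zp (c - 1 + i))) m
  have a2 := cnt_or (fun i => bad (c + 1 + i) ∨ Zp (c + 1 + i))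
    (fun i => bad (c - 1 + i) ∨ Zp (c - 1 + i)) m
  have a3 := cnt_or (fun i => bad (c + 1 + i)) (fun i => Zp (c + 1 + i)) m
  have a4 := cnt_or (fun i => bad (c - 1 + i)) (fun i => Zp (c - 1 + i)) m
  have a5 := sp_add h.per h.sp (c + 1)
  have a6 := sp_add h.per h.sp (c - 1)
  have a7 : cnt (fun i => Zp (c + i)) m ≤ z0 := hz c (by omega) (by omega)
  have a8 : cnt (fun i => Zp (c + 1 + i)) m ≤ z0 := hz (c + 1) (by omega) (by omega)
  have a9 : cnt (fun i => Zp (c - 1 + i)) m ≤ z0 := hz (c - 1) (by omega) (by omega)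
  omega

open Classical in
theorem low_err (hβ : 10 ^ 9 * (β + 1) ≤ m) {c : ℕ} (hc : m ≤ c) (p : ℕ → Prop) :
    cnt (fun i => p (c + i) ∧ K1 G q M u v (c + i) ∧ err G q M m u v (c + i) ≤ 28 * β + 16) m ≤
      m / 2000 := by
  rw [cnt_card, ← Finset.card_image_of_injective _ (add_right_injective c)]
  set Z := ((range m).filter (fun i => p (c + i) ∧ K1 G q M u v (c + i) ∧
    err G q M m u v (c + i) ≤ 28 * β + 16)).image (fun x => c + x) with hZ
  have mZ : ∀ x ∈ Z, (c ≤ x ∧ x < c + m) ∧ K1 G q M u v x ∧ err G q M m u v x ≤ 28 * β + 16 := by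
    intro x hx
    obtain ⟨i, hi, rfl⟩ := mem_image.1 hx
    obtain ⟨h1, -, h2⟩ := mem_filter.1 hi
    have := mem_range.1 h1
    exact ⟨by omega, h2⟩
  have e := energy (a := lv G q M u v) (b := rv G q M u v) hc (fun x hx => (mZ x hx).1)
    (fun x hx => (mZ x hx).2.1.1) (fun x hx => (mZ x hx).2.2)
  rw [Nat.le_div_iff_mul_le (by norm_num)]
  by_contra hh
  have h1 : m * m < (Z.card * 2000) * (Z.card * 2000) := Nat.mul_self_lt_mul_self (by omega)
  have h2 := Nat.mul_le_mul_right m hβ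
  nlinarith

/-- fourteen periods in which all good positions are clean and symmetric -/
structure Cor (G : SimpleGraph V) (u v : V) (q : ℕ → V) (M m o : ℕ) (bad : ℕ → Prop) : Prop where
  zn : Zn G u v q M
  le : o + 15 * m ≤ M
  per : ∀ r, bad (r + m) ↔ bad r
  gd : ∀ r, o ≤ r → r < o + 14 * m → ¬ bad r → Clean G q M m u v r ∧ ¬ K1 G q M u v r

theorem Cor.symm (h : Cor G u v q M m o bad) : Cor G v u q M m o bad :=
  ⟨h.zn.symm, h.le, h.per, fun r a b c => ⟨(h.gd r a b c).1.symm, fun k => (h.gd r a b c).2 k.symm⟩⟩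

theorem Cor.st (np : NP G u v (m + 3)) (h : Cor G u v q M m o bad) {r : ℕ} (h1 : o ≤ r)
    (h2 : r < o + 14 * m) (b : ¬ bad r) : lv G q M u v r = rv G q M u v r ∧
      lv G q M v u r = rv G q M v u r ∧ rv G q M u v r + rv G q M v u r = 2 :=
  states np h.zn (h.gd r h1 h2 b).1 (h.gd r h1 h2 b).2

theorem Cor.perk (h : Cor G u v q M m o bad) {r r' : ℕ} (k : ℕ) (e : r' = r + k * m) :
    bad r' ↔ bad r := by
  rw [e, per_k (f := bad) (fun r => propext (h.per r))]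

theorem Cor.fw (np : NP G u v (m + 3)) (h : Cor G u v q M m o bad) {r : ℕ} (h1 : o ≤ r)
    (b : ¬ bad r) (k : ℕ) : ∀ r', r' = r + k * m → r' < o + 14 * m →
      rv G q M u v r' = rv G q M u v r := by
  induction k with
  | zero => intro r' e _; rw [e]; simp
  | succ k ih =>
    intro r' e h2
    rw [Nat.succ_mul] at e
    have b' : ¬ bad (r + k * m) := fun hh => b ((h.perk k rfl).1 hh)
    have s := h.st np (r := r + k * m) (by omega) (by omega) b'
    have := (h.gd (r + k * m) (by omega) (by omega) b').1.s2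
    rw [← ih _ rfl (by omega), e, ← Nat.add_assoc]
    omega

theorem Cor.inA (h3 : ∀ x y : V, x ≠ y → ∃ z, G.Adj x z ∧ G.Adj y z) (np : NP G u v (m + 3))
    (h : Cor G u v q M m o bad) {r : ℕ} (h1 : o ≤ r) (h2 : r < o + 14 * m) (b : ¬ bad r)
    (e : rv G q M u v r = 2) : G.Adj u (q r) ∧ ∀ a, G.Adj (q r) a → G.Adj v a → a = u := by
  have s := h.st np h1 h2 b
  have := h.le
  exact ⟨in_u h3 h.zn (by omega) (by omega) (by omega),
    fun a a1 a2 => no_port (M := M) (by omega) (by omega) a1 a2⟩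

theorem Cor.adj (h3 : ∀ x y : V, x ≠ y → ∃ z, G.Adj x z ∧ G.Adj y z) (np : NP G u v (m + 3))
    (h : Cor G u v q M m o bad) {r : ℕ} (h1 : o ≤ r) (h2 : r + 1 < o + 14 * m) (b : ¬ bad r)
    (b' : ¬ bad (r + 1)) : rv G q M u v r = 2 ↔ rv G q M u v (r + 1) = 2 := by
  have := h.le
  have e := h.zn.ray.adj r (by omega)
  constructor
  · intro k
    rw [← (h.st np (by omega) h2 b').1]
    exact lv_two ⟨r, by omega, e.symm, (h.inA h3 np h1 (by omega) b k).1⟩
  · intro k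
    exact rv_two ⟨r + 1, by omega, by omega, e, (h.inA h3 np (by omega) h2 b' k).1⟩

theorem Cor.noA (h3 : ∀ x y : V, x ≠ y → ∃ z, G.Adj x z ∧ G.Adj y z) (np : NP G u v (m + 3))
    (h : Cor G u v q M m o bad) (hm : 1 ≤ m) {y : V} (y0 : y ∉ Seg q 0 M) (yu : y ≠ u) (yv : y ≠ v)
    (yo : Oth G u v y) {x : ℕ} (h1 : o + m ≤ x) (h2 : x ≤ o + 2 * m) (b0 : ¬ bad (x - 1))
    (b1 : ¬ bad x) (b2 : ¬ bad (x + 1)) : rv G q M u v x ≠ 2 := by
  intro e
  have hl := h.le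
  have e0 : rv G q M u v (x - 1) = 2 := (h.adj h3 np (r := x - 1) (by omega) (by omega) b0
    (by rwa [show x - 1 + 1 = x by omega])).2 (by rwa [show x - 1 + 1 = x by omega])
  have b3 : ¬ bad (x + 1 - m) := fun hh => b2 ((h.perk 1 (by omega)).2 hh)
  have e2 : rv G q M u v (x + 1 - m) = 2 := by
    rw [← h.fw np (by omega) b3 1 (x + 1) (by omega) (by omega)]
    exact (h.adj h3 np (by omega) (by omega) b1 b2).1 e
  have gen : ∀ r r' k, o ≤ r → r' = r + k * m → r' < o + 14 * m → ¬ bad r → rv G q M u v r = 2 →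
      G.Adj u (q r') ∧ ∀ a, G.Adj (q r') a → G.Adj v a → a = u := fun r r' k g1 g2 g3 g4 g5 =>
    h.inA h3 np (by omega) g3 (fun hh => g4 ((h.perk k g2).1 hh))
      ((h.fw np g1 g4 k r' g2 g3).trans g5)
  refine diamond h3 np h.zn hm (x := x) (by omega) (by omega) ?_ y0 yu yv yo
  rintro x' (rfl | rfl)
  · exact ⟨(gen x' _ 0 (by omega) (by omega) (by omega) b1 e).2,
      (gen _ _ 1 (by omega) (by omega) (by omega) b0 e0).1,
      (gen _ _ 0 (by omega) (by omega) (by omega) b3 e2).1⟩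
  · exact ⟨(gen x _ 3 (by omega) (by omega) (by omega) b1 e).2,
      (gen _ _ 4 (by omega) (by omega) (by omega) b0 e0).1,
      (gen _ _ 3 (by omega) (by omega) (by omega) b3 e2).1⟩

theorem Cor.fin (h3 : ∀ x y : V, x ≠ y → ∃ z, G.Adj x z ∧ G.Adj y z) (np : NP G u v (m + 3))
    (h : Cor G u v q M m o bad) (sp : cnt bad m ≤ β) (hβ : 27 * β + 8 < m)
    {y : V} (y0 : y ∉ Seg q 0 M) (yu : y ≠ u) (yv : y ≠ v) (yo : Oth G u v y)
    (hw : ∀ b, G.Adj u b → G.Adj v b → ∃ w, w ∉ Seg q 0 M ∧ w ≠ u ∧ w ≠ v ∧ w ≠ b ∧ ¬ G.Adj b w) :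
    False := by
  have hl := h.le
  have gam : ∀ r, ∃ b, o ≤ r → r < o + 14 * m → ¬ bad r → rv G q M u v r = 1 →
      Gam G q M u v r b ∧ G.Adj (q (r + m)) b := by
    intro r
    by_cases c : o ≤ r ∧ r < o + 14 * m ∧ ¬ bad r ∧ rv G q M u v r = 1
    · obtain ⟨c1, c2, c3, c4⟩ := c
      have s := h.st np c1 c2 c3
      obtain ⟨b, hb⟩ := gam_of np h.zn (h.gd r c1 c2 c3).1 (by omega) c4 (by omega) (by omega)
      exact ⟨b, fun _ _ _ _ => hb⟩
    · exact ⟨u, fun a b d e => absurd ⟨a, b, d, e⟩ c⟩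
  choose hub hh using gam
  have hfw : ∀ r, o ≤ r → ¬ bad r → rv G q M u v r = 1 → ∀ k, r + k * m < o + 14 * m →
      hub (r + k * m) = hub r := by
    intro r g1 g2 g3 k
    induction k with
    | zero => intro _; simp
    | succ k ih =>
      intro g4
      rw [Nat.succ_mul, ← Nat.add_assoc] at g4 ⊢
      obtain ⟨⟨-, -, a2, a3, -⟩, a4⟩ := hh (r + k * m) (by omega) (by omega)
        (fun x => g2 ((h.perk k rfl).1 x)) ((h.fw np g1 g2 k _ rfl (by omega)).trans g3)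
      have e : r + k * m + m = r + (k + 1) * m := by rw [Nat.succ_mul, Nat.add_assoc]
      rw [← ih (by omega)]
      exact ((hh (r + k * m + m) (by omega) g4 (fun x => g2 ((h.perk (k + 1) e).1 x))
        ((h.fw np g1 g2 (k + 1) _ e g4).trans g3)).1.2.2.2.2 _ a4 a2.ne.symm a3.ne.symm
        (Or.inl a2)).symm
  let q' : ℕ → V := fun i => q (o + m + i)
  have sub : Seg q' 0 (12 * m) ⊆ Seg q 0 M := by
    rintro _ ⟨i, -, hi, rfl⟩
    exact mem_seg (by omega)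
  have hz : Zn G u v q' (12 * m) := by
    refine ⟨⟨fun a ha b hb e => ?_, fun a ha => h.zn.ray.adj (o + m + a) (by omega)⟩,
      fun x => h.zn.nu (sub x), fun x => h.zn.nv (sub x)⟩
    have := h.zn.ray.inj _ (by omega) _ (by omega) e
    omega
  refine dense h3 np hz le_rfl (β := 3 * β) (φ := fun i => hub (o + m + i % m))
    (bad := fun i => (bad (o + m - 1 + i) ∨ bad (o + m + i)) ∨ bad (o + m + 1 + i))
    (fun r => ?_) ?_ (by omega) (fun r => by simp) (fun i hi b => ?_) fun b b1 b2 => ?_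
  · simp only [← Nat.add_assoc, h.per]
  · have a1 := cnt_or (fun i => bad (o + m - 1 + i) ∨ bad (o + m + i))
      (fun i => bad (o + m + 1 + i)) m
    have a2 := cnt_or (fun i => bad (o + m - 1 + i)) (fun i => bad (o + m + i)) m
    have a3 := sp_add h.per sp (o + m - 1)
    have a4 := sp_add h.per sp (o + m)
    have a5 := sp_add h.per sp (o + m + 1)
    omega
  · simp only [not_or] at b
    obtain ⟨⟨b0, b1⟩, b2⟩ := b
    have e := Nat.mod_add_div i m
    rw [Nat.mul_comm] at e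
    have lt := Nat.mod_lt i (show 0 < m by omega)
    generalize i % m = ρ at *
    generalize i / m = k at *
    have c0 : ¬ bad (o + m + ρ - 1) := fun x => b0 ((h.perk k (by omega)).2 x)
    have c1 : ¬ bad (o + m + ρ) := fun x => b1 ((h.perk k (by omega)).2 x)
    have c2 : ¬ bad (o + m + ρ + 1) := fun x => b2 ((h.perk k (by omega)).2 x)
    have n1 := h.noA h3 np (by omega) y0 yu yv yo (by omega) (by omega) c0 c1 c2
    have n2 := h.symm.noA h3 np.symm (by omega) y0 yv yu yo.symm (by omega) (by omega) c0 c1 c2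
    have s1 := h.st np (by omega) (by omega) c1
    have s2 := h.st np (by omega) (by omega) c2
    have n3 := h.adj h3 np (by omega) (by omega) c1 c2
    have n4 := h.symm.adj h3 np.symm (by omega) (by omega) c1 c2
    have t1 : rv G q M u v (o + m + ρ) = 1 := by omega
    have t2 : rv G q M u v (o + m + ρ + 1) = 1 := by
      have := fun x => n1 (n3.2 x)
      have := fun x => n2 (n4.2 x)
      omega
    have g1 := (hh (o + m + i) (by omega) (by omega) b1
      ((h.fw np (by omega) c1 k _ (by omega) (by omega)).trans t1)).1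
    have g2 := (hh (o + m + 1 + i) (by omega) (by omega) b2
      ((h.fw np (by omega) c2 k _ (by omega) (by omega)).trans t2)).1
    have g3 := hfw _ (by omega) c1 t1 k (by omega)
    rw [show o + m + ρ + k * m = o + m + i by omega] at g3
    rw [g3] at g1
    refine ⟨⟨fun x => g1.1 (sub x), g1.2⟩, ?_⟩
    have hi' : o + m + i ≤ M := by omega
    have e1 : G.Adj (q (o + m + 1 + i)) (q (o + m + i)) := by
      rw [Nat.add_right_comm]; exact (h.zn.ray.adj _ (by omega)).symm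
    exact not_or.1 fun x =>
      g2.1 (g2.2.2.2.2 _ e1 (h.zn.neu hi') (h.zn.nev hi') x ▸ mem_seg hi')
  · obtain ⟨w, w0, w1⟩ := hw b b1 b2
    exact ⟨w, fun x => w0 (sub x), w1⟩

theorem win_fin (h3 : ∀ x y : V, x ≠ y → ∃ z, G.Adj x z ∧ G.Adj y z) (np : NP G u v (m + 3))
    (h : Win G u v q M m w β Z bad) (hβ : 10 ^ 9 * (β + 1) ≤ m)
    (hk : ∀ c, w + 3 * m ≤ c → c + m ≤ w + 17 * m →
      cnt (fun i => ¬ bad (c + i) ∧ K1 G q M u v (c + i)) m ≤ 3 * (m / 2000) + 2 * β)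
    {y : V} (y0 : y ∉ Seg q 0 M) (yu : y ≠ u) (yv : y ≠ v) (yo : Oth G u v y)
    (hw : ∀ b, G.Adj u b → G.Adj v b → ∃ w, w ∉ Seg q 0 M ∧ w ≠ u ∧ w ≠ v ∧ w ≠ b ∧ ¬ G.Adj b w) :
    False := by
  have hl := h.le
  obtain ⟨b, b1, b2, b3⟩ := resid (fun r => ¬ bad r ∧ K1 G q M u v r) (w + 3 * m) (14 * m) m
  rw [cnt_mul] at b2
  have b4 := Finset.sum_le_card_nsmul (range 14) (fun k => cnt (fun i =>
    ¬ bad (w + 3 * m + (k * m + i)) ∧ K1 G q M u v (w + 3 * m + (k * m + i))) m)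
    (3 * (m / 2000) + 2 * β) (fun k hk' => by
      have := Nat.mul_le_mul_right m (show k + 1 ≤ 14 from mem_range.1 hk')
      rw [Nat.succ_mul] at this
      simpa only [Nat.add_assoc] using hk (w + 3 * m + k * m) (by omega) (by omega))
  rw [card_range, smul_eq_mul] at b4
  have b5 := b2.trans b4
  have b6 := cnt_or bad b m
  have b7 := h.sp
  refine Cor.fin h3 np (o := w + 3 * m) (bad := fun r => bad r ∨ b r)
    (β := β + 14 * (3 * (m / 2000) + 2 * β))
    ⟨h.zn, by omega, fun r => by rw [h.per, b1], fun r r1 r2 r3 => ?_⟩ (by omega) (by omega)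
    y0 yu yv yo hw
  rw [not_or] at r3
  exact ⟨h.cl r (by omega) (by omega) r3.1, fun k => r3.2 (b3 r r1 r2 ⟨r3.1, k⟩)⟩

end Pool.Agent.Work.MP_193ce1_co.Lin
end

-- merged part: Pool.Agent.Work.MP_193ce1_co.Lin.CaseT
section
namespace Pool.Agent.Work.MP_193ce1_co.Lin

open Pool.Agent.Work.MP_193ce1_co.Q Finset

variable {V : Type} {G : SimpleGraph V} {M m : ℕ} {u v : V}

theorem two_win (h3 : ∀ x y : V, x ≠ y → ∃ z, G.Adj x z ∧ G.Adj y z) (np : NP G u v (m + 3))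
    {q q' : ℕ → V} {w w' β : ℕ} {bad bad' : ℕ → Prop}
    (h : Win G u v q M m w β (Seg q' 0 M) bad) (h' : Win G u v q' M m w' β (Seg q 0 M) bad')
    (hβ : 10 ^ 9 * (β + 1) ≤ m) {y : V} (y0 : y ∉ Seg q 0 M) (y0' : y ∉ Seg q' 0 M) (yu : y ≠ u)
    (yv : y ≠ v) (yo : Oth G u v y)
    (hw : ∀ b, G.Adj u b → G.Adj v b → ∃ x, (x ∉ Seg q 0 M ∧ x ∉ Seg q' 0 M) ∧ x ≠ u ∧ x ≠ v ∧
      x ≠ b ∧ ¬ G.Adj b x) : False := by
  by_cases nc : ∀ x, w + 2 * m ≤ x → x < w + 18 * m → ¬ bad x → K1 G q M u v x →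
      ¬ err G q M m u v x ≤ 28 * β + 16 → G.Adj u (q x)
  · refine win_fin h3 np h hβ (k1_sparse h3 np h (by omega)
      (fun x => err G q M m u v x ≤ 28 * β + 16)
      (fun c c1 _ => low_err hβ (by omega) (fun x => ¬ bad x)) nc) y0 yu yv yo fun b b1 b2 => ?_
    obtain ⟨x, x0, x1⟩ := hw b b1 b2
    exact ⟨x, x0.1, x1⟩
  · push Not at nc
    obtain ⟨x, x1, x2, x3, x4, x5, x6⟩ := nc
    refine win_fin h3 np h' hβ (fun c c1 c2 => le_trans (cnt_mono fun i _ g => ⟨g.1, g.2.symm⟩)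
      (k1_sparse h3 np.symm h'.symm (by omega) (fun x => err G q' M m u v x ≤ 28 * β + 16)
        (fun c c1 _ => le_trans (cnt_mono fun i _ g => ⟨g.1, g.2.1.symm, g.2.2⟩)
          (low_err (G := G) (q := q') (M := M) (u := u) (v := v) hβ (by omega) (fun x => ¬ bad' x)))
        (fun z z1 z2 z3 z4 z5 => ?_) c c1 c2)) y0' yu yv yo fun b b1 b2 => ?_
    · rcases nc_pair h3 np (by omega) h h' x1 x2 z1 z2 x3 z3 x4 z4.symm x5 (by omega) with g | g
      exacts [absurd g.1 x6, g.2]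
    · obtain ⟨x, x0, x1⟩ := hw b b1 b2
      exact ⟨x, x0.2, x1⟩

theorem cnt_disj {p : ℕ → ℕ → Prop} {I : Finset ℕ} (n : ℕ)
    (h : ∀ r, ∀ k ∈ I, ∀ k' ∈ I, p k r → p k' r → k = k') : ∑ k ∈ I, cnt (p k) n ≤ n := by
  classical
  unfold cnt
  rw [Finset.sum_comm]
  refine le_trans (Finset.sum_le_card_nsmul _ _ 1 fun r _ => ?_) (by simp)
  have e : ∑ k ∈ I, ind (p k r) = (I.filter (fun k => p k r)).card := by
    rw [Finset.card_filter]; rfl
  rw [e]
  exact Finset.card_le_one.2 fun a ha b hb =>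
    h r a (mem_filter.1 ha).1 b (mem_filter.1 hb).1 (mem_filter.1 ha).2 (mem_filter.1 hb).2

/-- all far common neighbours lie in `Z` -/
def Hit (G : SimpleGraph V) (q : ℕ → V) (M : ℕ) (u v : V) (Z : Set V) (r : ℕ) : Prop :=
  Far G q M u v r ∧ ∀ a, a ∉ Seg q 0 M → a ≠ v → G.Adj (q r) a → G.Adj u a → a ∈ Z

theorem mk_win {q : ℕ → V} {w b : ℕ} {Z : Set V} (hz : Zn G u v q M) (hw : w + 21 * m ≤ M)
    (h1 : cnt (fun i => ¬ Clean G q M m u v (w + i)) (20 * m) ≤ b)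
    (h2 : cnt (fun i => Hit G q M u v Z (w + i) ∨ Hit G q M v u Z (w + i)) (20 * m) ≤ b)
    (dj : ∀ x, x ∈ Seg q 0 M → x ∈ Z → False) : ∃ bad, Win G u v q M m w (2 * b) Z bad := by
  obtain ⟨bad, b1, b2, b3⟩ := resid
    (fun r => ¬ Clean G q M m u v r ∨ (Hit G q M u v Z r ∨ Hit G q M v u Z r)) w (20 * m) m
  have b4 := cnt_or (fun i => ¬ Clean G q M m u v (w + i))
    (fun i => Hit G q M u v Z (w + i) ∨ Hit G q M v u Z (w + i)) (20 * m)
  refine ⟨bad, hz, hw, b1, by omega, fun r r1 r2 r3 => ?_, fun r r1 r2 r3 f => ?_,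
    fun r r1 r2 r3 f => ?_, dj⟩
  · by_contra hh
    exact r3 (b3 r r1 r2 (Or.inl hh))
  · by_contra hh
    refine r3 (b3 r r1 r2 (Or.inr (Or.inl ⟨f, fun a a0 a1 a2 a3 => ?_⟩)))
    by_contra a4
    exact hh ⟨a, a0, a4, a1, a2, a3⟩
  · by_contra hh
    refine r3 (b3 r r1 r2 (Or.inr (Or.inr ⟨f, fun a a0 a1 a2 a3 => ?_⟩)))
    by_contra a4
    exact hh ⟨a, a0, a4, a1, a2, a3⟩

theorem caseT (h3 : ∀ x y : V, x ≠ y → ∃ z, G.Adj x z ∧ G.Adj y z) (np : NP G u v (m + 3))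
    (hm : 10 ^ 12 ≤ m) (hM : 10 ^ 13 * (20 * m) + m ≤ M) {q : ℕ → ℕ → V} {J : Finset ℕ}
    (hJ : 2 * 10 ^ 12 ≤ J.card) (hz : ∀ i ∈ J, Zn G u v (q i) M)
    (dj : ∀ i ∈ J, ∀ k ∈ J, i ≠ k → ∀ x, x ∈ Seg (q i) 0 M → x ∈ Seg (q k) 0 M → False)
    (p1 : ∀ i ∈ J, cnt (Sta G (q i) u v u) (M - 1) ≤ 25 * m)
    (p2 : ∀ i ∈ J, cnt (Sta G (q i) u v v) (M - 1) ≤ 25 * m)
    {y : V} (y0 : ∀ i ∈ J, y ∉ Seg (q i) 0 M) (yu : y ≠ u) (yv : y ≠ v) (yo : Oth G u v y)
    (hw : ∀ b, G.Adj u b → G.Adj v b → ∃ x, (∀ i ∈ J, x ∉ Seg (q i) 0 M) ∧ x ≠ u ∧ x ≠ v ∧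
      x ≠ b ∧ ¬ G.Adj b x) : False := by
  have ew : ∀ i ∈ J, ∃ w, w + 21 * m ≤ M ∧
      cnt (fun r => ¬ Clean G (q i) M m u v (w + r)) (20 * m) ≤ m / 10 ^ 10 := by
    intro i hi
    have d := defects h3 np (hz i hi) (n := 10 ^ 13 * (20 * m)) (by omega) hM (p1 i hi) (p2 i hi)
    obtain ⟨k, hk, h1⟩ := slot (p := fun r => ¬ Clean G (q i) M m u v r) (J := 10 ^ 13)
      (l := 20 * m) (b := m / 10 ^ 10) (by norm_num) (by omega)
    have := Nat.mul_le_mul_right (20 * m) (show k + 1 ≤ 10 ^ 13 from hk)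
    rw [Nat.succ_mul] at this
    exact ⟨_, by omega, h1⟩
  choose! w w1 w2 using ew
  obtain ⟨I, sI, cI⟩ := Finset.exists_subset_card_eq (s := J) (n := 10 ^ 12) (by omega)
  obtain ⟨I', sI', cI'⟩ := Finset.exists_subset_card_eq (s := J \ I) (n := 10 ^ 12)
    (by rw [card_sdiff_of_subset sI]; omega)
  let H : ℕ → ℕ → ℕ := fun i k => cnt (fun r => Hit G (q i) M u v (Seg (q k) 0 M) (w i + r) ∨
    Hit G (q i) M v u (Seg (q k) 0 M) (w i + r)) (20 * m)
  have hH : ∀ i, ∀ K ⊆ J, ∑ k ∈ K, H i k ≤ 40 * m := by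
    intro i K hK
    have one : ∀ a b : V, ∑ k ∈ K, cnt (fun r => Hit G (q i) M a b (Seg (q k) 0 M) (w i + r))
        (20 * m) ≤ 20 * m := fun a b => by
      refine cnt_disj _ fun r k hk k' hk' g g' => ?_
      obtain ⟨x, x0, x1, x2, x3⟩ := g.1
      by_contra hne
      exact dj k (hK hk) k' (hK hk') hne x (g.2 x x0 x1 x2 x3) (g'.2 x x0 x1 x2 x3)
    have a1 := one u v
    have a2 := one v u
    refine le_trans (Finset.sum_le_sum fun k _ => cnt_or _ _ _) ?_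
    rw [Finset.sum_add_distrib]
    omega
  have sJ : I' ⊆ J := sI'.trans sdiff_subset
  obtain ⟨i, hi, k, hk, g1, g2⟩ := pair (H := H) (s := 40 * m) (b := m / 10 ^ 10) cI cI'
    (by norm_num) (fun i _ => hH i _ sJ) (fun k _ => hH k _ sI) (by omega)
  have hne : i ≠ k := fun e => (mem_sdiff.1 (sI' hk)).2 (e ▸ hi)
  obtain ⟨bad, W⟩ := mk_win (hz i (sI hi)) (w1 i (sI hi)) (w2 i (sI hi)) g1
    (dj i (sI hi) k (sJ hk) hne)
  obtain ⟨bad', W'⟩ := mk_win (hz k (sJ hk)) (w1 k (sJ hk)) (w2 k (sJ hk)) g2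
    (dj k (sJ hk) i (sI hi) hne.symm)
  refine two_win h3 np W W' (by omega) (y0 i (sI hi)) (y0 k (sJ hk)) yu yv yo fun b b1 b2 => ?_
  obtain ⟨x, x0, x1⟩ := hw b b1 b2
  exact ⟨x, ⟨x0 i (sI hi), x0 k (sJ hk)⟩, x1⟩

end Pool.Agent.Work.MP_193ce1_co.Lin
end

-- merged part: Pool.Agent.Work.MP_193ce1_co.Lin.Prep
section
namespace Pool.Agent.Work.MP_193ce1_co.Lin

open Pool.Agent.Work.MP_193ce1_co.Q Finset

variable {V : Type} {G : SimpleGraph V} {u v : V}

open Classical in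
theorem prep (h3 : ∀ x y : V, x ≠ y → ∃ z, G.Adj x z ∧ G.Adj y z) {m : ℕ}
    (np : NP G u v (m + 4)) {B : ℕ → Set V}
    (hB : ∀ i k, i ≠ k → ∀ w, w ∈ B i → w ∈ B k → False) (hu : ∀ i, u ∉ B i) (hv : ∀ i, v ∉ B i)
    {S0 K0 : Finset ℕ} (hSK : ∀ i, i ∈ S0 → i ∈ K0 → False) {a x : ℕ → V}
    (sa : ∀ l ∈ S0, a l ∈ B l) (sx : ∀ l ∈ S0, x l ∈ B l) (sax : ∀ l ∈ S0, G.Adj (a l) (x l))
    (sua : ∀ l ∈ S0, G.Adj u (a l)) (sux : ∀ l ∈ S0, ¬ G.Adj u (x l))
    (svx : ∀ l ∈ S0, ¬ G.Adj v (x l)) {Y : ℕ → ℕ → V} (yr : ∀ k ∈ K0, Ray G (Y k) m)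
    (ys : ∀ k ∈ K0, Seg (Y k) 0 m ⊆ B k) (yv : ∀ k ∈ K0, G.Adj v (Y k 0)) :
    ∃ S1 ⊆ S0, S0.card ≤ S1.card + K0.card ∧ ∃ f : ℕ → ℕ, ∀ l ∈ S1, ∀ k ∈ K0, k ≠ f l →
      ∃ n, n < m ∧ Y k n ∈ B k ∧ G.Adj (x l) (Y k n) ∧ G.Adj (Y k m) (Y k n) := by
  have down : ∀ k ∈ K0, PB G (Y k m) (Y k 0) (m + 1) (Seg (Y k) 0 m) := fun k hk =>
    ((yr k hk).run' (Nat.zero_le m) le_rfl).rev
  have hT : ∀ k ∈ K0, Y k m ∈ B k := fun k hk => ys k hk (mem_seg le_rfl)
  have nlk : ∀ l ∈ S0, ∀ k ∈ K0, l ≠ k := fun l hl k hk e => hSK l hl (e ▸ hk)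
  have con : ∀ l ∈ S0, ∀ k ∈ K0, ¬ G.Adj (a l) (Y k m) →
      ∃ n, n < m ∧ Y k n ∈ B k ∧ G.Adj (x l) (Y k n) ∧ G.Adj (Y k m) (Y k n) := by
    intro l hl k hk hn
    obtain ⟨z, z1, z2⟩ := h3 (x l) (Y k m)
      (fun e => hB l k (nlk l hl k hk) _ (sx l hl) (e ▸ hT k hk))
    by_cases hz : z ∈ Seg (Y k) 0 m
    · obtain ⟨n, -, h1, rfl⟩ := hz
      refine ⟨n, lt_of_le_of_ne h1 ?_, ys k hk (mem_seg h1), z1, z2⟩
      rintro rfl; exact z2.ne rfl
    · exfalso
      refine np _ _ _ ((((down k hk).cons z2 hz).cons z1.symm ?_).cons (sax l hl).symm ?_) ?_ ?_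
        (sua l hl) (yv k hk)
      · rintro (hh | hh)
        exacts [z1.ne hh, hB l k (nlk l hl k hk) _ (sx l hl) (ys k hk hh)]
      · rintro (hh | hh | hh)
        exacts [(sax l hl).ne hh, hn (hh ▸ z2.symm),
          hB l k (nlk l hl k hk) _ (sa l hl) (ys k hk hh)]
      · rintro (hh | hh | hh | hh)
        exacts [hu l (hh ▸ sa l hl), hu l (hh ▸ sx l hl), sux l hl (hh ▸ z1.symm),
          hu k (ys k hk hh)]
      · rintro (hh | hh | hh | hh)
        exacts [hv l (hh ▸ sa l hl), hv l (hh ▸ sx l hl), svx l hl (hh ▸ z1.symm),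
          hv k (ys k hk hh)]
  have star : ∀ l ∈ S0, ∀ l' ∈ S0, ∀ k ∈ K0, ∀ k' ∈ K0, k ≠ k' → G.Adj (a l) (Y k m) →
      G.Adj (a l') (Y k m) → G.Adj (a l') (Y k' m) → l = l' := by
    intro l hl l' hl' k hk k' hk' hkk e1 e2 e3
    by_contra hll
    refine np _ _ _ ((((down k' hk').cons e3.symm ?_).cons e2 ?_).cons e1.symm ?_) ?_ ?_
      (sua l hl) (yv k' hk')
    · exact fun hh => hB l' k' (nlk l' hl' k' hk') _ (sa l' hl') (ys k' hk' hh)
    · rintro (hh | hh)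
      exacts [e2.ne hh.symm, hB k k' hkk _ (hT k hk) (ys k' hk' hh)]
    · rintro (hh | hh | hh)
      exacts [e1.ne hh, hB l l' hll _ (sa l hl) (hh ▸ sa l' hl'),
        hB l k' (nlk l hl k' hk') _ (sa l hl) (ys k' hk' hh)]
    · rintro (hh | hh | hh | hh)
      exacts [hu l (hh ▸ sa l hl), hu k (hh ▸ hT k hk), hu l' (hh ▸ sa l' hl'),
        hu k' (ys k' hk' hh)]
    · rintro (hh | hh | hh | hh)
      exacts [hv l (hh ▸ sa l hl), hv k (hh ▸ hT k hk), hv l' (hh ▸ sa l' hl'),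
        hv k' (ys k' hk' hh)]
  have ef : ∀ l, ∃ f, (∃ k ∈ K0, G.Adj (a l) (Y k m)) → f ∈ K0 ∧ G.Adj (a l) (Y f m) := by
    intro l
    by_cases h : ∃ k ∈ K0, G.Adj (a l) (Y k m)
    · obtain ⟨k, hk⟩ := h
      exact ⟨k, fun _ => hk⟩
    · exact ⟨0, fun hh => absurd hh h⟩
  choose f hf using ef
  let multi : ℕ → Prop := fun l => ∃ k ∈ K0, G.Adj (a l) (Y k m) ∧ k ≠ f l
  have c1 : (S0.filter multi).card ≤ K0.card := by
    refine Finset.card_le_card_of_injOn f ?_ ?_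
    · intro l hl
      obtain ⟨-, k, hk, h1, -⟩ := Finset.mem_filter.1 (Finset.mem_coe.1 hl)
      exact Finset.mem_coe.2 (hf l ⟨k, hk, h1⟩).1
    · intro l hl l' hl' e
      obtain ⟨h0, k, hk, h1, -⟩ := Finset.mem_filter.1 (Finset.mem_coe.1 hl)
      obtain ⟨h0', k', hk', h1', h2'⟩ := Finset.mem_filter.1 (Finset.mem_coe.1 hl')
      have g := hf l ⟨k, hk, h1⟩
      have g' := hf l' ⟨k', hk', h1'⟩
      exact star l h0 l' h0' (f l') g'.1 k' hk' h2'.symm (e ▸ g.2) g'.2 h1'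
  have c2 := Finset.card_filter_add_card_filter_not (s := S0) multi
  refine ⟨S0.filter (fun l => ¬ multi l), filter_subset _ _, by omega, f, fun l hl k hk hne => ?_⟩
  exact con l (mem_filter.1 hl).1 k hk fun hh => (mem_filter.1 hl).2 ⟨k, hk, hh, hne⟩

/-- `x` and `T` have a common neighbour in `C` -/
def Con (G : SimpleGraph V) (C : Set V) (T x : V) : Prop := ∃ y ∈ C, G.Adj x y ∧ G.Adj T y

/-- union of the sets with index in `K` -/
def UC (C : ℕ → Set V) (K : Finset ℕ) : Set V := {w | ∃ k ∈ K, w ∈ C k}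

theorem hop {C : Set V} {T x x' : V} (hT : T ∈ C) (h : Con G C T x) (h' : Con G C T x') :
    ∃ y y' n, (n = 1 ∨ n = 3) ∧ G.Adj x y ∧ G.Adj x' y' ∧ PB G y y' n C := by
  obtain ⟨y, y1, y2, y3⟩ := h
  obtain ⟨y', z1, z2, z3⟩ := h'
  by_cases e : y = y'
  · subst e
    exact ⟨y, y, 1, Or.inl rfl, y2, z2, (PB.single y).mono (by rintro _ rfl; exact y1)⟩
  · refine ⟨y, y', 3, Or.inr rfl, y2, z2, (((PB.single y).snoc y3.symm (fun h => y3.ne h)).snoc z3
      ?_).mono ?_⟩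
    · rintro (h | h)
      exacts [z3.ne h.symm, e h.symm]
    · rintro _ (rfl | rfl | rfl)
      exacts [z1, hT, y1]

theorem tail {Z C : ℕ → Set V} {T s e : ℕ → V} {δ : ℕ → ℕ} {x1 : V} {I0 K0 : Finset ℕ}
    (dZ : ∀ i ∈ I0, ∀ k ∈ I0, i ≠ k → ∀ w, w ∈ Z i → w ∈ Z k → False)
    (dC : ∀ i ∈ K0, ∀ k ∈ K0, i ≠ k → ∀ w, w ∈ C i → w ∈ C k → False)
    (dZC : ∀ i ∈ I0, ∀ k ∈ K0, ∀ w, w ∈ Z i → w ∈ C k → False) (hT : ∀ k ∈ K0, T k ∈ C k)
    (xZ : ∀ i ∈ I0, x1 ∉ Z i) (xC : ∀ k ∈ K0, x1 ∉ C k) (c1 : ∀ k ∈ K0, Con G (C k) (T k) x1)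
    (wk : ∀ i ∈ I0, PB G (s i) (e i) (δ i + 1) (Z i))
    (cs : ∀ i ∈ I0, ∀ k ∈ K0, Con G (C k) (T k) (s i) ∧ Con G (C k) (T k) (e i)) (I : Finset ℕ) :
    I ⊆ I0 → ∀ K ⊆ K0, I.card < K.card → ∀ x0, (∀ k ∈ K, Con G (C k) (T k) x0) →
      ∃ y τ, G.Adj x0 y ∧ ∑ i ∈ I, δ i + 2 * (I.card + 1) ≤ τ ∧
        τ ≤ ∑ i ∈ I, δ i + 4 * (I.card + 1) ∧ PB G y x1 τ (insert x1 (UC Z I ∪ UC C K)) := by
  induction I using Finset.induction_on with
  | empty =>
    intro _ K hK hc x0 h0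
    obtain ⟨k, hk⟩ := Finset.card_pos.1 hc
    obtain ⟨y, y', n, hn, a1, a2, p⟩ := hop (hT k (hK hk)) (h0 k hk) (c1 k (hK hk))
    refine ⟨y, n + 1, a1, by simp; omega, by simp; omega,
      (p.snoc a2.symm (xC k (hK hk))).mono (Set.insert_subset_insert fun w hw => ?_)⟩
    exact Or.inr ⟨k, hk, hw⟩
  | insert i I hi ih =>
    intro hI K hK hc x0 h0
    rw [card_insert_of_notMem hi] at hc ⊢
    obtain ⟨k, hk⟩ := Finset.card_pos.1 (show 0 < K.card by omega)
    have i0 := hI (mem_insert_self _ _)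
    have sI : I ⊆ I0 := (subset_insert _ _).trans hI
    have sK : K.erase k ⊆ K0 := (erase_subset _ _).trans hK
    obtain ⟨y, y', n, hn, a1, a2, p⟩ := hop (hT k (hK hk)) (h0 k hk) (cs i i0 k (hK hk)).1
    obtain ⟨y2, τ, b1, b2, b3, p2⟩ := ih sI (K.erase k) sK
      (by rw [card_erase_of_mem hk]; omega) (e i) (fun k' hk' => (cs i i0 k' (sK hk')).2)
    refine ⟨y, n + (δ i + 1) + τ, a1, by rw [sum_insert hi]; omega, by rw [sum_insert hi]; omega,
      ((p.join (wk i i0) a2.symm (fun w g g' => dZC i i0 k (hK hk) w g' g)).join p2 b1 ?_).mono ?_⟩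
    · rintro w (g | g) (rfl | ⟨l, hl, g'⟩ | ⟨l, hl, g'⟩)
      exacts [xC k (hK hk) g, dZC l (sI hl) k (hK hk) w g' g,
        dC l (sK hl) k (hK hk) (ne_of_mem_erase hl) w g' g, xZ i i0 g,
        dZ l (sI hl) i i0 (ne_of_mem_of_not_mem hl hi) w g' g, dZC i i0 l (sK hl) w g g']
    · rintro w ((g | g) | rfl | ⟨l, hl, g⟩ | ⟨l, hl, g⟩)
      exacts [Or.inr (Or.inr ⟨k, hk, g⟩), Or.inr (Or.inl ⟨i, mem_insert_self _ _, g⟩), Or.inl rfl,
        Or.inr (Or.inl ⟨l, mem_insert_of_mem hl, g⟩), Or.inr (Or.inr ⟨l, mem_of_mem_erase hl, g⟩)]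

open Classical in
theorem avoid2 {B : ℕ → Set V} {S : Finset ℕ}
    (hB : ∀ i ∈ S, ∀ k ∈ S, i ≠ k → ∀ w, w ∈ B i → w ∈ B k → False) (d z : V) :
    ∃ S' ⊆ S, S.card ≤ S'.card + 2 ∧ ∀ i ∈ S', d ∉ B i ∧ z ∉ B i := by
  have one : ∀ w, (S.filter (fun i => w ∈ B i)).card ≤ 1 := fun w => by
    refine Finset.card_le_one.2 fun i hi k hk => ?_
    by_contra hne
    exact hB i (mem_filter.1 hi).1 k (mem_filter.1 hk).1 hne w (mem_filter.1 hi).2
      (mem_filter.1 hk).2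
  refine ⟨S.filter (fun i => ¬ (d ∈ B i ∨ z ∈ B i)), filter_subset _ _, ?_,
    fun i hi => not_or.1 (mem_filter.1 hi).2⟩
  have h1 := Finset.card_filter_add_card_filter_not (s := S) (fun i => d ∈ B i ∨ z ∈ B i)
  rw [filter_or] at h1
  have h2 := card_union_le (S.filter (fun i => d ∈ B i)) (S.filter (fun i => z ∈ B i))
  have := one d
  have := one z
  omega

open Classical in
theorem zoneS (h3 : ∀ x y : V, x ≠ y → ∃ z, G.Adj x z ∧ G.Adj y z) {n : ℕ}
    (np : NP G u v (n + 4)) {q : ℕ → V} {M s : ℕ} (hz : Zn G u v q M)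
    (rich : 3 * s < cnt (Sta G q u v u) (M - 1)) {C : ℕ → Set V} {K0 : Finset ℕ}
    (big : ∀ k ∈ K0, M < k) (dC : ∀ i ∈ K0, ∀ k ∈ K0, i ≠ k → ∀ w, w ∈ C i → w ∈ C k → False)
    (dZ : ∀ k ∈ K0, ∀ w, w ∈ Seg q 0 M → w ∈ C k → False) (cu : ∀ k ∈ K0, u ∉ C k)
    (cv : ∀ k ∈ K0, v ∉ C k) {Y : ℕ → ℕ → V} (yr : ∀ k ∈ K0, Ray G (Y k) n)
    (ys : ∀ k ∈ K0, Seg (Y k) 0 n ⊆ C k) (yv : ∀ k ∈ K0, G.Adj v (Y k 0)) :
    ∃ (S : Finset ℕ) (f : ℕ → ℕ), s ≤ S.card + K0.card ∧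
      (∀ r ∈ S, r + 2 ≤ M ∧ Oth G u v (q (r + 1)) ∧
        ∀ k ∈ K0, k ≠ f r → Con G (C k) (Y k n) (q (r + 1))) ∧
      ∀ R, ∀ Kc ⊆ K0, 2 * R ≤ Kc.card → 2 * (n + R + 1) ≤ S.card → ∃ c ∈ S, ∀ e, 2 ≤ e → e ≤ R →
        ∃ a, G.Adj u a ∧ PB G a (q (c + 1)) (2 * e + 2) (Seg q 0 M ∪ UC C Kc) := by
  rw [cnt_card] at rich
  obtain ⟨ρ, -, hρ⟩ := Finset.exists_lt_card_fiber_of_mul_lt_card_of_maps_to
    (s := (range (M - 1)).filter (Sta G q u v u)) (t := range 3) (f := fun r => r % 3) (n := s)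
    (fun r _ => mem_range.2 (Nat.mod_lt _ (by norm_num))) (by rwa [card_range])
  set F := ((range (M - 1)).filter (Sta G q u v u)).filter (fun r => r % 3 = ρ) with hF
  have mF : ∀ r ∈ F, r + 2 ≤ M ∧ r % 3 = ρ ∧ Oth G u v (q (r + 1)) ∧
      ∃ a, a ∈ Seg q r (r + 2) ∧ G.Adj a (q (r + 1)) ∧ G.Adj u a := by
    intro r hr
    obtain ⟨h1, h2⟩ := mem_filter.1 hr
    obtain ⟨h4, h5, h6⟩ := mem_filter.1 h1
    have h7 := mem_range.1 h4
    refine ⟨by omega, h2, h5, ?_⟩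
    rcases h6 with h6 | h6
    · exact ⟨_, ⟨r, le_rfl, by omega, rfl⟩, hz.ray.adj r (by omega), h6⟩
    · exact ⟨_, ⟨r + 2, by omega, le_rfl, rfl⟩, (hz.ray.adj (r + 1) (by omega)).symm, h6⟩
  have : Nonempty V := ⟨u⟩
  choose! f1 f2 f3 a a1 a2 a3 using mF
  have sub : ∀ r ∈ F, Seg q r (r + 2) ⊆ Seg q 0 M := fun r hr => Seg.mono (Nat.zero_le _) (f1 r hr)
  let B : ℕ → Set V := fun i => {w | (i ∈ K0 ∧ w ∈ C i) ∨ (i ∈ F ∧ w ∈ Seg q i (i + 2))}
  have hFK : ∀ i, i ∈ F → i ∈ K0 → False := fun i h1 h2 => by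
    have := f1 i h1; have := big i h2; omega
  have hB : ∀ i k, i ≠ k → ∀ w, w ∈ B i → w ∈ B k → False := by
    rintro i k hne w (⟨g1, g2⟩ | ⟨g1, g2⟩) (⟨g3, g4⟩ | ⟨g3, g4⟩)
    · exact dC i g1 k g3 hne w g2 g4
    · exact dZ i g1 w (sub k g3 g4) g2
    · exact dZ k g3 w (sub i g1 g2) g4
    · have := f2 i g1
      have := f2 k g3
      rcases Nat.lt_or_gt_of_ne hne with h | h
      · exact hz.ray.disj (by omega) (f1 k g3) w g2 g4
      · exact hz.ray.disj (by omega) (f1 i g1) w g4 g2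
  have sx : ∀ l ∈ F, q (l + 1) ∈ B l := fun l hl => Or.inr ⟨hl, l + 1, by omega, by omega, rfl⟩
  obtain ⟨S, sS, cS, f, hf⟩ := prep h3 np hB
    (by rintro i (g | g); exacts [cu i g.1 g.2, hz.nu (sub i g.1 g.2)])
    (by rintro i (g | g); exacts [cv i g.1 g.2, hz.nv (sub i g.1 g.2)]) hFK (a := a)
    (x := fun l => q (l + 1)) (fun l hl => Or.inr ⟨hl, a1 l hl⟩) sx a2 a3 (fun l hl => (f3 l hl).1)
    (fun l hl => (f3 l hl).2) yr (fun k hk w hw => Or.inl ⟨hk, ys k hk hw⟩) yv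
  refine ⟨S, f, by omega, fun r hr => ⟨f1 r (sS hr), f3 r (sS hr), fun k hk hne => ?_⟩,
    fun R Kc sK cK cS' => ?_⟩
  · obtain ⟨j, j1, -, j3, j4⟩ := hf r hr k hk hne
    exact ⟨_, ys k hk (mem_seg j1.le), j3, j4⟩
  obtain ⟨K1, k1, k2, k3⟩ : ∃ K1 ⊆ Kc, R ≤ K1.card ∧
      n + R + 1 ≤ (S.filter (fun l => f l ∉ K1)).card := by
    obtain ⟨K1, k1, k2⟩ := Finset.exists_subset_card_eq (s := Kc) (n := R) (by omega)
    by_cases h : n + R + 1 ≤ (S.filter (fun l => f l ∉ K1)).card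
    · exact ⟨K1, k1, k2.ge, h⟩
    · refine ⟨Kc \ K1, sdiff_subset, by rw [card_sdiff_of_subset k1]; omega, ?_⟩
      have h1 := Finset.card_filter_add_card_filter_not (s := S) (fun l => f l ∈ K1)
      have h2 : (S.filter (fun l => f l ∈ K1)).card ≤ (S.filter (fun l => f l ∉ Kc \ K1)).card :=
        card_le_card fun l hl => mem_filter.2 ⟨(mem_filter.1 hl).1,
          fun g => (mem_sdiff.1 g).2 (mem_filter.1 hl).2⟩
      omega
  set S2 := S.filter (fun l => f l ∉ K1) with hS2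
  have s2 : ∀ l ∈ S2, l ∈ F := fun l hl => sS (mem_filter.1 hl).1
  have con' : ∀ l ∈ S2, ∀ k ∈ K1,
      ∃ j, j < n ∧ Y k j ∈ B k ∧ G.Adj (q (l + 1)) (Y k j) ∧ G.Adj (Y k n) (Y k j) :=
    fun l hl k hk => hf l (mem_filter.1 hl).1 k (sK (k1 hk))
      (fun e => (mem_filter.1 hl).2 (e ▸ hk))
  choose! y hy using con'
  have ch := chain (G := G) (u := u) (m := n) hB (S2 := S2) (K1 := K1)
    (fun i h1 h2 => hFK i (s2 i h1) (sK (k1 h2))) (a := a) (x := fun l => q (l + 1))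
    (T := fun k => Y k n) (Y := Y) (y := y)
    (fun l hl => ⟨Or.inr ⟨s2 l hl, a1 l (s2 l hl)⟩, sx l (s2 l hl), a2 l (s2 l hl), a3 l (s2 l hl)⟩)
    (fun k hk => Or.inl ⟨sK (k1 hk), ys k (sK (k1 hk)) (mem_seg le_rfl)⟩) hy
  obtain ⟨c, hc⟩ := Finset.card_pos.1 (show 0 < S2.card by omega)
  refine ⟨c, (mem_filter.1 hc).1, fun e e1 e2 => ?_⟩
  obtain ⟨a', h1, p⟩ := ch e (by omega) c hc (S2.erase c) (erase_subset _ _) K1 subset_rfl
    (notMem_erase _ _) (by rw [card_erase_of_mem hc]; omega) (by omega) (by omega)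
  refine ⟨a', h1, p.mono ?_⟩
  rintro w (rfl | ⟨i, hi | hi, g | g⟩)
  · exact Or.inl (mem_seg (by have := f1 c (s2 c hc); omega))
  · exact (hFK i (s2 i (mem_of_mem_erase hi)) g.1).elim
  · exact Or.inl (sub i g.1 g.2)
  · exact Or.inr ⟨i, k1 hi, g.2⟩
  · exact Or.inl (sub i g.1 g.2)

end Pool.Agent.Work.MP_193ce1_co.Lin
end

-- merged part: Pool.Agent.Work.MP_193ce1_co.Lin.Add
section
namespace Pool.Agent.Work.MP_193ce1_co.Lin

open Finset

/-- number of elements of `[1, g]` missed by `F` -/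
noncomputable def gap (F : Set ℕ) (g : ℕ) : ℕ := cnt (fun i => 1 + i ∉ F) g

open Classical in
theorem gap_step {F E H : Set ℕ} {N T : ℕ} (h0 : 0 ∈ F) (e0 : 0 ∈ E)
    (hH : ∀ a ∈ F, ∀ b ∈ E, a + b ∈ H) (hE : ∀ g ≤ T, N * gap E g + g ≤ N * g) :
    ∀ g ≤ T, N * gap H g + gap F g ≤ N * gap F g := by
  intro g
  induction g using Nat.strong_induction_on with
  | _ g ih =>
    intro hg
    rcases Nat.eq_zero_or_pos g with rfl | hp
    · simp [gap, cnt]
    by_cases hF : g ∈ F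
    · obtain ⟨k, rfl⟩ : ∃ k, g = k + 1 := ⟨g - 1, by omega⟩
      have h1 := ih k (by omega) (by omega)
      unfold gap at h1 ⊢
      rw [cnt_succ, cnt_succ, ind_neg (p := 1 + k ∉ F) (not_not.2 (by rwa [Nat.add_comm])),
        ind_neg (p := 1 + k ∉ H) (not_not.2 (by rw [Nat.add_comm]; exact hH _ hF 0 e0))]
      exact h1
    · let f := Nat.findGreatest (fun i => i ∈ F) g
      have f1 : f ∈ F := Nat.findGreatest_spec (P := fun i => i ∈ F) (Nat.zero_le g) h0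
      have f2 : f ≤ g := Nat.findGreatest_le g
      have f3 : f ≠ g := fun e => hF (e ▸ f1)
      obtain ⟨d, hd⟩ := Nat.exists_eq_add_of_le f2
      have h1 := ih f (by omega) (by omega)
      have h2 := hE d (by omega)
      have h3 : gap F g = gap F f + d := by
        unfold gap
        rw [hd, cnt_add, cnt_all (n := d)]
        intro i hi
        exact Nat.findGreatest_is_greatest (P := fun i => i ∈ F) (n := g) (by omega) (by omega)
      have h4 : gap H g ≤ gap H f + gap E d := by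
        unfold gap
        rw [hd, cnt_add]
        refine Nat.add_le_add_left (cnt_mono fun i _ h hh => h ?_) _
        rw [show 1 + (f + i) = f + (1 + i) by omega]
        exact hH _ f1 _ hh
      have h5 := Nat.mul_le_mul_left N h4
      rw [h3]
      rw [Nat.mul_add] at h5 ⊢
      omega

/-- sums of one element of each `E i`, `i ∈ I` -/
def Rep (E : ℕ → Set ℕ) (I : Finset ℕ) : Set ℕ :=
  {n | ∃ f : ℕ → ℕ, (∀ i ∈ I, f i ∈ E i) ∧ ∑ i ∈ I, f i = n}

theorem rep_zero {E : ℕ → Set ℕ} {I : Finset ℕ} (h : ∀ i ∈ I, 0 ∈ E i) : 0 ∈ Rep E I :=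
  ⟨fun _ => 0, h, by simp⟩

theorem rep_half {E : ℕ → Set ℕ} {N T : ℕ} (hN : 0 < N) (I : Finset ℕ) (h : ∀ i ∈ I, 0 ∈ E i)
    (hE : ∀ i ∈ I, ∀ g ≤ T, N * gap (E i) g + g ≤ N * g) :
    2 * gap (Rep E I) T < T ∨ 2 * (N * gap (Rep E I) T) + I.card * T ≤ 2 * (N * T) := by
  induction I using Finset.induction_on with
  | empty =>
    have := Nat.mul_le_mul_left N (cnt_le (fun i => 1 + i ∉ Rep E ∅) T)
    right; simpa [gap] using this
  | insert a I ha ih =>
    have h1 := ih (fun i hi => h i (mem_insert_of_mem hi)) (fun i hi => hE i (mem_insert_of_mem hi))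
    have h2 := gap_step (F := Rep E I) (E := E a) (H := Rep E (insert a I)) (N := N) (T := T)
      (rep_zero fun i hi => h i (mem_insert_of_mem hi)) (h a (mem_insert_self _ _)) (by
        rintro x ⟨f, f1, rfl⟩ b hb
        refine ⟨Function.update f a b, fun i hi => ?_, ?_⟩
        · rcases mem_insert.1 hi with rfl | hi
          · simpa using hb
          · rw [Function.update_of_ne (ne_of_mem_of_not_mem hi ha)]; exact f1 i hi
        · rw [sum_insert ha, Function.update_self, Nat.add_comm]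
          congr 1
          exact sum_congr rfl fun i hi => Function.update_of_ne (ne_of_mem_of_not_mem hi ha) _ _)
      (hE a (mem_insert_self _ _)) T le_rfl
    have h3 : gap (Rep E (insert a I)) T ≤ gap (Rep E I) T :=
      Nat.le_of_mul_le_mul_left (le_trans (Nat.le_add_right _ _) h2) hN
    rw [card_insert_of_notMem ha, Nat.add_mul]
    omega

theorem rep_all {E : ℕ → Set ℕ} {N T : ℕ} (hN : 0 < N) {I : Finset ℕ} (hI : I.card = 2 * N + 2)
    (h : ∀ i ∈ I, 0 ∈ E i) (hE : ∀ i ∈ I, ∀ g ≤ T, N * gap (E i) g + g ≤ N * g) :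
    T ∈ Rep E I := by
  rcases Nat.eq_zero_or_pos T with rfl | hT
  · exact rep_zero h
  obtain ⟨I1, s1, c1⟩ := Finset.exists_subset_card_eq (s := I) (n := N + 1) (by omega)
  have c2 : (I \ I1).card = N + 1 := by rw [card_sdiff_of_subset s1]; omega
  have half : ∀ J ⊆ I, J.card = N + 1 → 2 * cnt (fun i => i ∉ Rep E J) (T + 1) < T := by
    intro J hJ cJ
    have h1 := rep_half (T := T) hN J (fun i hi => h i (hJ hi)) (fun i hi => hE i (hJ hi))
    have h2 : cnt (fun i => i ∉ Rep E J) (T + 1) = gap (Rep E J) T := by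
      rw [Nat.add_comm, cnt_add, cnt_none (n := 1)]
      · exact Nat.zero_add _
      · intro i hi
        rw [show i = 0 by omega]
        exact not_not.2 (rep_zero fun i hi => h i (hJ hi))
    rw [h2]
    rcases h1 with h1 | h1
    · exact h1
    · rw [cJ] at h1
      refine Nat.lt_of_mul_lt_mul_left (a := N) ?_
      nlinarith
  have g1 := half I1 s1 c1
  have g2 := half (I \ I1) sdiff_subset c2
  have g3 := cnt_refl (fun i => i ∉ Rep E (I \ I1)) (c := T) (n := T + 1) le_rfl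
  simp only [Nat.sub_self, Nat.zero_add] at g3
  have g4 := cnt_or (fun i => i ∉ Rep E I1) (fun i => T - i ∉ Rep E (I \ I1)) (T + 1)
  obtain ⟨a, ha, hn⟩ := ex_not (p := fun i => i ∉ Rep E I1 ∨ T - i ∉ Rep E (I \ I1)) (n := T + 1)
    (by omega)
  rw [not_or, not_not, not_not] at hn
  obtain ⟨⟨f, f1, f2⟩, f', f3, f4⟩ := hn
  refine ⟨fun i => if i ∈ I1 then f i else f' i, fun i hi => ?_, ?_⟩
  · by_cases h1 : i ∈ I1
    · simpa [h1] using f1 i h1
    · simpa [h1] using f3 i (mem_sdiff.2 ⟨hi, h1⟩)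
  · rw [← sum_sdiff s1, sum_congr rfl (g := f') (fun i hi => if_neg (mem_sdiff.1 hi).2),
      sum_congr rfl (s₁ := I1) (g := f) (fun i hi => if_pos hi)]
    change I1.sum f = a at f2
    change (I \ I1).sum f' = T - a at f4
    omega

/-- differences of `S`, plus at most `N` -/
def Dif (S : Finset ℕ) (N : ℕ) : Set ℕ :=
  {n | ∃ p ∈ S, ∃ p' ∈ S, p ≤ p' ∧ ∃ s ≤ N, n = p' - p + s}

open Classical in
theorem dif_dense {S : Finset ℕ} {N M K m : ℕ} (hS : ∀ p ∈ S, p ≤ M) (hM : M ≤ K * m)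
    (hc : 7 * m ≤ S.card) (hm : 0 < m) (hK : 2 * (K + 1) < 7 * N) :
    ∀ g ≤ m, N * gap (Dif S N) g + g ≤ N * g := by
  intro g hg
  have h1 := cnt_not (fun i => 1 + i ∈ Dif S N) g
  suffices h : g ≤ N * cnt (fun i => 1 + i ∈ Dif S N) g by
    unfold gap
    rw [← h1, Nat.mul_add, h1]
    omega
  rcases Nat.eq_zero_or_pos g with rfl | g0
  · exact Nat.zero_le _
  rcases Nat.lt_or_ge N g with hN | hN
  · have n0 : 0 < N := by omega
    have a1 := Nat.div_mul_le_self M g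
    have a2 := Nat.div_mul_le_self g N
    have a3 : 1 ≤ g / N := (Nat.le_div_iff_mul_le n0).2 (by omega)
    have a4 := Nat.lt_div_mul_add (a := g) n0
    have a5 : (M / g + 1) * (g / N + 1) < S.card := by
      refine lt_of_lt_of_le (Nat.lt_of_mul_lt_mul_right (a := N) ?_) hc
      generalize M / g = a at *
      generalize g / N = b at *
      have b1 : (b + 1) * N ≤ 2 * g := by nlinarith
      have b2 := Nat.mul_le_mul_left (a + 1) b1
      have b3 := Nat.mul_lt_mul_of_pos_right hK hm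
      nlinarith
    obtain ⟨y, -, hy⟩ := Finset.exists_lt_card_fiber_of_mul_lt_card_of_maps_to (s := S)
      (t := range (M / g + 1)) (f := fun p => p / g) (n := g / N + 1)
      (fun p hp => mem_range.2 (Nat.lt_succ_of_le (Nat.div_le_div_right (hS p hp))))
      (by rwa [card_range])
    set F := S.filter (fun p => p / g = y) with hF
    obtain ⟨p0, hp0, hmin⟩ := Finset.exists_min_image F id (Finset.card_pos.1 (by omega))
    have c1 : (F.erase p0).card ≤ cnt (fun i => 1 + i ∈ Dif S N) g := by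
      rw [cnt_card]
      refine Finset.card_le_card_of_injOn (fun p => p - p0 - 1) (fun p hp => ?_)
        fun p hp p' hp' e => ?_
      · obtain ⟨h2, h3⟩ := mem_erase.1 (mem_coe.1 hp)
        have h4 : p0 ≤ p := hmin p h3
        have h5 := (mem_filter.1 h3).2
        have h6 := (mem_filter.1 hp0).2
        have h7 := Nat.lt_div_mul_add (a := p) g0
        have h8 := Nat.div_mul_le_self p0 g
        rw [h5] at h7
        rw [h6] at h8
        exact mem_coe.2 (mem_filter.2 ⟨mem_range.2 (by beta_reduce; omega), p0,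
          (mem_filter.1 hp0).1, p, (mem_filter.1 h3).1, h4, 0, Nat.zero_le _,
          by beta_reduce; omega⟩)
      · obtain ⟨h2, h3⟩ := mem_erase.1 (mem_coe.1 hp)
        obtain ⟨h2', h3'⟩ := mem_erase.1 (mem_coe.1 hp')
        have h4 : p0 ≤ p := hmin p h3
        have h4' : p0 ≤ p' := hmin p' h3'
        simp only at e
        omega
    rw [card_erase_of_mem hp0] at c1
    have c2 := Nat.mul_le_mul_left N (show g / N + 1 ≤ cnt (fun i => 1 + i ∈ Dif S N) g by omega)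
    nlinarith
  · obtain ⟨p, hp⟩ := Finset.card_pos.1 (show 0 < S.card by omega)
    have c1 := cnt_le_of_le (fun i => 1 + i ∈ Dif S N) (show 1 ≤ g from g0)
    rw [cnt_all (n := 1) (fun i hi => ⟨p, hp, p, hp, le_rfl, 1, by omega, by omega⟩)] at c1
    nlinarith

theorem walks {S : ℕ → Finset ℕ} {N M K m T : ℕ} {I : Finset ℕ} (hI : I.card = 2 * N + 2)
    (hS : ∀ i ∈ I, ∀ p ∈ S i, p ≤ M) (hM : M ≤ K * m) (hc : ∀ i ∈ I, 7 * m ≤ (S i).card)
    (hm : 0 < m) (hK : 2 * (K + 1) < 7 * N) (hT : T ≤ m) :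
    ∃ s e : ℕ → ℕ, (∀ i ∈ I, s i ∈ S i ∧ e i ∈ S i ∧ s i ≤ e i) ∧ ∑ i ∈ I, (e i - s i) ≤ T ∧
      T ≤ ∑ i ∈ I, (e i - s i) + (2 * N + 2) * N := by
  obtain ⟨f, f1, f2⟩ := rep_all (E := fun i => Dif (S i) N) (N := N) (T := T) (by omega) hI
    (fun i hi => by
      obtain ⟨p, hp⟩ := Finset.card_pos.1 (show 0 < (S i).card by have := hc i hi; omega)
      exact ⟨p, hp, p, hp, le_rfl, 0, Nat.zero_le _, by omega⟩)
    (fun i hi g hg => dif_dense (hS i hi) hM (hc i hi) hm hK g (by omega))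
  choose! s hs e he hse r hr hf using f1
  refine ⟨s, e, fun i hi => ⟨hs i hi, he i hi, hse i hi⟩, ?_, ?_⟩
  · rw [← f2]
    exact sum_le_sum fun i hi => by have := hf i hi; omega
  · rw [← f2, ← hI, ← smul_eq_mul, ← sum_const, ← sum_add_distrib]
    exact sum_le_sum fun i hi => by have := hf i hi; have := hr i hi; omega

end Pool.Agent.Work.MP_193ce1_co.Lin
end

-- merged part: Pool.Agent.Work.MP_193ce1_co.Lin.CaseS
section
namespace Pool.Agent.Work.MP_193ce1_co.Lin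

open Pool.Agent.Work.MP_193ce1_co.Q Finset

variable {V : Type} {G : SimpleGraph V} {u v : V}

theorem caseS (h3 : ∀ x y : V, x ≠ y → ∃ z, G.Adj x z ∧ G.Adj y z) {n M : ℕ}
    (np : NP G u v (n + 4)) (hn : 3 * 10 ^ 28 ≤ n) (hM : M ≤ 3 * 10 ^ 14 * (n + 1))
    {q : ℕ → ℕ → V} {J : Finset ℕ} (hJ : 2 * 10 ^ 14 + 6 ≤ J.card)
    (hz : ∀ i ∈ J, Zn G u v (q i) M)
    (dj : ∀ i ∈ J, ∀ k ∈ J, i ≠ k → ∀ x, x ∈ Seg (q i) 0 M → x ∈ Seg (q k) 0 M → False)
    (rich : ∀ i ∈ J, 25 * (n + 1) < cnt (Sta G (q i) u v u) (M - 1))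
    {C : ℕ → Set V} {K0 : Finset ℕ} (hK : K0.card = 3 * 10 ^ 28) (big : ∀ k ∈ K0, M < k)
    (dC : ∀ i ∈ K0, ∀ k ∈ K0, i ≠ k → ∀ w, w ∈ C i → w ∈ C k → False)
    (dZ : ∀ i ∈ J, ∀ k ∈ K0, ∀ w, w ∈ Seg (q i) 0 M → w ∈ C k → False) (cu : ∀ k ∈ K0, u ∉ C k)
    (cv : ∀ k ∈ K0, v ∉ C k) {Y : ℕ → ℕ → V} (yr : ∀ k ∈ K0, Ray G (Y k) n)
    (ys : ∀ k ∈ K0, Seg (Y k) 0 n ⊆ C k) (yv : ∀ k ∈ K0, G.Adj v (Y k 0)) : False := by
  have ez := fun i hi => zoneS h3 np (s := 8 * (n + 1)) (hz i hi)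
    (lt_of_le_of_lt (by omega) (rich i hi)) big dC (dZ i hi) cu cv yr ys yv
  choose! S f c1 c2 c3 using ez
  obtain ⟨i0, hi0⟩ := Finset.card_pos.1 (show 0 < J.card by omega)
  obtain ⟨p0, hp0⟩ := Finset.card_pos.1 (show 0 < (S i0).card by have := c1 i0 hi0; omega)
  obtain ⟨x1, x2, x3⟩ := c2 i0 hi0 p0 hp0
  have xm : q i0 (p0 + 1) ∈ Seg (q i0) 0 M := mem_seg (by omega)
  obtain ⟨d, d1, d2⟩ := h3 (q i0 (p0 + 1)) v ((hz i0 hi0).nev (by omega))
  obtain ⟨z, z1, z2⟩ := h3 _ d d1.ne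
  obtain ⟨J2, j1, j2, j3⟩ := avoid2 (B := fun i => Seg (q i) 0 M) (S := J.erase i0)
    (fun i hi k hk => dj i (mem_of_mem_erase hi) k (mem_of_mem_erase hk)) d z
  rw [card_erase_of_mem hi0] at j2
  have sJ : J2 ⊆ J := j1.trans (erase_subset _ _)
  obtain ⟨ic, hic⟩ := Finset.card_pos.1 (show 0 < J2.card by omega)
  obtain ⟨I, sI, cI⟩ := Finset.exists_subset_card_eq (s := J2.erase ic) (n := 2 * 10 ^ 14 + 2)
    (by rw [card_erase_of_mem hic]; omega)
  have sI2 : I ⊆ J2 := sI.trans (erase_subset _ _)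
  have sIJ : I ⊆ J := sI2.trans sJ
  obtain ⟨K2, k1, k2, k3⟩ := avoid2 dC d z
  obtain ⟨R, hR⟩ : ∃ R, R = 10 ^ 28 + 10 ^ 15 := ⟨_, rfl⟩
  obtain ⟨Kc, k4, k5⟩ := Finset.exists_subset_card_eq (s := K2) (n := 2 * R) (by omega)
  obtain ⟨c, hc, ch⟩ := c3 ic (sJ hic) R Kc (k4.trans k1) k5.ge
    (by have := c1 ic (sJ hic); omega)
  obtain ⟨s, e, w1, w2, w3⟩ := walks (S := S) (N := 10 ^ 14) (M := M) (K := 3 * 10 ^ 14)
    (m := n + 1) (T := n - 8 * 10 ^ 14 - 16) cI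
    (fun i hi p hp => by have := (c2 i (sIJ hi) p hp).1; omega) hM
    (fun i hi => by have := c1 i (sIJ hi); omega) (by omega) (by norm_num) (by omega)
  let X : Finset ℕ := insert (f ic c) (insert (f i0 p0)
    (I.image (fun i => f i (s i)) ∪ I.image (fun i => f i (e i))))
  have cX : X.card ≤ 4 * 10 ^ 14 + 6 := by
    have a1 := card_insert_le (f ic c) (insert (f i0 p0)
      (I.image (fun i => f i (s i)) ∪ I.image (fun i => f i (e i))))
    have a2 := card_insert_le (f i0 p0) (I.image (fun i => f i (s i)) ∪ I.image (fun i => f i (e i)))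
    have a3 := card_union_le (I.image (fun i => f i (s i))) (I.image (fun i => f i (e i)))
    have a4 := card_image_le (s := I) (f := fun i => f i (s i))
    have a5 := card_image_le (s := I) (f := fun i => f i (e i))
    simp only [X]
    omega
  let Kt := (K2 \ Kc) \ X
  have cK : I.card < Kt.card := by
    have a1 := le_card_sdiff X (K2 \ Kc)
    rw [card_sdiff_of_subset k4] at a1
    simp only [Kt]
    omega
  have t2 : ∀ k ∈ Kt, k ∈ K2 := fun k hk => (mem_sdiff.1 (mem_sdiff.1 hk).1).1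
  have t0 : ∀ k ∈ Kt, k ∈ K0 := fun k hk => k1 (t2 k hk)
  have tX : ∀ k ∈ Kt, ∀ j ∈ X, k ≠ j := fun k hk j hj e => (mem_sdiff.1 hk).2 (e ▸ hj)
  obtain ⟨y, τ, y1, τ1, τ2, p2⟩ := tail (G := G) (Z := fun i => Seg (q i) 0 M) (C := C)
    (T := fun k => Y k n) (s := fun i => q i (s i + 1)) (e := fun i => q i (e i + 1))
    (δ := fun i => e i - s i) (x1 := q i0 (p0 + 1)) (I0 := I) (K0 := Kt)
    (fun i hi k hk => dj i (sIJ hi) k (sIJ hk)) (fun i hi k hk => dC i (t0 i hi) k (t0 k hk))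
    (fun i hi k hk => dZ i (sIJ hi) k (t0 k hk)) (fun k hk => ys k (t0 k hk) (mem_seg le_rfl))
    (fun i hi => dj i0 hi0 i (sIJ hi) (ne_of_mem_erase (j1 (sI2 hi))).symm _ xm)
    (fun k hk => dZ i0 hi0 k (t0 k hk) _ xm)
    (fun k hk => x3 k (t0 k hk) (tX k hk _ (by simp [X])))
    (fun i hi => by
      obtain ⟨g1, g2, g3⟩ := w1 i hi
      have := (c2 i (sIJ hi) _ g2).1
      exact (((hz i (sIJ hi)).ray.run' (a := s i + 1) (b := e i + 1) (by omega) (by omega)).cast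
        (by omega)).mono (Seg.mono (Nat.zero_le _) (by omega)))
    (fun i hi k hk => by
      obtain ⟨g1, g2, g3⟩ := w1 i hi
      refine ⟨(c2 i (sIJ hi) _ g1).2.2 k (t0 k hk) (tX k hk _ ?_),
        (c2 i (sIJ hi) _ g2).2.2 k (t0 k hk) (tX k hk _ ?_)⟩
      · exact mem_insert_of_mem (mem_insert_of_mem (mem_union_left _ (mem_image_of_mem _ hi)))
      · exact mem_insert_of_mem (mem_insert_of_mem (mem_union_right _ (mem_image_of_mem _ hi))))
    I subset_rfl Kt subset_rfl cK (q ic (c + 1))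
    (fun k hk => (c2 ic (sJ hic) c hc).2.2 k (t0 k hk) (tX k hk _ (by simp [X])))
  obtain ⟨a, a1, p1⟩ := ch ((n + 1 - τ) / 2) (by omega) (by omega)
  have p := p1.join p2 y1 (by
    rintro w (g | ⟨k, hk, g⟩) (rfl | ⟨l, hl, g'⟩ | ⟨l, hl, g'⟩)
    · exact dj ic (sJ hic) i0 hi0 (ne_of_mem_erase (j1 hic)) _ g xm
    · exact dj l (sIJ hl) ic (sJ hic) (ne_of_mem_erase (sI hl)) _ g' g
    · exact dZ ic (sJ hic) l (t0 l hl) _ g g'
    · exact dZ i0 hi0 k (k1 (k4 hk)) _ xm g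
    · exact dZ l (sIJ hl) k (k1 (k4 hk)) _ g' g
    · exact dC k (k1 (k4 hk)) l (t0 l hl)
        (fun e => (mem_sdiff.1 (mem_sdiff.1 hl).1).2 (e ▸ hk)) _ g g')
  have out : ∀ b, b ≠ q i0 (p0 + 1) → (∀ i ∈ J2, b ∉ Seg (q i) 0 M) → (∀ k ∈ K2, b ∉ C k) →
      b ∉ (Seg (q ic) 0 M ∪ UC C Kc) ∪
        insert (q i0 (p0 + 1)) (UC (fun i => Seg (q i) 0 M) I ∪ UC C Kt) := by
    rintro b b1 b2 b3 ((g | ⟨k, hk, g⟩) | g | ⟨l, hl, g⟩ | ⟨l, hl, g⟩)
    exacts [b2 ic hic g, b3 k (k4 hk) g, b1 g, b2 l (sI2 hl) g, b3 l (t2 l hl) g]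
  have nd := out d d1.ne.symm (fun i hi => (j3 i hi).1) (fun k hk => (k3 k hk).1)
  have nz := out z z1.ne.symm (fun i hi => (j3 i hi).2) (fun k hk => (k3 k hk).2)
  have nu := out u ((hz i0 hi0).neu (by omega)).symm (fun i hi => (hz i (sJ hi)).nu)
    (fun k hk => cu k (k1 hk))
  have nv := out v ((hz i0 hi0).nev (by omega)).symm (fun i hi => (hz i (sJ hi)).nv)
    (fun k hk => cv k (k1 hk))
  have du : u ≠ d := fun e => x2.1 (e ▸ d1.symm)
  rcases Nat.mod_two_eq_zero_or_one (n + 1 - τ) with h2 | h2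
  · refine np _ _ _ ((p.snoc d1 nd).cast (by omega)) ?_ ?_ a1 d2
    · rintro (hh | hh)
      exacts [du hh, nu hh]
    · rintro (hh | hh)
      exacts [d2.ne hh, nv hh]
  · refine np _ _ _ (((p.snoc z1 nz).snoc z2.symm ?_).cast (by omega)) ?_ ?_ a1 d2
    · rintro (hh | hh)
      exacts [z2.ne hh, nd hh]
    · rintro (hh | hh | hh)
      exacts [du hh, x2.1 (hh ▸ z1.symm), nu hh]
    · rintro (hh | hh | hh)
      exacts [d2.ne hh, x2.2 (hh ▸ z1.symm), nv hh]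

end Pool.Agent.Work.MP_193ce1_co.Lin
end

-- merged part: Pool.Agent.Work.MP_193ce1_co.Lin.Main
section
namespace Pool.Agent.Work.MP_193ce1_co.Lin

open Pool.Agent.Work.MP_193ce1_co.Q Finset

variable {V : Type} {G : SimpleGraph V}

theorem sh_ray {P : ℕ → V} {L c M : ℕ} (h : Ray G P L) (hc : c + M ≤ L) :
    Ray G (fun i => P (c + i)) M := by
  refine ⟨fun a ha b hb e => ?_, fun a ha => h.adj (c + a) (by omega)⟩
  have := h.inj _ (by omega) _ (by omega) e
  omega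

theorem sh_seg {P : ℕ → V} {c M : ℕ} : Seg (fun i => P (c + i)) 0 M ⊆ Seg P c (c + M) := by
  rintro _ ⟨i, -, hi, rfl⟩
  exact ⟨c + i, by omega, by omega, rfl⟩

theorem mul_step {a b N : ℕ} (h : a < b) : a * N + N ≤ b * N := by
  have := Nat.mul_le_mul_right N (show a + 1 ≤ b from h)
  rwa [Nat.succ_mul] at this

open Classical in
theorem coreL (h3 : ∀ x y : V, x ≠ y → ∃ z, G.Adj x z ∧ G.Adj y z) {P : ℕ → V} {L t : ℕ}
    (hP : Ray G P (L + 1)) (ht : 10 ^ 29 ≤ t) (hL : 10 ^ 30 * t ≤ L)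
    (np : NP G (P 0) (P (L + 1)) t) : False := by
  obtain ⟨N, hN⟩ : ∃ N, N = 5 * t + 1 := ⟨_, rfl⟩
  obtain ⟨n, hn⟩ : ∃ n, t = n + 4 := ⟨t - 4, by omega⟩
  obtain ⟨M, hM⟩ : ∃ M, M = 10 ^ 13 * (20 * (n + 1)) + (n + 1) := ⟨_, rfl⟩
  obtain ⟨W, hW⟩ : ∃ W, W = M + 1 := ⟨_, rfl⟩
  obtain ⟨R, hR⟩ : ∃ R, R = 3 * 10 ^ 28 := ⟨_, rfl⟩
  obtain ⟨Z, hZ⟩ : ∃ Z, Z = 5 * 10 ^ 14 := ⟨_, rfl⟩
  have tot : R * N + Z * W + t ≤ L := by rw [hR, hZ]; omega
  have bd : ∀ b < R, b * N + N ≤ R * N := fun b hb => mul_step hb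
  have zd : ∀ i < Z, i * W + W ≤ Z * W := fun i hi => mul_step hi
  have hL2 : 5 * t + 1 ≤ R * N := by have := bd 0 (by omega); omega
  have nu : ∀ {a b : ℕ}, 1 ≤ a → b ≤ L → P 0 ∉ Seg P a b := fun ha hb =>
    not_seg hP (by omega) (by omega) (by omega)
  have nv : ∀ {a b : ℕ}, b ≤ L → P (L + 1) ∉ Seg P a b := fun hb =>
    not_seg hP (by omega) (by omega) (by omega)
  have ne : ∀ a ≤ L + 1, ∀ b ≤ L + 1, a ≠ b → P a ≠ P b := fun a ha b hb h e =>
    h (hP.inj a ha b hb e)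
  have aA : G.Adj (P 0) (P 1) := hP.adj 0 (by omega)
  have aD : G.Adj (P (L + 1)) (P L) := (hP.adj L (by omega)).symm
  have hw : ∀ b, G.Adj (P 0) b → G.Adj (P (L + 1)) b → ∃ w, w ∉ Seg P t (L + 1 - t) ∧
      w ≠ P 0 ∧ w ≠ P (L + 1) ∧ w ≠ b ∧ ¬ G.Adj b w := by
    intro b b1 b2
    by_cases hb : b ∈ Seg P 1 (t - 1)
    · have hb' : b ∉ Seg P (L + 2 - t) L := fun hh => hP.disj (by omega) (by omega) b hb hh
      refine ⟨P (L + 2 - t), not_seg hP (by omega) (by omega) (by omega),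
        ne _ (by omega) _ (by omega) (by omega), ne _ (by omega) _ (by omega) (by omega),
        fun e => hb' ⟨_, le_rfl, by omega, e⟩, fun hh => ?_⟩
      refine np _ _ _ (((hP.run' (a := L + 2 - t) (b := L) (by omega) (by omega)).cons hh.symm
        hb').cast (by omega)) ?_ ?_ b1 aD
      · rintro (h | h)
        exacts [b1.ne h, nu (by omega) le_rfl h]
      · rintro (h | h)
        exacts [b2.ne h, nv le_rfl h]
    · refine ⟨P (t - 1), not_seg hP (by omega) (by omega) (by omega),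
        ne _ (by omega) _ (by omega) (by omega), ne _ (by omega) _ (by omega) (by omega),
        fun e => hb ⟨_, by omega, le_rfl, e⟩, fun hh => ?_⟩
      refine np _ _ _ (((hP.run' (a := 1) (b := t - 1) (by omega) (by omega)).snoc hh.symm
        hb).cast (by omega)) ?_ ?_ aA b2
      · rintro (h | h)
        exacts [b1.ne h, nu le_rfl (by omega) h]
      · rintro (h | h)
        exacts [b2.ne h, nv (by omega) h]
  have hw' : ∀ b, G.Adj (P 0) b → G.Adj (P (L + 1)) b →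
      ∃ w, w ≠ P 0 ∧ w ≠ P (L + 1) ∧ w ≠ b ∧ ¬ G.Adj b w := fun b b1 b2 => by
    obtain ⟨w, -, h⟩ := hw b b1 b2
    exact ⟨w, h⟩
  have wA : ¬ G.Adj (P 0) (P (L + 1 - t)) := fun hh =>
    np _ _ _ ((hP.run' (a := L + 1 - t) (b := L) (by omega) (by omega)).cast (by omega))
      (nu (by omega) le_rfl) (nv le_rfl) hh aD
  have wD : ¬ G.Adj (P (L + 1)) (P t) := fun hh =>
    np _ _ _ ((hP.run' (a := 1) (b := t) (by omega) (by omega)).cast (by omega))
      (nu le_rfl (by omega)) (nv (by omega)) aA hh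
  let p : ℕ → ℕ → V := fun b i => P (b * N + 1 + i)
  have rp : ∀ b < R, Ray G (p b) (5 * t) := fun b hb => sh_ray hP (by have := bd b hb; omega)
  have sp : ∀ b, Seg (p b) 0 (5 * t) ⊆ Seg P (b * N + 1) (b * N + 1 + 5 * t) := fun b => sh_seg
  have pu : ∀ b < R, P 0 ∉ Seg (p b) 0 (5 * t) := fun b hb hh =>
    nu (by omega) (by have := bd b hb; omega) (sp b hh)
  have pv : ∀ b < R, P (L + 1) ∉ Seg (p b) 0 (5 * t) := fun b hb hh =>
    nv (by have := bd b hb; omega) (sp b hh)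
  have no : ∀ {z : V} {b : ℕ}, (¬ ∃ r ≤ 5 * t, G.Adj z (p b r)) →
      ∀ w ∈ Seg (p b) 0 (5 * t), ¬ G.Adj z w := by
    rintro z b h w ⟨i, -, hi, rfl⟩ hh
    exact h ⟨i, hi, hh⟩
  have hAD : ∀ b < R, (∃ r ≤ 5 * t, G.Adj (P 0) (p b r)) ∧
      (∃ r ≤ 5 * t, G.Adj (P (L + 1)) (p b r)) := by
    intro b hb
    by_cases hA : ∃ r ≤ 5 * t, G.Adj (P 0) (p b r) <;>
      by_cases hD : ∃ r ≤ 5 * t, G.Adj (P (L + 1)) (p b r)
    · exact ⟨hA, hD⟩
    · obtain ⟨r, hr, hA⟩ := hA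
      exact (case2 h3 np (by omega) (rp b hb) le_rfl (pu b hb) (pv b hb) (no hD) hr hA
        (ne _ (by omega) _ (by omega) (by omega)) (ne _ (by omega) _ (by omega) (by omega)) wA).elim
    · obtain ⟨r, hr, hD⟩ := hD
      exact (case2 h3 np.symm (by omega) (rp b hb) le_rfl (pv b hb) (pu b hb) (no hA) hr hD
        (ne _ (by omega) _ (by omega) (by omega)) (ne _ (by omega) _ (by omega) (by omega)) wD).elim
    · exact (case1 h3 np (by omega) (rp b hb) le_rfl (pu b hb) (pv b hb) (no hA) (no hD) hw').elim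
  have R0 : 0 < R := by omega
  obtain ⟨r, hr, hO⟩ : ∃ r ≤ 5 * t, Oth G (P 0) (P (L + 1)) (p 0 r) := by
    by_contra hh
    obtain ⟨⟨r0, hr0, hA⟩, r1, hr1, hD⟩ := hAD 0 R0
    refine case3 h3 np (by omega) (rp 0 R0) le_rfl (pu 0 R0) (pv 0 R0) (fun r hr => ?_) hr0 hA hr1 hD
    by_contra h
    exact hh ⟨r, hr, not_or.1 h⟩
  let q : ℕ → ℕ → V := fun i r => P (R * N + 1 + i * W + r)
  have sq : ∀ i, Seg (q i) 0 M ⊆ Seg P (R * N + 1 + i * W) (R * N + 1 + i * W + M) :=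
    fun i => sh_seg
  have hz : ∀ i < Z, Zn G (P 0) (P (L + 1)) (q i) M := fun i hi => by
    have := zd i hi
    exact ⟨sh_ray hP (by omega), fun h => nu (by omega) (by omega) (sq i h),
      fun h => nv (by omega) (sq i h)⟩
  have dj : ∀ i < Z, ∀ k < Z, i ≠ k → ∀ x, x ∈ Seg (q i) 0 M → x ∈ Seg (q k) 0 M → False := by
    intro i hi k hk hne x g g'
    have := zd i hi
    have := zd k hk
    rcases Nat.lt_or_gt_of_ne hne with h | h
    · have := mul_step (N := W) h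
      exact hP.disj (by omega) (by omega) x (sq i g) (sq k g')
    · have := mul_step (N := W) h
      exact hP.disj (by omega) (by omega) x (sq k g') (sq i g)
  have dp : ∀ b < R, ∀ i < Z, ∀ x, x ∈ Seg (p b) 0 (5 * t) → x ∈ Seg (q i) 0 M → False := by
    intro b hb i hi x g g'
    have := bd b hb
    have := zd i hi
    exact hP.disj (by omega) (by omega) x (sp b g) (sq i g')
  have S : ∀ a b : V, NP G a b t → (∀ i < Z, Zn G a b (q i) M) →
      (∀ k < R, a ∉ Seg (p k) 0 (5 * t)) → (∀ k < R, b ∉ Seg (p k) 0 (5 * t)) →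
      (∀ k < R, ∃ r ≤ 5 * t, G.Adj b (p k r)) → ∀ J ⊆ range Z, 2 * 10 ^ 14 + 6 ≤ J.card →
      (∀ i ∈ J, 25 * (n + 1) < cnt (Sta G (q i) a b a) (M - 1)) → False := by
    intro a b np' hz' au bv hb J sJ cJ rich
    have mK : ∀ k ∈ Ico W (W + R), k - W < R := fun k hk => by have := mem_Ico.1 hk; omega
    have ry : ∀ k ∈ Ico W (W + R), ∃ Y, Ray G Y n ∧ Seg Y 0 n ⊆ Seg (p (k - W)) 0 (5 * t) ∧
        G.Adj b (Y 0) := by
      intro k hk
      obtain ⟨r, hr, h⟩ := hb _ (mK k hk)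
      obtain ⟨Y, h1, h2, h4⟩ := (rp _ (mK k hk)).sub (m := n) (by omega) hr
      exact ⟨Y, h1, h2, h4 ▸ h⟩
    have : Nonempty V := ⟨a⟩
    choose! Y yr ys yv using ry
    refine caseS h3 (hn ▸ np') (by omega) (by omega) cJ (fun i hi => hz' i (mem_range.1 (sJ hi)))
      (fun i hi k hk => dj i (mem_range.1 (sJ hi)) k (mem_range.1 (sJ hk))) rich
      (C := fun k => Seg (p (k - W)) 0 (5 * t)) (K0 := Ico W (W + R)) (by rw [Nat.card_Ico]; omega)
      (fun k hk => by have := mem_Ico.1 hk; omega) (fun i hi k hk hne x g g' => ?_)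
      (fun i hi k hk x g g' => dp _ (mK k hk) i (mem_range.1 (sJ hi)) x g' g)
      (fun k hk => au _ (mK k hk)) (fun k hk => bv _ (mK k hk)) yr ys yv
    have := bd _ (mK i hi)
    have := bd _ (mK k hk)
    have := mem_Ico.1 hi
    have := mem_Ico.1 hk
    rcases Nat.lt_or_gt_of_ne (show i - W ≠ k - W by omega) with h | h
    · have := mul_step (N := N) h
      exact hP.disj (by omega) (by omega) x (sp _ g) (sp _ g')
    · have := mul_step (N := N) h
      exact hP.disj (by omega) (by omega) x (sp _ g') (sp _ g)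
  let α : ℕ → Prop := fun i => 25 * (n + 1) < cnt (Sta G (q i) (P 0) (P (L + 1)) (P 0)) (M - 1)
  let β : ℕ → Prop := fun i =>
    25 * (n + 1) < cnt (Sta G (q i) (P 0) (P (L + 1)) (P (L + 1))) (M - 1)
  have c1 := Finset.card_filter_add_card_filter_not (s := range Z) (fun i => α i ∨ β i)
  rw [card_range, filter_or] at c1
  have c2 := card_union_le ((range Z).filter α) ((range Z).filter β)
  by_cases h1 : 2 * 10 ^ 14 + 6 ≤ ((range Z).filter α).card
  · exact S _ _ np hz pu pv (fun k hk => (hAD k hk).2) _ (filter_subset _ _) h1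
      (fun i hi => (mem_filter.1 hi).2)
  by_cases h2 : 2 * 10 ^ 14 + 6 ≤ ((range Z).filter β).card
  · exact S _ _ np.symm (fun i hi => (hz i hi).symm) pv pu (fun k hk => (hAD k hk).1) _
      (filter_subset _ _) h2 (fun i hi => lt_of_lt_of_le (mem_filter.1 hi).2
        (cnt_mono fun r _ g => ⟨g.1.symm, g.2⟩))
  have mJ : ∀ i ∈ (range Z).filter (fun i => ¬ (α i ∨ β i)), i < Z := fun i hi =>
    mem_range.1 (mem_filter.1 hi).1
  refine caseT h3 (m := n + 1) (hn ▸ np) (by omega) hM.ge (q := q)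
    (J := (range Z).filter (fun i => ¬ (α i ∨ β i))) (by omega) (fun i hi => hz i (mJ i hi))
    (fun i hi k hk => dj i (mJ i hi) k (mJ k hk))
    (fun i hi => not_lt.1 (not_or.1 (mem_filter.1 hi).2).1)
    (fun i hi => not_lt.1 (not_or.1 (mem_filter.1 hi).2).2)
    (fun i hi => dp 0 R0 i (mJ i hi) _ (mem_seg hr)) (fun e => pu 0 R0 (e ▸ mem_seg hr))
    (fun e => pv 0 R0 (e ▸ mem_seg hr)) hO fun b b1 b2 => ?_
  obtain ⟨w, w0, w1⟩ := hw b b1 b2
  refine ⟨w, fun i hi g => w0 (Seg.mono (by omega) ?_ (sq i g)), w1⟩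
  have := zd i (mJ i hi)
  omega

theorem lin (h3 : ∀ x y : V, x ≠ y → ∃ z, G.Adj x z ∧ G.Adj y z) {u v : V} (huv : u ≠ v)
    {j : ℕ} (hj : 2 * 10 ^ 29 ≤ j) (p : G.Walk u v) (hp : p.IsPath)
    (hl : 10 ^ 31 * j ≤ p.support.length) :
    ∃ p' : G.Walk u v, p'.IsPath ∧ p'.support.length = j := by
  obtain ⟨t, rfl⟩ : ∃ t, j = t + 2 := ⟨j - 2, by omega⟩
  by_contra hn
  rw [SimpleGraph.Walk.length_support] at hl
  obtain ⟨L, hL⟩ : ∃ L, p.length = L + 1 := ⟨p.length - 1, by omega⟩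
  have hP : Ray G p.getVert (L + 1) :=
    ⟨fun a ha b hb e => hp.getVert_injOn (by simpa [hL] using ha) (by simpa [hL] using hb) e,
      fun a ha => p.adj_getVert_succ (by omega)⟩
  refine coreL h3 hP (t := t) (by omega) (by omega) ?_
  rw [← hL, SimpleGraph.Walk.getVert_zero, SimpleGraph.Walk.getVert_length]
  intro x y S q hu hv a1 a2
  obtain ⟨l, l1, l2, l3, l4, l5, -⟩ := (q.cons a1.symm hu).snoc a2.symm (by
    rintro (h | h)
    exacts [huv h.symm, hv h])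
  obtain ⟨w, w1, w2⟩ := walk_of_lp (G := G) (u := u) (v := v) (l := l) ⟨l1, l2, l3, l4⟩
  exact hn ⟨w, w1, by rw [w2, l5]⟩

theorem mainL {i j : ℕ}
    (h3 : ∀ u v : V, u ≠ v → ∃ p : G.Walk u v, p.IsPath ∧ p.support.length = 3)
    (hi : ∀ u v : V, u ≠ v → ∃ p : G.Walk u v, p.IsPath ∧ p.support.length = i)
    (h6 : 6 ≤ j) (hji : j ≤ i) (h : j ≤ 12 ∨ 50 * j ^ 2 ≤ i ∨ 10 ^ 31 * j ≤ i) :
    ∀ u v : V, u ≠ v → ∃ p : G.Walk u v, p.IsPath ∧ p.support.length = j := by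
  rcases h with h | h | h
  · exact main' h3 hi h6 hji (Or.inl h)
  · exact main' h3 hi h6 hji (Or.inr h)
  rcases le_total (50 * j) (10 ^ 31) with h1 | h1
  · refine main' h3 hi h6 hji (Or.inr (le_trans ?_ h))
    rw [pow_two, ← Nat.mul_assoc]
    exact Nat.mul_le_mul_right j h1
  · intro u v huv
    obtain ⟨p, hp, hl⟩ := hi u v huv
    exact lin (common_of_three h3) huv (by omega) p hp (by rw [hl]; exact h)

end Pool.Agent.Work.MP_193ce1_co.Lin
end
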